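import Pool.Agent.H61.Re.D1
import Pool.Agent.H61.Rc.H3

/-! # G1: half calibrations

A half calibration satisfies the inequality for `0 ≤ m ≤ m1` only and is antisymmetric under
`(m, y, v) ↦ (-m, ȳ, v̄)`. -/

set_option autoImplicit false

namespace Pool.H61.Rh

open Complex

/-- half calibration with the linear residual `μ (lx·x + lu·u)` and the margin
`ν (|x|² + |u|²)` -/
structure HCal (μ : ℝ) (lx lu : ℝ → ℂ) (ν : ℝ) (W : ℝ × ℂ × ℂ → ℝ) : Prop where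
  smooth : ContDiffOn ℝ 1 W St
  junction : ∀ y v : ℂ, Dom y → ‖v‖ ≤ 3 / 10 → W (m1, y, v) = W (-m1, uu 1 * y, uu 1 * v)
  neg : ∀ (m : ℝ) (y v : ℂ), W (-m, (starRingEnd ℂ) y, (starRingEnd ℂ) v) = -W (m, y, v)
  ineq : ∀ m : ℝ, 0 ≤ m → m ≤ m1 → ∀ y : ℂ, Dom y → ∀ v : ℂ, ‖v‖ ≤ 3 / 10 → ∀ j : Fin 3,
    fderiv ℝ W (m, y, v) (fs y v / osd m, Vx y j, vt y v) ≤
      (Lag μ m y v + μ * (dt (lx m) (y - oy m) + dt (lu m) (v - ov m))
        - ν * (normSq (y - oy m) + normSq (v - ov m))) * fs y v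

/-- the function `N` of the calibrations -/
noncomputable def Nc (ν : ℝ) (m : ℝ) (y v : ℂ) : ℝ :=
  Real.sqrt (ν * (normSq (y - oy m) + normSq (v - ov m)))

/-! ## Symmetry -/

private lemma G1_dt_conj (z w : ℂ) : dt ((starRingEnd ℂ) z) ((starRingEnd ℂ) w) = dt z w := by
  simp [dt]

lemma fs_conj (y v : ℂ) : fs ((starRingEnd ℂ) y) ((starRingEnd ℂ) v) = fs y v := by
  unfold fs
  rw [G1_dt_conj, normSq_conj]

lemma bp_conj (y v : ℂ) : bp ((starRingEnd ℂ) y) ((starRingEnd ℂ) v) =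
    -(starRingEnd ℂ) (bp y v) := by
  unfold bp
  rw [G1_dt_conj, normSq_conj]
  simp only [map_div₀, map_mul, map_sub, map_neg, conj_I, conj_ofReal]
  ring

lemma vt_conj (y v : ℂ) : vt ((starRingEnd ℂ) y) ((starRingEnd ℂ) v) =
    -(starRingEnd ℂ) (vt y v) := by
  unfold vt
  rw [fs_conj, bp_conj]
  simp only [map_mul, map_sub, conj_I, conj_ofReal, map_ofNat]
  ring

/-- exchange of the vertices `1, 2` -/
def jc : Fin 3 → Fin 3 := ![0, 2, 1]

lemma uu_jc (j : Fin 3) : uu (jc j) = (starRingEnd ℂ) (uu j) := by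
  fin_cases j <;> (simp only [jc, uu]; apply Complex.ext <;> simp)

lemma Vx_conj (y : ℂ) (j : Fin 3) : Vx ((starRingEnd ℂ) y) (jc j) =
    -(starRingEnd ℂ) (Vx y j) := by
  unfold Vx
  rw [uu_jc, G1_dt_conj, normSq_conj]
  simp only [map_mul, map_sub, conj_I, conj_ofReal]
  ring

lemma dom_conj {y : ℂ} (h : Dom y) : Dom ((starRingEnd ℂ) y) := by
  intro j
  have h1 := h (jc j)
  have h2 : dt (uu (jc j)) y = dt (uu j) ((starRingEnd ℂ) y) := by
    rw [uu_jc, ← G1_dt_conj (uu j), Complex.conj_conj]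
  rw [h2] at h1
  rw [normSq_conj]
  exact h1

private lemma G1_oa_neg (m : ℝ) : oa (-m) = -(starRingEnd ℂ) (oa m) := by
  unfold oa
  apply Complex.ext
  · simp [Real.sinh_neg]
  · simp

private lemma G1_ob_neg (m : ℝ) : ob (-m) = -(starRingEnd ℂ) (ob m) := by
  unfold ob
  apply Complex.ext
  · simp [Real.sinh_neg]
  · simp

lemma es_neg (m : ℝ) : es (oa (-m)) = (starRingEnd ℂ) (es (oa m)) := by
  rw [G1_oa_neg]
  unfold es
  rw [norm_neg, norm_conj, map_div₀, map_mul, conj_I, conj_ofReal]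
  ring

lemma osd_neg (m : ℝ) : osd (-m) = osd m := by
  unfold osd otau'
  rw [Real.cosh_neg, G1_oa_neg, G1_ob_neg, oy_neg]
  congr 1
  unfold fq dt
  rw [normSq_neg, normSq_conj]
  simp only [mul_re, mul_im, neg_re, neg_im, conj_re, conj_im]
  congr 2
  ring

lemma Lag_neg (μ m : ℝ) (y v : ℂ) :
    Lag μ (-m) ((starRingEnd ℂ) y) ((starRingEnd ℂ) v) = Lag μ m y v := by
  have h1 : bp (oy (-m)) (ov (-m)) = -(starRingEnd ℂ) (bp (oy m) (ov m)) := by
    rw [oy_neg, ov_neg, bp_conj]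
  have h2 : (starRingEnd ℂ) v - ov (-m) = (starRingEnd ℂ) (v - ov m) := by
    rw [ov_neg, map_sub]
  have h3 : es (oa (-m)) ^ 8 * ((starRingEnd ℂ) (v - ov m)) =
      (starRingEnd ℂ) (es (oa m) ^ 8 * (v - ov m)) := by
    rw [es_neg, map_mul, map_pow]
  have h4 : ∀ z w : ℂ, cr ((starRingEnd ℂ) z) (-(starRingEnd ℂ) w) = cr z w := by
    intro z w; simp [cr]
  unfold Lag
  rw [h1, h2, h3, bp_conj, normSq_conj, h4, conj_re]
  have h5 : -(starRingEnd ℂ) (bp y v) - -(starRingEnd ℂ) (bp (oy m) (ov m)) =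
      -(starRingEnd ℂ) (bp y v - bp (oy m) (ov m)) := by rw [map_sub]; ring
  rw [h5, h4, normSq_neg, normSq_conj]

lemma Nc_neg (ν m : ℝ) (y v : ℂ) :
    Nc ν (-m) ((starRingEnd ℂ) y) ((starRingEnd ℂ) v) = Nc ν m y v := by
  unfold Nc
  rw [oy_neg, ov_neg, ← map_sub, ← map_sub, normSq_conj, normSq_conj]

/-- conjugation of the state -/
noncomputable def cjL : ℝ × ℂ × ℂ →L[ℝ] ℝ × ℂ × ℂ :=
  ((-ContinuousLinearMap.id ℝ ℝ).comp (ContinuousLinearMap.fst ℝ ℝ (ℂ × ℂ))).prod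
    (((conjCLE : ℂ →L[ℝ] ℂ).comp ((ContinuousLinearMap.fst ℝ ℂ ℂ).comp
      (ContinuousLinearMap.snd ℝ ℝ (ℂ × ℂ)))).prod
    ((conjCLE : ℂ →L[ℝ] ℂ).comp ((ContinuousLinearMap.snd ℝ ℂ ℂ).comp
      (ContinuousLinearMap.snd ℝ ℝ (ℂ × ℂ)))))

lemma cjL_apply (m : ℝ) (y v : ℂ) :
    cjL (m, y, v) = (-m, (starRingEnd ℂ) y, (starRingEnd ℂ) v) := by
  simp [cjL]

lemma fderiv_neg {W : ℝ × ℂ × ℂ → ℝ}
    (hn : ∀ (m : ℝ) (y v : ℂ), W (-m, (starRingEnd ℂ) y, (starRingEnd ℂ) v) = -W (m, y, v))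
    {m : ℝ} {y v : ℂ} (hd : DifferentiableAt ℝ W (-m, (starRingEnd ℂ) y, (starRingEnd ℂ) v))
    (a : ℝ) (b c : ℂ) : fderiv ℝ W (m, y, v) (a, b, c) =
      fderiv ℝ W (-m, (starRingEnd ℂ) y, (starRingEnd ℂ) v)
        (a, -(starRingEnd ℂ) b, -(starRingEnd ℂ) c) := by
  have h1 : W = fun p => -(W ∘ cjL) p := by
    funext p
    obtain ⟨m, y, v⟩ := p
    simp only [Function.comp_apply, cjL_apply, hn, neg_neg]
  have h2 : HasFDerivAt (W ∘ cjL)
      ((fderiv ℝ W (cjL (m, y, v))).comp cjL) (m, y, v) := by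
    apply HasFDerivAt.comp
    · rw [cjL_apply]; exact hd.hasFDerivAt
    · exact cjL.hasFDerivAt
  have h3 : HasFDerivAt W (-((fderiv ℝ W (cjL (m, y, v))).comp cjL)) (m, y, v) := by
    have := h2.neg
    rw [← Function.comp_def] at *
    have e : (-(W ∘ cjL)) = W := by
      funext p; exact (congrFun h1 p).symm
    rwa [e] at this
  rw [h3.fderiv]
  have e : cjL (a, b, c) = -((a, -(starRingEnd ℂ) b, -(starRingEnd ℂ) c) : ℝ × ℂ × ℂ) := by
    rw [cjL_apply]; simp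
  rw [cjL_apply]
  rw [neg_apply, ContinuousLinearMap.comp_apply]
  rw [e, map_neg, neg_neg]

/-! ## From half calibrations to calibrations -/

private lemma G1_open : IsOpen St := by
  have h1 : IsOpen {p : ℝ × ℂ × ℂ | |p.1| < 1 / 4} :=
    isOpen_lt (continuous_abs.comp continuous_fst) continuous_const
  have h2 : ∀ j : Fin 3, IsOpen {p : ℝ × ℂ × ℂ | 0 < 1 - 2 * dt (uu j) p.2.1} := by
    intro j
    refine isOpen_lt continuous_const ?_
    unfold dt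
    fun_prop
  have : St = {p : ℝ × ℂ × ℂ | |p.1| < 1 / 4} ∩
      ⋂ j : Fin 3, {p : ℝ × ℂ × ℂ | 0 < 1 - 2 * dt (uu j) p.2.1} := by
    ext p; simp [St]
  rw [this]
  exact h1.inter (isOpen_iInter_of_finite h2)

private lemma G1_diff {W : ℝ × ℂ × ℂ → ℝ} (h : ContDiffOn ℝ 1 W St) {m : ℝ} (hm : |m| ≤ m1)
    {y : ℂ} (hy : Dom y) (v : ℂ) : DifferentiableAt ℝ W (m, y, v) := by
  have h1 := m1_bounds.2
  have hmem : ((m, y, v) : ℝ × ℂ × ℂ) ∈ St :=
    ⟨by show |m| < 1 / 4; linarith, fun i => by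
      have := (hy i).1
      show 0 < 1 - 2 * dt (uu i) y
      linarith⟩
  exact (h.contDiffAt (G1_open.mem_nhds hmem)).differentiableAt (by norm_num)

private lemma G1_fs_pos {y v : ℂ} (hy : Dom y) (hv : ‖v‖ ≤ 3 / 10) : 0 < fs y v := by
  have hk := ka_abs (y := y) hv
  have hyn := dom_norm hy
  rw [fs_eq]; linarith [neg_abs_le (ka y v)]

/-- reduction of the inequality of `Cal` to `0 ≤ m` -/
theorem ineq_of_half {W : ℝ × ℂ × ℂ → ℝ} {F : ℝ → ℂ → ℂ → ℝ} (hs : ContDiffOn ℝ 1 W St)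
    (hn : ∀ (m : ℝ) (y v : ℂ), W (-m, (starRingEnd ℂ) y, (starRingEnd ℂ) v) = -W (m, y, v))
    (hF : ∀ (m : ℝ) (y v : ℂ), F (-m) ((starRingEnd ℂ) y) ((starRingEnd ℂ) v) = F m y v)
    (h : ∀ m : ℝ, 0 ≤ m → m ≤ m1 → ∀ y : ℂ, Dom y → ∀ v : ℂ, ‖v‖ ≤ 3 / 10 → ∀ j : Fin 3,
      fderiv ℝ W (m, y, v) (fs y v / osd m, Vx y j, vt y v) ≤ F m y v * fs y v)
    (m : ℝ) (hm : |m| ≤ m1) (y : ℂ) (hy : Dom y) (v : ℂ) (hv : ‖v‖ ≤ 3 / 10) (j : Fin 3) :
    fderiv ℝ W (m, y, v) (fs y v / osd m, Vx y j, vt y v) ≤ F m y v * fs y v := by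
  rcases le_total 0 m with h0 | h0
  · exact h m h0 ((le_abs_self m).trans hm) y hy v hv j
  · have hd := G1_diff hs (m := -m) (by rwa [abs_neg]) (dom_conj hy) ((starRingEnd ℂ) v)
    have h1 := h (-m) (by linarith) ((neg_le_abs m).trans hm) _ (dom_conj hy)
      ((starRingEnd ℂ) v) (by rwa [norm_conj]) (jc j)
    rw [fderiv_neg hn hd]
    rw [hF, fs_conj, osd_neg, Vx_conj, vt_conj] at h1
    exact h1

/-- a half calibration with a small residual is a calibration -/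
theorem HCal.cal {μ ν ε : ℝ} {lx lu : ℝ → ℂ} {W : ℝ × ℂ × ℂ → ℝ} (h : HCal μ lx lu ν W)
    (hν : 0 ≤ ν) (hε : 0 ≤ ε) (hl : ∀ m, 0 ≤ m → m ≤ m1 →
      μ ^ 2 * (normSq (lx m) + normSq (lu m)) ≤ ε ^ 2 * ν) : Cal μ ε (Nc ν) W := by
  refine ⟨h.smooth, h.junction, ?_⟩
  refine ineq_of_half (F := fun m y v => Lag μ m y v + ε * Nc ν m y v - Nc ν m y v ^ 2)
    h.smooth h.neg (fun m y v => by rw [Lag_neg, Nc_neg]) ?_
  intro m h0 h1 y hy v hv j
  refine (h.ineq m h0 h1 y hy v hv j).trans (mul_le_mul_of_nonneg_right ?_ (G1_fs_pos hy hv).le)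
  have hX0 : 0 ≤ normSq (y - oy m) + normSq (v - ov m) :=
    add_nonneg (normSq_nonneg _) (normSq_nonneg _)
  have hN2 : Nc ν m y v ^ 2 = ν * (normSq (y - oy m) + normSq (v - ov m)) :=
    Real.sq_sqrt (mul_nonneg hν hX0)
  have hN0 : 0 ≤ Nc ν m y v := Real.sqrt_nonneg _
  have key : μ * (dt (lx m) (y - oy m) + dt (lu m) (v - ov m)) ≤ ε * Nc ν m y v := by
    apply le_of_sq_le_sq _ (mul_nonneg hε hN0)
    rw [mul_pow, mul_pow, hN2]
    have c1 : (dt (lx m) (y - oy m) + dt (lu m) (v - ov m)) ^ 2 ≤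
        (normSq (lx m) + normSq (lu m)) * (normSq (y - oy m) + normSq (v - ov m)) := by
      generalize y - oy m = x
      generalize v - ov m = u
      generalize lx m = p
      generalize lu m = q
      simp only [dt, normSq_apply]
      nlinarith [sq_nonneg (p.re * x.im - p.im * x.re), sq_nonneg (p.re * u.re - q.re * x.re),
        sq_nonneg (p.re * u.im - q.im * x.re), sq_nonneg (p.im * u.re - q.re * x.im),
        sq_nonneg (p.im * u.im - q.im * x.im), sq_nonneg (q.re * u.im - q.im * u.re)]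
    calc μ ^ 2 * (dt (lx m) (y - oy m) + dt (lu m) (v - ov m)) ^ 2
        ≤ μ ^ 2 * ((normSq (lx m) + normSq (lu m)) *
          (normSq (y - oy m) + normSq (v - ov m))) :=
          mul_le_mul_of_nonneg_left c1 (sq_nonneg μ)
      _ = (μ ^ 2 * (normSq (lx m) + normSq (lu m))) *
          (normSq (y - oy m) + normSq (v - ov m)) := by ring
      _ ≤ (ε ^ 2 * ν) * (normSq (y - oy m) + normSq (v - ov m)) :=
          mul_le_mul_of_nonneg_right (hl m h0 h1) hX0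
      _ = _ := by ring
  rw [hN2]
  linarith

/-- convex combination of two half calibrations in which the linear term cancels -/
theorem HCal.zero {μa μb ν : ℝ} {lx lu : ℝ → ℂ} {Wa Wb : ℝ × ℂ × ℂ → ℝ}
    (ha : HCal μa lx lu ν Wa) (hb : HCal μb lx lu ν Wb) (hν : 0 ≤ ν) (h1 : μa < 0)
    (h2 : 0 < μb) : ∃ W : ℝ × ℂ × ℂ → ℝ, Cal 0 0 (Nc ν) W := by
  obtain ⟨t, ht0, ht1, ht⟩ : ∃ t : ℝ, 0 ≤ t ∧ t ≤ 1 ∧ t * μa + (1 - t) * μb = 0 := by
    refine ⟨μb / (μb - μa), div_nonneg h2.le (by linarith), ?_, ?_⟩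
    · rw [div_le_one (by linarith)]; linarith
    · have : μb - μa ≠ 0 := by linarith
      field_simp; ring
  refine ⟨fun p => t * Wa p + (1 - t) * Wb p, ?_, ?_, ?_⟩
  · exact (contDiffOn_const.mul ha.smooth).add (contDiffOn_const.mul hb.smooth)
  · intro y v hy hv
    rw [ha.junction y v hy hv, hb.junction y v hy hv]
  · refine ineq_of_half (F := fun m y v => Lag 0 m y v + 0 * Nc ν m y v - Nc ν m y v ^ 2)
      ((contDiffOn_const.mul ha.smooth).add (contDiffOn_const.mul hb.smooth))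
      (fun m y v => by simp only [ha.neg, hb.neg]; ring)
      (fun m y v => by rw [Lag_neg, Nc_neg]) ?_
    intro m m0 mm y hy v hv j
    have hma : |m| ≤ m1 := by rw [abs_of_nonneg m0]; exact mm
    have d1 := G1_diff ha.smooth hma hy v
    have d2 := G1_diff hb.smooth hma hy v
    have e : fderiv ℝ (fun p => t * Wa p + (1 - t) * Wb p) (m, y, v) =
        t • fderiv ℝ Wa (m, y, v) + (1 - t) • fderiv ℝ Wb (m, y, v) := by
      have := (d1.hasFDerivAt.const_mul t).add (d2.hasFDerivAt.const_mul (1 - t))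
      exact this.fderiv
    rw [e]
    have i1 := mul_le_mul_of_nonneg_left (ha.ineq m m0 mm y hy v hv j) ht0
    have i2 := mul_le_mul_of_nonneg_left (hb.ineq m m0 mm y hy v hv j)
      (by linarith : 0 ≤ 1 - t)
    have hN2 : Nc ν m y v ^ 2 = ν * (normSq (y - oy m) + normSq (v - ov m)) :=
      Real.sq_sqrt (mul_nonneg hν (add_nonneg (normSq_nonneg _) (normSq_nonneg _)))
    rw [hN2]
    have e2 : (t • fderiv ℝ Wa (m, y, v) + (1 - t) • fderiv ℝ Wb (m, y, v))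
        (fs y v / osd m, Vx y j, vt y v) =
        t * fderiv ℝ Wa (m, y, v) (fs y v / osd m, Vx y j, vt y v) +
        (1 - t) * fderiv ℝ Wb (m, y, v) (fs y v / osd m, Vx y j, vt y v) := rfl
    rw [e2]
    refine (add_le_add i1 i2).trans (le_of_eq ?_)
    unfold Lag
    linear_combination (((es (oa m) ^ 8 * (v - ov m)).re +
      (dt (lx m) (y - oy m) + dt (lu m) (v - ov m))) * fs y v) * ht

end Pool.H61.Rh
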