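import Pool.Agent.H61.Re.D4

/-! # D5: the calibration function: smoothness, junction, symmetry

Smoothness: everything is a polynomial in `re, im` of `C¹` functions.
Junction: `oy (-m1) = ω oy m1`, `ov (-m1) = ω ov m1` (`oy_match`, `ov_match`), so at
`(-m1, ω y, ω v)` the differences are `ω x, ω u`; `qy (-m1) = -conj (qy m1) = ω qy m1` because
`(qy m1).re = s3 (qy m1).im`; `dt (ω z) (ω w) = dt z w`.
`c.ev (-m) = conj (c.ev m)`; at `θ = 1`: `c.ev m1 = hor p 1 + i s3 hor q 1`.  For a monomial with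
`n = a - b + c - d` (mod 3) the value at `-m1` is `Im(conj C ω^n mono)` and the condition
`conj C ω^n = C` is: `n = 0`: `hor q 1 = 0`; `n = 1`: `hor q 1 = hor p 1`; `n = 2`:
`hor q 1 = - hor p 1`  (`s3² = 3`).
`VA (-): conj`: `VA (conj c) (conj x) = -VA c x`, `VB (conj c) (conj x) = -conj (VB c x)`,
`dt (conj z) (conj w) = dt z w`.
For the parts `ax`, `bu`: `dt (I conj C) x = Im (C x)`. -/

set_option autoImplicit false

namespace Pool.H61.Rh

open Complex

/-! ### smoothness -/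

section smooth

variable {f g : ℝ × ℂ × ℂ → ℂ}

private lemma D5_re (hf : ContDiff ℝ 1 f) : ContDiff ℝ 1 (fun p => (f p).re) :=
  reCLM.contDiff.comp hf

private lemma D5_im (hf : ContDiff ℝ 1 f) : ContDiff ℝ 1 (fun p => (f p).im) :=
  imCLM.contDiff.comp hf

private lemma D5_ofReal {r : ℝ × ℂ × ℂ → ℝ} (hf : ContDiff ℝ 1 r) :
    ContDiff ℝ 1 (fun p => ((r p : ℝ) : ℂ)) :=
  ofRealCLM.contDiff.comp hf

private lemma D5_conj (hf : ContDiff ℝ 1 f) :
    ContDiff ℝ 1 (fun p => (starRingEnd ℂ) (f p)) :=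
  conjCLE.contDiff.comp hf

private lemma D5_dt (hf : ContDiff ℝ 1 f) (hg : ContDiff ℝ 1 g) :
    ContDiff ℝ 1 (fun p => dt (f p) (g p)) := by
  unfold dt
  exact ((D5_re hf).mul (D5_re hg)).add ((D5_im hf).mul (D5_im hg))

private lemma D5_normSq (hf : ContDiff ℝ 1 f) :
    ContDiff ℝ 1 (fun p => ((normSq (f p) : ℝ) : ℂ)) := by
  have e : (fun p => ((normSq (f p) : ℝ) : ℂ)) =
      fun p => (((f p).re * (f p).re + (f p).im * (f p).im : ℝ) : ℂ) := by
    funext p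
    rw [normSq_apply]
  rw [e]
  exact D5_ofReal (((D5_re hf).mul (D5_re hf)).add ((D5_im hf).mul (D5_im hf)))

private lemma D5_ev (c : Cf) : ContDiff ℝ 1 (fun p : ℝ × ℂ × ℂ => c.ev p.1) :=
  c.contDiff.comp contDiff_fst

private lemma D5_VA (d : VD) (hf : ContDiff ℝ 1 f) :
    ContDiff ℝ 1 (fun p => VA (d.ev p.1) (f p)) := by
  have h : ContDiff ℝ 1 (fun p : ℝ × ℂ × ℂ =>
      d.xx.ev p.1 * f p ^ 2 + d.xb.ev p.1 * ((normSq (f p) : ℝ) : ℂ) + d.x3.ev p.1 * f p ^ 3 +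
        d.x2b.ev p.1 * (((normSq (f p) : ℝ) : ℂ) * f p)) :=
    ((((D5_ev d.xx).mul (hf.pow 2)).add ((D5_ev d.xb).mul (D5_normSq hf))).add
      ((D5_ev d.x3).mul (hf.pow 3))).add ((D5_ev d.x2b).mul ((D5_normSq hf).mul hf))
  exact D5_im h

private lemma D5_VB (d : VD) (hf : ContDiff ℝ 1 f) :
    ContDiff ℝ 1 (fun p => VB (d.ev p.1) (f p)) := by
  have h1 : ContDiff ℝ 1 (fun p : ℝ × ℂ × ℂ =>
      d.xu.ev p.1 * f p + d.x2u.ev p.1 * f p ^ 2 + d.xbu.ev p.1 * ((normSq (f p) : ℝ) : ℂ)) :=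
    (((D5_ev d.xu).mul hf).add ((D5_ev d.x2u).mul (hf.pow 2))).add
      ((D5_ev d.xbu).mul (D5_normSq hf))
  have h2 : ContDiff ℝ 1 (fun p : ℝ × ℂ × ℂ =>
      d.xc.ev p.1 * f p + d.x2c.ev p.1 * f p ^ 2) :=
    ((D5_ev d.xc).mul hf).add ((D5_ev d.x2c).mul (hf.pow 2))
  exact (contDiff_const.mul (D5_conj h1)).sub (contDiff_const.mul h2)

end smooth

theorem VD.W_smooth (d : VD) : ContDiff ℝ 1 d.W := by
  have hy : ContDiff ℝ 1 (fun p : ℝ × ℂ × ℂ => p.2.1 - oy p.1) :=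
    (contDiff_fst.comp contDiff_snd).sub (oy_contDiff.comp contDiff_fst)
  have hv : ContDiff ℝ 1 (fun p : ℝ × ℂ × ℂ => p.2.2 - ov p.1) :=
    (contDiff_snd.comp contDiff_snd).sub (ov_contDiff.comp contDiff_fst)
  have hq : ContDiff ℝ 1 (fun p : ℝ × ℂ × ℂ => qy p.1 + d.ae p.1) :=
    (qy_contDiff.comp contDiff_fst).add (contDiff_const.mul (D5_conj (D5_ev d.ax)))
  have hov : ContDiff ℝ 1 (fun p : ℝ × ℂ × ℂ => ov p.1) := ov_contDiff.comp contDiff_fst
  have hb : ContDiff ℝ 1 (fun p : ℝ × ℂ × ℂ => d.bt p.1 (p.2.1 - oy p.1)) :=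
    (((contDiff_const.mul (contDiff_const.mul hov)).neg).add
      (contDiff_const.mul (D5_conj (D5_ev d.bu)))).add (D5_VB d hy)
  exact ((D5_dt hq hy).add (D5_VA d hy)).add (D5_dt hb hv)

/-! ### values at `-m` and at the ends -/

private lemma D5_ev_neg (c : Cf) (m : ℝ) : c.ev (-m) = (starRingEnd ℂ) (c.ev m) := by
  have e : (-m / m1) ^ 2 = (m / m1) ^ 2 := by ring
  unfold Cf.ev
  rw [e]
  apply Complex.ext
  · simp only [conj_re]
  · simp only [conj_im]
    ring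

private lemma D5_m1_ne : m1 ≠ 0 := by
  have h : 0 < Real.log 2 := Real.log_pos (by norm_num)
  unfold m1
  positivity

private lemma D5_ev_m1 (c : Cf) : c.ev m1 = ⟨hor c.p 1, s3 * hor c.q 1⟩ := by
  unfold Cf.ev
  rw [div_self D5_m1_ne, one_pow, mul_one]

private lemma D5_uu1 : uu 1 = ⟨-1 / 2, s3 / 2⟩ := rfl

/-- `n = 0` -/
private lemma D5_n0 {c : Cf} (h : hor c.q 1 = 0) : (starRingEnd ℂ) (c.ev m1) = c.ev m1 := by
  rw [D5_ev_m1, h]
  apply Complex.ext
  · simp only [conj_re]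
  · simp only [conj_im]
    ring

/-- `n = 1` -/
private lemma D5_n1 {c : Cf} (h : hor c.q 1 = hor c.p 1) :
    uu 1 * (starRingEnd ℂ) (c.ev m1) = c.ev m1 := by
  have h3 := s3_mul
  rw [D5_ev_m1, h, D5_uu1]
  apply Complex.ext
  · simp only [mul_re, conj_re, conj_im]
    linear_combination (hor c.p 1 / 2) * h3
  · simp only [mul_im, conj_re, conj_im]
    ring

/-- `n = 2` -/
private lemma D5_n2 {c : Cf} (h : hor c.q 1 = -hor c.p 1) :
    uu 1 ^ 2 * (starRingEnd ℂ) (c.ev m1) = c.ev m1 := by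
  have h3 := s3_mul
  rw [D5_ev_m1, h, D5_uu1]
  apply Complex.ext
  · simp only [pow_two, mul_re, mul_im, conj_re, conj_im]
    linear_combination (hor c.p 1 / 4) * h3
  · simp only [pow_two, mul_re, mul_im, conj_re, conj_im]
    linear_combination (-(hor c.p 1 * s3) / 4) * h3

private lemma D5_uu_cube : uu 1 ^ 3 = 1 := by
  have h3 := s3_mul
  rw [D5_uu1]
  apply Complex.ext
  · simp only [pow_succ, pow_zero, one_mul, mul_re, mul_im, one_re]
    linear_combination (3 / 8 : ℝ) * h3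
  · simp only [pow_succ, pow_zero, one_mul, mul_re, mul_im, one_im]
    linear_combination (-s3 / 8 : ℝ) * h3

private lemma D5_uu_conj : (starRingEnd ℂ) (uu 1) = uu 1 ^ 2 := by
  have h3 := s3_mul
  rw [D5_uu1]
  apply Complex.ext
  · simp only [pow_two, mul_re, conj_re]
    linear_combination (1 / 4 : ℝ) * h3
  · simp only [pow_two, mul_im, conj_im]
    ring

private lemma D5_uu_normSq : normSq (uu 1) = 1 := by
  have h3 := s3_mul
  rw [D5_uu1, normSq_apply]
  linear_combination (1 / 4 : ℝ) * h3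

private lemma D5_dt_rot (z w : ℂ) : dt (uu 1 * z) (uu 1 * w) = dt z w := by
  have h3 := s3_mul
  rw [D5_uu1]
  simp only [dt, mul_re, mul_im]
  linear_combination ((z.re * w.re + z.im * w.im) / 4) * h3

private lemma D5_dt_conj (z w : ℂ) :
    dt (-(starRingEnd ℂ) z) ((starRingEnd ℂ) w) = -dt z w := by
  simp only [dt, neg_re, neg_im, conj_re, conj_im]
  ring

private lemma D5_qy_m1 : qy (-m1) = uu 1 * qy m1 := by
  have h3 := s3_mul
  have h := qy_m1
  rw [qy_neg, D5_uu1]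
  apply Complex.ext
  · simp only [neg_re, conj_re, mul_re]
    rw [h]
    ring
  · simp only [neg_im, conj_im, mul_im]
    rw [h]
    linear_combination (-(qy m1).im / 2) * h3

theorem VD.W_junction {d : VD} (h : d.Junc) (y v : ℂ) :
    d.W (m1, y, v) = d.W (-m1, uu 1 * y, uu 1 * v) := by
  have hc := D5_uu_cube
  have hx : uu 1 * y - oy (-m1) = uu 1 * (y - oy m1) := by
    rw [oy_match]
    ring
  have hu : uu 1 * v - ov (-m1) = uu 1 * (v - ov m1) := by
    rw [ov_match]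
    ring
  have ha : qy (-m1) + d.ae (-m1) = uu 1 * (qy m1 + d.ae m1) := by
    have e := D5_n1 h.ax
    unfold VD.ae
    rw [D5_qy_m1, D5_ev_neg, conj_conj]
    linear_combination (-I) * e
  obtain ⟨x, hxd⟩ : ∃ x, x = y - oy m1 := ⟨_, rfl⟩
  have hA : VA (d.ev (-m1)) (uu 1 * x) = VA (d.ev m1) x := by
    have e1 := D5_n2 h.xx
    have e2 := D5_n0 h.xb
    have e3 := D5_n0 h.x3
    have e4 := D5_n1 h.x2b
    unfold VA VD.ev
    simp only [D5_ev_neg]
    rw [normSq_mul, D5_uu_normSq, one_mul]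
    congr 1
    linear_combination x ^ 2 * e1 + (normSq x : ℂ) * e2 + x ^ 3 * e3 +
      (normSq x : ℂ) * x * e4 + (starRingEnd ℂ) (d.x3.ev m1) * x ^ 3 * hc
  have hB : VB (d.ev (-m1)) (uu 1 * x) = uu 1 * VB (d.ev m1) x := by
    have e1 := D5_n2 h.xu
    have e2 := D5_n0 h.x2u
    have e3 := D5_n1 h.xbu
    have e4 := D5_n0 h.xc
    have e5 := D5_n1 h.x2c
    unfold VB VD.ev
    simp only [D5_ev_neg]
    rw [normSq_mul, D5_uu_normSq, one_mul]
    simp only [map_add, map_mul, map_pow, conj_ofReal, conj_conj]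
    rw [D5_uu_conj]
    linear_combination (-(I * (starRingEnd ℂ) x * uu 1 ^ 2)) * e1 +
      I * (starRingEnd ℂ) x * uu 1 * (starRingEnd ℂ) (d.xu.ev m1) * hc +
      I * (starRingEnd ℂ) x ^ 2 * uu 1 * d.x2u.ev m1 * hc -
      I * (starRingEnd ℂ) x ^ 2 * uu 1 * e2 - I * (normSq x : ℂ) * e3 -
      I * x * uu 1 * e4 - I * x ^ 2 * uu 1 * e5
  have hb : d.bt (-m1) (uu 1 * x) = uu 1 * d.bt m1 x := by
    have e := D5_n1 h.bu
    unfold VD.bt VD.be
    rw [hB, ov_match, D5_ev_neg, conj_conj]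
    linear_combination (-I) * e
  unfold VD.W
  simp only
  rw [hx, hu, ha, ← hxd, hA, hb, D5_dt_rot, D5_dt_rot]

theorem VD.W_neg (d : VD) (m : ℝ) (y v : ℂ) :
    d.W (-m, (starRingEnd ℂ) y, (starRingEnd ℂ) v) = -d.W (m, y, v) := by
  have hx : (starRingEnd ℂ) y - oy (-m) = (starRingEnd ℂ) (y - oy m) := by
    rw [oy_neg, map_sub]
  have hu : (starRingEnd ℂ) v - ov (-m) = (starRingEnd ℂ) (v - ov m) := by
    rw [ov_neg, map_sub]
  have ha : qy (-m) + d.ae (-m) = -(starRingEnd ℂ) (qy m + d.ae m) := by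
    unfold VD.ae
    rw [qy_neg, D5_ev_neg, map_add, map_mul, conj_conj, conj_I]
    ring
  have hA : VA (d.ev (-m)) ((starRingEnd ℂ) (y - oy m)) = -VA (d.ev m) (y - oy m) := by
    unfold VA VD.ev
    simp only [D5_ev_neg]
    rw [← conj_im, normSq_conj]
    simp only [map_add, map_mul, map_pow, conj_ofReal]
  have hB : VB (d.ev (-m)) ((starRingEnd ℂ) (y - oy m)) =
      -(starRingEnd ℂ) (VB (d.ev m) (y - oy m)) := by
    unfold VB VD.ev
    simp only [D5_ev_neg]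
    rw [normSq_conj]
    simp only [map_add, map_sub, map_mul, map_pow, conj_ofReal, conj_conj, conj_I]
    ring
  have hb : d.bt (-m) ((starRingEnd ℂ) (y - oy m)) =
      -(starRingEnd ℂ) (d.bt m (y - oy m)) := by
    unfold VD.bt VD.be
    rw [hB, ov_neg, D5_ev_neg]
    simp only [map_add, map_neg, map_mul, conj_ofReal, conj_conj, conj_I]
    ring
  unfold VD.W
  simp only
  rw [hx, hu, ha, hA, hb, D5_dt_conj, D5_dt_conj]
  ring

end Pool.H61.Rh
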