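import Pool.Agent.H61.Re.D1

/-! # D3: the differential equation of the exact costate

`qd m = otau' m (-DVT y* q_y - 2 c ρ* v*)`, `ρ* v* = - b ā` (`oR_mul_ov`).

Write `k = kp`, `r = √2`, `C = cosh m`, `h = sinh m`, `K = 2r - 1`, `S = 2kC - 1`;
`k² = 2r`, `r² = 2`, `s3² = 3`, `C² - h² = 1`.
`qy = S/(9 s3 K²) T`, `T = tk + l pk`, `l = c · 3(4-r)/4`, so
`qy' = (2kh T + S T')/(9 s3 K²)`.  In `DVT`: `normSq y* = 1 - 3K/S²` (`oy_w`), `1 - 2 y*.re = 3/S`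
(`oy_d0`): `w = 3K/S²`, `2w/d = 2K/S`, `4w²/d² = 4K²/S²`, `y* = (kC - 2 + i s3 k h)/S`,
`dt q I = q.im`.
The identity is linear in `(tk, m-terms)` and `pk` and splits into:
(a) the terms without `c`: `tk' `, (b) the terms with `c`: `pk'` and `2 c b ā` with
`b ā` explicit in `oC²`, `sA cB` etc.:
`sA cB + cA sB = r/2`, `sA cB - cA sB = 1/2`, `cA cB - sA sB = r/2`, `cA cB + sA sB = s3/2`,
`sA² = 1/2 - (s3 r - r)/8`, `cA² = 1/2 + (s3 r - r)/8`, `sB² = 1/2 - (s3 r + r)/8`,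
`cB² = 1/2 + (s3 r + r)/8` (angles `5π/24`, `π/24`; sum `π/4`, difference `π/6`; or use
`cA_eq`, `sA_eq`, `cB_sB`, `cB_sq_sub` of `R1.lean`; see the proof of `oy_hasDerivAt` there for
the technique), `oC² ((kp²-1)(√2 s3/4)) = 1` (`oC_sq`).
After multiplication by `S²` both are polynomial identities (real and imaginary part).  Prove them
as separate lemmas; `linear_combination (e1) * hk + (e2) * hr + (e3) * hC + (e4) * h3`. -/

set_option autoImplicit false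

namespace Pool.H61.Rh

open Complex

private noncomputable def D3_T1 (k C h r s m l : ℝ) : ℝ :=
  k * h * (-15 - 93 / 4 * r) + 24 * r * h * C + m * (24 * r - 6 * k * C) +
    l * (s * (9 * k - 8 * C) * h)

private noncomputable def D3_T2 (k C h r s m l : ℝ) : ℝ :=
  s * (12 * r - 6 - (3 - 3 / 4 * r) * k * C + 24 * r * h ^ 2 - 6 * m * k * h) +
    l * (3 * (k * C - 8 * C ^ 2 + 4))

private noncomputable def D3_U1 (k C h r s m l : ℝ) : ℝ :=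
  k * C * (-15 - 93 / 4 * r) + 24 * r * (C * C + h * h) + ((24 * r - 6 * k * C) - 6 * m * k * h) +
    l * (s * ((9 * k - 8 * C) * C - 8 * h * h))

private noncomputable def D3_U2 (k C h r s m l : ℝ) : ℝ :=
  s * (-(3 - 3 / 4 * r) * k * h + 48 * r * h * C - 6 * k * h - 6 * m * k * C) +
    l * (3 * (k * h - 16 * C * h))

private noncomputable def D3_X (k C h r : ℝ) : ℝ :=
  -h ^ 2 * (r - 1) / 4 + C ^ 2 * (r + 1) / 4 - k * C * (1 + r / 4) + k ^ 2 * (r + 1) / 4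

private noncomputable def D3_Y (k C h r s : ℝ) : ℝ := h * (C * s / 2 - k * r * s / 4)

private theorem D3_re (k C h r s m c : ℝ) (hk : k ^ 2 = 2 * r) (hr : r ^ 2 = 2) (hs : s ^ 2 = 3)
    (hC : h ^ 2 = C ^ 2 - 1) :
    (2 * k * h * D3_T1 k C h r s m (c * (3 * (4 - r) / 4)) +
      (2 * k * C - 1) * D3_U1 k C h r s m (c * (3 * (4 - r) / 4))) * s * (2 * r - 1) =
    2 * (k * C - 2) * (D3_T1 k C h r s m (c * (3 * (4 - r) / 4)) * s * k * h +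
      D3_T2 k C h r s m (c * (3 * (4 - r) / 4)) * (4 * (2 * r - 1) - k * C + 2)) -
      4 * (2 * r - 1) ^ 2 * D3_T2 k C h r s m (c * (3 * (4 - r) / 4)) +
      3 * (2 * r - 1) * D3_T2 k C h r s m (c * (3 * (4 - r) / 4)) +
      12 * s ^ 2 * r * (2 * r - 1) * c * (2 * k * C - 1) * D3_X k C h r := by
  unfold D3_T1 D3_T2 D3_U1 D3_X
  linear_combination (3/2*k*C^3*r*s - 9/2*k*C^3*r*c - 6*k*C^3*s + 18*k*C^3*c +
      27/2*k*C*h^2*r*s^2*c + 93/2*k*C*h^2*r*s - 54*k*C*h^2*s^2*c + 30*k*C*h^2*s - 12*k*C*r^3*s^2*c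
      - 6*k*C*r^2*s^2*c + 6*k*C*r*s^2*c + 36*C^4*r*c - 144*C^4*c - 12*C^2*h^2*r*s^2*c +
      48*C^2*h^2*s^2*c + 12*C^2*r^3*s^2*c + 15*C^2*r^2*s^2*c - 105*C^2*r^2*s + 36*C^2*r^2*c +
      195/2*C^2*r*s^2*c + 69/2*C^2*r*s - 162*C^2*r*c - 54*C^2*s^2*c + 30*C^2*s + 72*C^2*c -
      27*h^2*r^2*s^2*c - 93*h^2*r^2*s + 189/2*h^2*r*s^2*c - 213/2*h^2*r*s + 54*h^2*s^2*c -
      30*h^2*s + 6*r^3*s^2*c + 3*r^2*s^2*c - 3*r*s^2*c) * hk +
 (-12*k*C^3*r*s^2*c +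
      18*k*C^3*s^2*c + 99*k*C^3*s - 297*k*C^3*c + 12*k*C*h^2*r*s^2*c + 57*k*C*h^2*s^2*c -
      99*k*C*h^2*s - 24*k*C*r^2*s^2*c - 18*k*C*r*s^2*c + 12*k*C*r*s - 36*k*C*r*c - 87/2*k*C*s^2*c
      - 90*k*C*s + 531/2*k*C*c + 72*C^4*c - 24*C^2*h^2*s^2*c + 24*C^2*r^2*s^2*c + 36*C^2*r*s^2*c -
      210*C^2*r*s + 360*C^2*r*c + 234*C^2*s^2*c + 21*C^2*s - 1296*C^2*c - 60*h^2*r*s^2*c +
      198*h^2*r*s + 186*h^2*s^2*c - 21*h^2*s + 12*r^2*s^2*c + 6*r*s^2*c + 192*r*s - 144*r*c +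
      18*s^2*c - 24*s + 486*c) * hr +
 (-126*k*C^3*r*c + 84*k*C^3*c - 270*k*C*h^2*r*c +
      114*k*C*h^2*c - 339/4*k*C*r*c - 60*k*C*c + 96*C^2*h^2*r*c - 48*C^2*h^2*c + 15*C^2*r*c +
      444*C^2*c + 39*h^2*r*c + 348*h^2*c + 12*r*c + 36*c) * hs +
 (60*k*C*r*s - 810*k*C*r*c -
      198*k*C*s + 342*k*C*c + 288*C^2*r*c - 144*C^2*c + 336*r*s + 117*r*c - 42*s + 1044*c) * hC

private theorem D3_im (k C h r s m c : ℝ) (hk : k ^ 2 = 2 * r) (hr : r ^ 2 = 2) (hs : s ^ 2 = 3)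
    (hC : h ^ 2 = C ^ 2 - 1) :
    (2 * k * h * D3_T2 k C h r s m (c * (3 * (4 - r) / 4)) +
      (2 * k * C - 1) * D3_U2 k C h r s m (c * (3 * (4 - r) / 4))) * s * (2 * r - 1) =
    2 * s * k * h * (D3_T1 k C h r s m (c * (3 * (4 - r) / 4)) * s * k * h +
      D3_T2 k C h r s m (c * (3 * (4 - r) / 4)) * (4 * (2 * r - 1) - k * C + 2)) -
      3 * (2 * r - 1) * D3_T1 k C h r s m (c * (3 * (4 - r) / 4)) +
      12 * s ^ 2 * r * (2 * r - 1) * c * (2 * k * C - 1) * D3_Y k C h r s := by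
  unfold D3_T1 D3_T2 D3_U2 D3_Y
  linear_combination (3/2*k*C^2*h*r*s^2 - 9/2*k*C^2*h*r*s*c - 6*k*C^2*h*s^2 + 18*k*C^2*h*s*c +
      27/2*k*h^3*r*s^3*c + 93/2*k*h^3*r*s^2 - 54*k*h^3*s^3*c + 30*k*h^3*s^2 + 36*C^3*h*r*s*c -
      144*C^3*h*s*c - 24*C^2*r*s^2*m + 12*C^2*s^2*m - 12*C*h^3*r*s^3*c + 48*C*h^3*s^3*c +
      12*C*h*r^3*s^3*c - 6*C*h*r^2*s^3*c - 6*C*h*r^2*s^2 + 18*C*h*r^2*s*c + 24*C*h*r*s^2 -
      90*C*h*r*s*c + 72*C*h*s*c + 24*h^2*r*s^2*m - 12*h^2*s^2*m) * hk +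
 (-24*k*C^2*h*s^3*c +
      195*k*C^2*h*s^2 - 81*k*C^2*h*s*c + 27*k*h^3*s^3*c - 195*k*h^3*s^2 - 6*k*h*r*s^3*c +
      3*k*h*s^3*c - 291/2*k*h*s^2 + 72*k*h*s*c - 279/2*k*h + 72*C^3*h*s*c - 48*C^2*s^2*m -
      24*C*h^3*s^3*c + 24*C*h*r^2*s^3*c - 12*C*h*r*s^3*c - 12*C*h*r*s^2 + 36*C*h*r*s*c +
      60*C*h*s^3*c - 48*C*h*s^2 - 216*C*h*s*c + 144*C*h + 48*h^2*s^2*m + 144*m) * hr +

      (12*k*C^2*h*r*s*c - 108*k*C^2*h*r - 48*k*C^2*h*s*c + 390*k*C^2*h + 12*k*C*r*m - 6*k*C*m -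
      108*k*h^3*r*s*c + 108*k*h^3*r + 54*k*h^3*s*c - 390*k*h^3 - 12*k*h*r*s*c + 459/4*k*h*r +
      6*k*h*s*c - 312*k*h + 24*C^2*r*m - 96*C^2*m + 96*C*h^3*r*s*c - 48*C*h^3*s*c - 30*C*h*r*s*c +
      24*C*h*r + 120*C*h*s*c - 96*C*h - 24*h^2*r*m + 96*h^2*m) * hs +
 (-324*k*h*r*s*c + 324*k*h*r
      + 162*k*h*s*c - 1170*k*h + 288*C*h*r*s*c - 144*C*h*s*c - 72*r*m + 288*m) * hC

private theorem D3_r2 : Real.sqrt 2 ^ 2 = 2 := Real.sq_sqrt (by norm_num)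

private theorem D3_s2 : s3 ^ 2 = 3 := Real.sq_sqrt (by norm_num)

private theorem D3_s_pos : 0 < s3 := Real.sqrt_pos.mpr (by norm_num)

private theorem D3_qy (m : ℝ) : qy m =
    ⟨oS m / (9 * s3 * oK ^ 2) * D3_T1 kp (Real.cosh m) (Real.sinh m) (Real.sqrt 2) s3 m
        (oc * (3 * (4 - Real.sqrt 2) / 4)),
      oS m / (9 * s3 * oK ^ 2) * D3_T2 kp (Real.cosh m) (Real.sinh m) (Real.sqrt 2) s3 m
        (oc * (3 * (4 - Real.sqrt 2) / 4))⟩ := by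
  unfold qy
  apply Complex.ext
  · rw [Complex.re_ofReal_mul, add_re, Complex.re_ofReal_mul]
    rfl
  · rw [Complex.im_ofReal_mul, add_im, Complex.im_ofReal_mul]
    rfl

private theorem D3_mk {f g : ℝ → ℝ} {f' g' m : ℝ} (hf : HasDerivAt f f' m)
    (hg : HasDerivAt g g' m) : HasDerivAt (fun x => (⟨f x, g x⟩ : ℂ)) ⟨f', g'⟩ m := by
  have h := hf.ofReal_comp.add (hg.ofReal_comp.mul_const I)
  have e1 : (fun x => (⟨f x, g x⟩ : ℂ)) = fun x => ((f x : ℝ) : ℂ) + ((g x : ℝ) : ℂ) * I := by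
    funext x
    exact (Complex.mk_eq_add_mul_I (f x) (g x))
  have e2 : (⟨f', g'⟩ : ℂ) = (f' : ℂ) + (g' : ℂ) * I := Complex.mk_eq_add_mul_I f' g'
  rw [e1, e2]
  exact h

private theorem D3_dT1 (m l : ℝ) : HasDerivAt
    (fun m => D3_T1 kp (Real.cosh m) (Real.sinh m) (Real.sqrt 2) s3 m l)
    (D3_U1 kp (Real.cosh m) (Real.sinh m) (Real.sqrt 2) s3 m l) m := by
  have hs := Real.hasDerivAt_sinh m
  have hc := Real.hasDerivAt_cosh m
  have hi := hasDerivAt_id m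
  have e := ((((hs.const_mul kp).mul_const (-15 - 93 / 4 * Real.sqrt 2)).add
    ((hs.const_mul (24 * Real.sqrt 2)).mul hc)).add
    (hi.mul ((hasDerivAt_const m (24 * Real.sqrt 2)).sub (hc.const_mul (6 * kp))))).add
    (((((hasDerivAt_const m (9 * kp)).sub (hc.const_mul 8)).const_mul s3).mul hs).const_mul l)
  refine HasDerivAt.congr_deriv (f := fun m => D3_T1 kp (Real.cosh m) (Real.sinh m)
    (Real.sqrt 2) s3 m l) e ?_
  unfold D3_U1
  simp only [Pi.sub_apply, id]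
  ring

private theorem D3_dT2 (m l : ℝ) : HasDerivAt
    (fun m => D3_T2 kp (Real.cosh m) (Real.sinh m) (Real.sqrt 2) s3 m l)
    (D3_U2 kp (Real.cosh m) (Real.sinh m) (Real.sqrt 2) s3 m l) m := by
  have hs := Real.hasDerivAt_sinh m
  have hc := Real.hasDerivAt_cosh m
  have hi := hasDerivAt_id m
  have e := ((((((hasDerivAt_const m (12 * Real.sqrt 2 - 6)).sub
    (hc.const_mul ((3 - 3 / 4 * Real.sqrt 2) * kp))).add
    ((hs.pow 2).const_mul (24 * Real.sqrt 2))).sub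
    (((hi.const_mul 6).mul_const kp).mul hs)).const_mul s3)).add
    ((((((hc.const_mul kp).sub ((hc.pow 2).const_mul 8)).add_const 4)).const_mul 3).const_mul l)
  refine HasDerivAt.congr_deriv (f := fun m => D3_T2 kp (Real.cosh m) (Real.sinh m)
    (Real.sqrt 2) s3 m l) e ?_
  unfold D3_U2
  simp only [id]
  ring

private theorem D3_dS (m : ℝ) : HasDerivAt oS (2 * kp * Real.sinh m) m :=
  ((Real.hasDerivAt_cosh m).const_mul (2 * kp)).sub_const 1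

private theorem D3_dqy (m : ℝ) : HasDerivAt qy
    ⟨(2 * kp * Real.sinh m * D3_T1 kp (Real.cosh m) (Real.sinh m) (Real.sqrt 2) s3 m
        (oc * (3 * (4 - Real.sqrt 2) / 4)) +
      oS m * D3_U1 kp (Real.cosh m) (Real.sinh m) (Real.sqrt 2) s3 m
        (oc * (3 * (4 - Real.sqrt 2) / 4))) / (9 * s3 * oK ^ 2),
      (2 * kp * Real.sinh m * D3_T2 kp (Real.cosh m) (Real.sinh m) (Real.sqrt 2) s3 m
        (oc * (3 * (4 - Real.sqrt 2) / 4)) +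
      oS m * D3_U2 kp (Real.cosh m) (Real.sinh m) (Real.sqrt 2) s3 m
        (oc * (3 * (4 - Real.sqrt 2) / 4))) / (9 * s3 * oK ^ 2)⟩ m := by
  have h0 : qy = fun m => (⟨oS m / (9 * s3 * oK ^ 2) *
      D3_T1 kp (Real.cosh m) (Real.sinh m) (Real.sqrt 2) s3 m
        (oc * (3 * (4 - Real.sqrt 2) / 4)),
      oS m / (9 * s3 * oK ^ 2) * D3_T2 kp (Real.cosh m) (Real.sinh m) (Real.sqrt 2) s3 m
        (oc * (3 * (4 - Real.sqrt 2) / 4))⟩ : ℂ) := funext D3_qy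
  rw [h0]
  refine D3_mk ?_ ?_
  · refine (((D3_dS m).div_const (9 * s3 * oK ^ 2)).mul (D3_dT1 m _)).congr_deriv ?_
    ring
  · refine (((D3_dS m).div_const (9 * s3 * oK ^ 2)).mul (D3_dT2 m _)).congr_deriv ?_
    ring

private theorem D3_DVT (y q : ℂ) (w d : ℝ) (hw : 1 - normSq y = w) (hd : 1 - 2 * y.re = d) :
    DVT y q = ⟨-2 * y.re * (q.re * y.im + q.im * (2 * w / d - y.re) + 2 * w / d * q.im) +
        4 * w ^ 2 / d ^ 2 * q.im - w * q.im,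
      -2 * y.im * (q.re * y.im + q.im * (2 * w / d - y.re) + 2 * w / d * q.im) + w * q.re⟩ := by
  unfold DVT dt
  rw [hw, hd]
  apply Complex.ext
  · simp only [add_re, mul_re, mul_im, neg_re, neg_im, sub_re, sub_im, ofReal_re, ofReal_im, I_re,
      I_im, re_ofNat, im_ofNat]
    ring
  · simp only [add_im, mul_re, mul_im, neg_re, neg_im, sub_re, sub_im, ofReal_re, ofReal_im, I_re,
      I_im, re_ofNat, im_ofNat]
    ring

private theorem D3_trig : cA * cB + sA * sB = s3 / 2 := by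
  have h : 5 * Real.pi / 24 - Real.pi / 24 = Real.pi / 6 := by ring
  unfold cA cB sA sB s3
  rw [← Real.cos_sub, h, Real.cos_pi_div_six]

private theorem D3_trig1 : cA * cB - sA * sB = Real.sqrt 2 / 2 := by
  have h : 5 * Real.pi / 24 + Real.pi / 24 = Real.pi / 4 := by ring
  unfold cA cB sA sB
  rw [← Real.cos_add, h, Real.cos_pi_div_four]

private theorem D3_trig2 : sA * cB + cA * sB = Real.sqrt 2 / 2 := by
  have h : 5 * Real.pi / 24 + Real.pi / 24 = Real.pi / 4 := by ring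
  unfold cA cB sA sB
  rw [← Real.sin_add, h, Real.sin_pi_div_four]

private theorem D3_trig3 : sA * cB - cA * sB = 1 / 2 := by
  have h : 5 * Real.pi / 24 - Real.pi / 24 = Real.pi / 6 := by ring
  unfold cA cB sA sB
  rw [← Real.sin_sub, h, Real.sin_pi_div_six]

private theorem D3_oC : oC ^ 2 = 2 * Real.sqrt 2 * s3 / (3 * oK) := by
  have h := oC_sq
  have hK := oK_pos
  rw [← oK_eq] at h
  rw [eq_div_iff (by positivity)]
  linear_combination 2 * Real.sqrt 2 * s3 * h - oC ^ 2 * oK * s3 ^ 2 / 2 * D3_r2 -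
    oC ^ 2 * oK * D3_s2

private theorem D3_ba (m : ℝ) : ob m * (starRingEnd ℂ) (oa m) =
    ⟨2 * Real.sqrt 2 * s3 / (3 * oK) * D3_X kp (Real.cosh m) (Real.sinh m) (Real.sqrt 2),
      2 * Real.sqrt 2 * s3 / (3 * oK) *
        D3_Y kp (Real.cosh m) (Real.sinh m) (Real.sqrt 2) s3⟩ := by
  have h1 := D3_trig
  have h2 := D3_trig1
  have h3 := D3_trig2
  have h4 := D3_trig3
  have h5 : sA ^ 2 + cA ^ 2 = 1 := Real.sin_sq_add_cos_sq _
  have h6 : sB ^ 2 + cB ^ 2 = 1 := Real.sin_sq_add_cos_sq _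
  rw [← D3_oC]
  unfold D3_X D3_Y
  have e1 : cB ^ 2 + sA ^ 2 = 1 + Real.sqrt 2 / 4 := by
    have h34 : (sA * cB + cA * sB) * (sA * cB - cA * sB) = Real.sqrt 2 / 2 * (1 / 2) := by
      rw [h3, h4]
    linear_combination h6 + h34 - sA ^ 2 * h6 + sB ^ 2 * h5
  have e2 : sA * cA + sB * cB = s3 / 2 * (Real.sqrt 2 / 2) := by
    have h13 : (cA * cB + sA * sB) * (sA * cB + cA * sB) = s3 / 2 * (Real.sqrt 2 / 2) := by
      rw [h1, h3]
    linear_combination h13 - sA * cA * h6 - sB * cB * h5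
  apply Complex.ext
  · rw [mul_re, conj_re, conj_im]
    show -(oC * (Real.sinh m * sB)) * (oC * (Real.sinh m * cA)) -
      oC * (Real.cosh m * cB - kp * sA) * -(oC * (Real.cosh m * sA - kp * cB)) = oC ^ 2 * _
    linear_combination oC ^ 2 * (-Real.sinh m ^ 2 * (h3 - h4) / 2 +
      (Real.cosh m ^ 2 + kp ^ 2) * (h3 + h4) / 2 - kp * Real.cosh m * e1)
  · rw [mul_im, conj_re, conj_im]
    show -(oC * (Real.sinh m * sB)) * -(oC * (Real.cosh m * sA - kp * cB)) +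
      oC * (Real.cosh m * cB - kp * sA) * (oC * (Real.sinh m * cA)) = oC ^ 2 * _
    linear_combination oC ^ 2 * Real.sinh m * (Real.cosh m * h1 - kp * e2)

private theorem D3_fin_re (S K s k C h T1 T2 U1 X c r : ℝ) (hS : S ≠ 0) (hK : K ≠ 0)
    (hs : s ≠ 0) (e : (2 * k * h * T1 + S * U1) * s * K =
      2 * (k * C - 2) * (T1 * s * k * h + T2 * (4 * K - k * C + 2)) - 4 * K ^ 2 * T2 +
        3 * K * T2 + 12 * s ^ 2 * r * K * c * S * X) :
    (2 * k * h * T1 + S * U1) / (9 * s * K ^ 2) =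
      S / (s * K) * (-(-2 * ((k * C - 2) / S) * (S / (9 * s * K ^ 2) * T1 * (s * k * h / S) +
        S / (9 * s * K ^ 2) * T2 * (2 * (3 * K / S ^ 2) / (3 / S) - (k * C - 2) / S) +
          2 * (3 * K / S ^ 2) / (3 / S) * (S / (9 * s * K ^ 2) * T2)) +
        4 * (3 * K / S ^ 2) ^ 2 / (3 / S) ^ 2 * (S / (9 * s * K ^ 2) * T2) -
          3 * K / S ^ 2 * (S / (9 * s * K ^ 2) * T2)) +
        2 * c * (2 * r * s / (3 * K) * X)) := by
  have hL : (2 * k * h * T1 + S * U1) / (9 * s * K ^ 2) =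
      ((2 * k * h * T1 + S * U1) * s * K) / (9 * s ^ 2 * K ^ 3) := by
    field_simp
  rw [hL, e]
  field_simp
  ring

private theorem D3_fin_im (S K s k C h T1 T2 U2 Y c r : ℝ) (hS : S ≠ 0) (hK : K ≠ 0)
    (hs : s ≠ 0) (e : (2 * k * h * T2 + S * U2) * s * K =
      2 * s * k * h * (T1 * s * k * h + T2 * (4 * K - k * C + 2)) - 3 * K * T1 +
        12 * s ^ 2 * r * K * c * S * Y) :
    (2 * k * h * T2 + S * U2) / (9 * s * K ^ 2) =
      S / (s * K) * (-(-2 * (s * k * h / S) * (S / (9 * s * K ^ 2) * T1 * (s * k * h / S) +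
        S / (9 * s * K ^ 2) * T2 * (2 * (3 * K / S ^ 2) / (3 / S) - (k * C - 2) / S) +
          2 * (3 * K / S ^ 2) / (3 / S) * (S / (9 * s * K ^ 2) * T2)) +
        3 * K / S ^ 2 * (S / (9 * s * K ^ 2) * T1)) +
        2 * c * (2 * r * s / (3 * K) * Y)) := by
  have hL : (2 * k * h * T2 + S * U2) / (9 * s * K ^ 2) =
      ((2 * k * h * T2 + S * U2) * s * K) / (9 * s ^ 2 * K ^ 3) := by
    field_simp
  rw [hL, e]
  field_simp
  ring

theorem qy_hasDerivAt (m : ℝ) : HasDerivAt qy (qd m) m := by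
  have h0 := D3_dqy m
  have hk := kp_sq
  have hC : Real.sinh m ^ 2 = Real.cosh m ^ 2 - 1 := by
    have := Real.cosh_sq_sub_sinh_sq m
    linarith
  have hS : oS m ≠ 0 := by
    have := oS_gt m
    linarith
  have hK : oK ≠ 0 := oK_pos.ne'
  have hs : s3 ≠ 0 := D3_s_pos.ne'
  have hR : ((2 * oc * oR m : ℝ) : ℂ) * ov m =
      -(((2 * oc : ℝ) : ℂ) * (ob m * (starRingEnd ℂ) (oa m))) := by
    have := oR_mul_ov m
    push_cast
    linear_combination (2 * (oc : ℂ)) * this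
  have hre : (qy m).re = oS m / (9 * s3 * oK ^ 2) *
      D3_T1 kp (Real.cosh m) (Real.sinh m) (Real.sqrt 2) s3 m
        (oc * (3 * (4 - Real.sqrt 2) / 4)) := by rw [D3_qy]
  have him : (qy m).im = oS m / (9 * s3 * oK ^ 2) *
      D3_T2 kp (Real.cosh m) (Real.sinh m) (Real.sqrt 2) s3 m
        (oc * (3 * (4 - Real.sqrt 2) / 4)) := by rw [D3_qy]
  have hyre : (oy m).re = (kp * Real.cosh m - 2) / oS m := rfl
  have hyim : (oy m).im = s3 * kp * Real.sinh m / oS m := rfl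
  have e1 := D3_fin_re (oS m) oK s3 kp (Real.cosh m) (Real.sinh m) _ _ _ _ oc (Real.sqrt 2)
    hS hK hs (D3_re kp (Real.cosh m) (Real.sinh m) (Real.sqrt 2) s3 m oc hk D3_r2 D3_s2 hC)
  have e2 := D3_fin_im (oS m) oK s3 kp (Real.cosh m) (Real.sinh m) _ _ _ _ oc (Real.sqrt 2)
    hS hK hs (D3_im kp (Real.cosh m) (Real.sinh m) (Real.sqrt 2) s3 m oc hk D3_r2 D3_s2 hC)
  refine h0.congr_deriv ?_
  unfold qd
  rw [hR, D3_ba, D3_DVT _ _ _ _ (oy_w m) (oy_d0 m), otau'_eq, hre, him, hyre, hyim]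
  apply Complex.ext
  · rw [Complex.re_ofReal_mul, sub_re, neg_re, neg_re, Complex.re_ofReal_mul, sub_neg_eq_add]
    exact e1
  · rw [Complex.im_ofReal_mul, sub_im, neg_im, neg_im, Complex.im_ofReal_mul, sub_neg_eq_add]
    exact e2

end Pool.H61.Rh
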