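import Pool.Agent.H61.Re.D4
import Pool.Agent.H61.Re.D3

/-! # D6: the derivative of the calibration function

Compute `HasFDerivAt` (or: `d.W` is differentiable (`C¹`: `D5.lean` gives `VD.W_smooth`; it may
also be proved here), and the derivative in the direction `(σ, η, ζ)` is the derivative at `t = 0`
of `t ↦ W (m + t σ, y + t η, v + t ζ)`, which is computed with `HasDerivAt` rules for explicit
functions: `qy_hasDerivAt`, `oy_hasDerivAt'`, `ov_hasDerivAt`, `Cf.hasDerivAt`).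
With `x = y - y*`, `u = v - v*`, `x' = η - σ yd m`, `u' = ζ - σ vd m`:
`(q·x)' = σ q'·x + q·x'`, `(VA c x)' = σ VA c' x + dt (VAx c x) x'`,
`(VB c x)' = σ VB c' x + VBd c x x'` (`VBd` is linear in `h`). -/

set_option autoImplicit false

namespace Pool.H61.Rh

open Complex

/-! ### rules for curves -/

private lemma D6_conj {f : ℝ → ℂ} {f' : ℂ} {t : ℝ} (h : HasDerivAt f f' t) :
    HasDerivAt (fun s => (starRingEnd ℂ) (f s)) ((starRingEnd ℂ) f') t :=
  (conjCLE.toContinuousLinearMap.hasFDerivAt (x := f t)).comp_hasDerivAt t h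

private lemma D6_re {f : ℝ → ℂ} {f' : ℂ} {t : ℝ} (h : HasDerivAt f f' t) :
    HasDerivAt (fun s => (f s).re) f'.re t :=
  (reCLM.hasFDerivAt (x := f t)).comp_hasDerivAt t h

private lemma D6_im {f : ℝ → ℂ} {f' : ℂ} {t : ℝ} (h : HasDerivAt f f' t) :
    HasDerivAt (fun s => (f s).im) f'.im t :=
  (imCLM.hasFDerivAt (x := f t)).comp_hasDerivAt t h

private lemma D6_dt {f g : ℝ → ℂ} {f' g' : ℂ} {t : ℝ} (hf : HasDerivAt f f' t)
    (hg : HasDerivAt g g' t) :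
    HasDerivAt (fun s => dt (f s) (g s)) (dt f' (g t) + dt (f t) g') t := by
  have h := ((D6_re hf).mul (D6_re hg)).add ((D6_im hf).mul (D6_im hg))
  refine h.congr_deriv ?_
  unfold dt
  ring

private lemma D6_normSq {f : ℝ → ℂ} {f' : ℂ} {t : ℝ} (hf : HasDerivAt f f' t) :
    HasDerivAt (fun s => ((normSq (f s) : ℝ) : ℂ)) ((2 * dt (f t) f' : ℝ) : ℂ) t := by
  have h := (D6_dt hf hf).ofReal_comp
  have e : (fun s => ((normSq (f s) : ℝ) : ℂ)) = fun s => ((dt (f s) (f s) : ℝ) : ℂ) := by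
    funext s
    rw [normSq_apply]
    rfl
  rw [e]
  refine h.congr_deriv ?_
  congr 1
  unfold dt
  ring

/-! ### differentiability -/

private lemma D6_dconj {f : ℝ × ℂ × ℂ → ℂ} {p : ℝ × ℂ × ℂ} (h : DifferentiableAt ℝ f p) :
    DifferentiableAt ℝ (fun s => (starRingEnd ℂ) (f s)) p :=
  (conjCLE.toContinuousLinearMap.differentiableAt (x := f p)).comp p h

private lemma D6_dre {f : ℝ × ℂ × ℂ → ℂ} {p : ℝ × ℂ × ℂ} (h : DifferentiableAt ℝ f p) :
    DifferentiableAt ℝ (fun s => (f s).re) p :=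
  (reCLM.differentiableAt (x := f p)).comp p h

private lemma D6_dim {f : ℝ × ℂ × ℂ → ℂ} {p : ℝ × ℂ × ℂ} (h : DifferentiableAt ℝ f p) :
    DifferentiableAt ℝ (fun s => (f s).im) p :=
  (imCLM.differentiableAt (x := f p)).comp p h

private lemma D6_dof {f : ℝ × ℂ × ℂ → ℝ} {p : ℝ × ℂ × ℂ} (h : DifferentiableAt ℝ f p) :
    DifferentiableAt ℝ (fun s => (f s : ℂ)) p :=
  (ofRealCLM.differentiableAt (x := f p)).comp p h

private lemma D6_ddt {f g : ℝ × ℂ × ℂ → ℂ} {p : ℝ × ℂ × ℂ} (hf : DifferentiableAt ℝ f p)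
    (hg : DifferentiableAt ℝ g p) : DifferentiableAt ℝ (fun s => dt (f s) (g s)) p :=
  ((D6_dre hf).mul (D6_dre hg)).add ((D6_dim hf).mul (D6_dim hg))

private lemma D6_dnormSq {f : ℝ × ℂ × ℂ → ℂ} {p : ℝ × ℂ × ℂ} (hf : DifferentiableAt ℝ f p) :
    DifferentiableAt ℝ (fun s => ((normSq (f s) : ℝ) : ℂ)) p := by
  have e : (fun s => ((normSq (f s) : ℝ) : ℂ)) = fun s => ((dt (f s) (f s) : ℝ) : ℂ) := by
    funext s
    rw [normSq_apply]
    rfl
  rw [e]
  exact D6_dof (D6_ddt hf hf)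

private lemma D6_dfst {f : ℝ → ℂ} {p : ℝ × ℂ × ℂ} (h : DifferentiableAt ℝ f p.1) :
    DifferentiableAt ℝ (fun s : ℝ × ℂ × ℂ => f s.1) p :=
  DifferentiableAt.comp p h differentiableAt_fst

private lemma D6_dev (c : Cf) (p : ℝ × ℂ × ℂ) :
    DifferentiableAt ℝ (fun s : ℝ × ℂ × ℂ => c.ev s.1) p :=
  D6_dfst (c.hasDerivAt p.1).differentiableAt

private lemma D6_diff (d : VD) (p : ℝ × ℂ × ℂ) : DifferentiableAt ℝ d.W p := by
  have hx : DifferentiableAt ℝ (fun s : ℝ × ℂ × ℂ => s.2.1 - oy s.1) p :=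
    (differentiableAt_fst.comp p differentiableAt_snd).sub
      (D6_dfst (oy_hasDerivAt' p.1).differentiableAt)
  have hu : DifferentiableAt ℝ (fun s : ℝ × ℂ × ℂ => s.2.2 - ov s.1) p :=
    (differentiableAt_snd.comp p differentiableAt_snd).sub
      (D6_dfst (ov_hasDerivAt p.1).differentiableAt)
  have hq : DifferentiableAt ℝ (fun s : ℝ × ℂ × ℂ => qy s.1 + d.ae s.1) p :=
    (D6_dfst (qy_hasDerivAt p.1).differentiableAt).add
      ((differentiableAt_const I).mul (D6_dconj (D6_dev d.ax p)))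
  have hA : DifferentiableAt ℝ (fun s : ℝ × ℂ × ℂ => VA (d.ev s.1) (s.2.1 - oy s.1)) p :=
    D6_dim ((((D6_dev d.xx p).mul (hx.pow 2)).add ((D6_dev d.xb p).mul (D6_dnormSq hx))).add
      ((D6_dev d.x3 p).mul (hx.pow 3)) |>.add ((D6_dev d.x2b p).mul ((D6_dnormSq hx).mul hx)))
  have hB : DifferentiableAt ℝ (fun s : ℝ × ℂ × ℂ => VB (d.ev s.1) (s.2.1 - oy s.1)) p :=
    ((differentiableAt_const I).mul (D6_dconj (((D6_dev d.xu p).mul hx).add
      ((D6_dev d.x2u p).mul (hx.pow 2)) |>.add ((D6_dev d.xbu p).mul (D6_dnormSq hx))))).sub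
      ((differentiableAt_const I).mul (((D6_dev d.xc p).mul hx).add
        ((D6_dev d.x2c p).mul (hx.pow 2))))
  have hb : DifferentiableAt ℝ (fun s : ℝ × ℂ × ℂ => d.bt s.1 (s.2.1 - oy s.1)) p :=
    (((differentiableAt_const _).mul ((differentiableAt_const I).mul
      (D6_dfst (ov_hasDerivAt p.1).differentiableAt))).neg.add
      ((differentiableAt_const I).mul (D6_dconj (D6_dev d.bu p)))).add hB
  exact ((D6_ddt hq hx).add hA).add (D6_ddt hb hu)

/-! ### the derivative along a line -/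

private lemma D6_scale {f : ℝ → ℂ} {f' : ℂ} {m : ℝ} (σ : ℝ) (h : HasDerivAt f f' m) :
    HasDerivAt (fun t : ℝ => f (m + t * σ)) ((σ : ℂ) * f') 0 := by
  have h1 : HasDerivAt (fun t : ℝ => m + t * σ) σ 0 := by
    have := ((hasDerivAt_id (0 : ℝ)).mul_const σ).const_add m
    simpa using this
  have h2 : HasDerivAt f f' (m + 0 * σ) := by
    rw [zero_mul, add_zero]
    exact h
  have h3 := HasDerivAt.scomp (0 : ℝ) h2 h1
  rw [real_smul] at h3
  exact h3

private lemma D6_VA (d : VD) {m σ : ℝ} {x : ℝ → ℂ} {x' : ℂ} (hx : HasDerivAt x x' 0) :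
    HasDerivAt (fun t : ℝ => VA (d.ev (m + t * σ)) (x t))
      (σ * VA (d.dv m) (x 0) + dt (VAx (d.ev m) (x 0)) x') 0 := by
  have h1 := D6_scale σ (d.xx.hasDerivAt m)
  have h2 := D6_scale σ (d.xb.hasDerivAt m)
  have h3 := D6_scale σ (d.x3.hasDerivAt m)
  have h4 := D6_scale σ (d.x2b.hasDerivAt m)
  have hn := D6_normSq hx
  have h := D6_im ((((h1.mul (hx.pow 2)).add (h2.mul hn)).add (h3.mul (hx.pow 3))).add
    (h4.mul (hn.mul hx)))
  refine h.congr_deriv ?_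
  simp only [Pi.pow_apply, Pi.mul_apply, zero_mul, add_zero]
  show _ = σ * (d.xx.dv m * x 0 ^ 2 + d.xb.dv m * (normSq (x 0) : ℂ) + d.x3.dv m * x 0 ^ 3 +
      d.x2b.dv m * ((normSq (x 0) : ℂ) * x 0)).im +
    dt (I * (starRingEnd ℂ) (2 * d.xx.ev m * x 0 + 3 * d.x3.ev m * x 0 ^ 2 +
      2 * d.x2b.ev m * (normSq (x 0) : ℂ)) + ((2 * (d.xb.ev m).im : ℝ) : ℂ) * x 0 -
      I * (d.x2b.ev m * x 0 ^ 2)) x'
  generalize x 0 = X
  generalize d.xx.ev m = a1
  generalize d.xb.ev m = a2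
  generalize d.x3.ev m = a3
  generalize d.x2b.ev m = a4
  generalize d.xx.dv m = b1
  generalize d.xb.dv m = b2
  generalize d.x3.dv m = b3
  generalize d.x2b.dv m = b4
  obtain ⟨X1, X2⟩ := X
  obtain ⟨Y1, Y2⟩ := x'
  obtain ⟨a11, a12⟩ := a1
  obtain ⟨a21, a22⟩ := a2
  obtain ⟨a31, a32⟩ := a3
  obtain ⟨a41, a42⟩ := a4
  obtain ⟨b11, b12⟩ := b1
  obtain ⟨b21, b22⟩ := b2
  obtain ⟨b31, b32⟩ := b3
  obtain ⟨b41, b42⟩ := b4
  simp [dt, normSq_apply, pow_succ]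
  ring

private lemma D6_VB (d : VD) {m σ : ℝ} {x : ℝ → ℂ} {x' : ℂ} (hx : HasDerivAt x x' 0) :
    HasDerivAt (fun t : ℝ => VB (d.ev (m + t * σ)) (x t))
      ((σ : ℂ) * VB (d.dv m) (x 0) + VBd (d.ev m) (x 0) x') 0 := by
  have h1 := D6_scale σ (d.xu.hasDerivAt m)
  have h2 := D6_scale σ (d.x2u.hasDerivAt m)
  have h3 := D6_scale σ (d.xbu.hasDerivAt m)
  have h4 := D6_scale σ (d.xc.hasDerivAt m)
  have h5 := D6_scale σ (d.x2c.hasDerivAt m)
  have hn := D6_normSq hx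
  have h := ((D6_conj (((h1.mul hx).add (h2.mul (hx.pow 2))).add (h3.mul hn))).const_mul I).sub
    (((h4.mul hx).add (h5.mul (hx.pow 2))).const_mul I)
  refine h.congr_deriv ?_
  simp only [Pi.pow_apply, zero_mul, add_zero]
  show _ = (σ : ℂ) * (I * (starRingEnd ℂ) (d.xu.dv m * x 0 + d.x2u.dv m * x 0 ^ 2 +
      d.xbu.dv m * (normSq (x 0) : ℂ)) - I * (d.xc.dv m * x 0 + d.x2c.dv m * x 0 ^ 2)) +
    (I * (starRingEnd ℂ) (d.xu.ev m * x' + 2 * d.x2u.ev m * x 0 * x' +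
      d.xbu.ev m * ((2 * dt (x 0) x' : ℝ) : ℂ)) -
      I * (d.xc.ev m * x' + 2 * d.x2c.ev m * x 0 * x'))
  simp only [map_add, map_mul, map_pow, conj_ofReal]
  push_cast
  simp only [map_ofNat]
  ring

private lemma D6_VBd_sub (c : VC) (x h k : ℂ) (σ : ℝ) :
    VBd c x (h - (σ : ℂ) * k) = VBd c x h - (σ : ℂ) * VBd c x k := by
  unfold VBd
  have e : dt x (h - (σ : ℂ) * k) = dt x h - σ * dt x k := by
    unfold dt
    rw [sub_re, sub_im, re_ofReal_mul, im_ofReal_mul]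
    ring
  rw [e]
  simp only [map_add, map_mul, map_sub, conj_ofReal, ofReal_sub, ofReal_mul, ofReal_ofNat,
    map_ofNat]
  ring

theorem VD.W_fderiv (d : VD) (m : ℝ) (y v : ℂ) (σ : ℝ) (η ζ : ℂ) :
    fderiv ℝ d.W (m, y, v) (σ, η, ζ) =
      σ * (d.Am m (y - oy m) + dt (d.btm m (y - oy m)) (v - ov m) - dt (d.bt m (y - oy m)) (vd m))
      + dt (d.at m (y - oy m)) η + dt (VBd (d.ev m) (y - oy m) η) (v - ov m)
      + dt (d.bt m (y - oy m)) ζ := by
  -- the line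
  have hl : HasDerivAt (fun t : ℝ => ((m + t * σ, y + (t : ℂ) * η, v + (t : ℂ) * ζ) : ℝ × ℂ × ℂ))
      (σ, η, ζ) 0 := by
    have h1 : HasDerivAt (fun t : ℝ => m + t * σ) σ 0 := by
      have := ((hasDerivAt_id (0 : ℝ)).mul_const σ).const_add m
      simpa using this
    have h2 : ∀ z w : ℂ, HasDerivAt (fun t : ℝ => z + (t : ℂ) * w) w 0 := by
      intro z w
      have := ((hasDerivAt_id (0 : ℝ)).ofReal_comp.mul_const w).const_add z
      simpa using this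
    exact h1.prodMk ((h2 y η).prodMk (h2 v ζ))
  have hp : (((m + (0 : ℝ) * σ, y + ((0 : ℝ) : ℂ) * η, v + ((0 : ℝ) : ℂ) * ζ)) : ℝ × ℂ × ℂ) =
      (m, y, v) := by simp
  have hF : HasFDerivAt d.W (fderiv ℝ d.W (m, y, v))
      ((m + (0 : ℝ) * σ, y + ((0 : ℝ) : ℂ) * η, v + ((0 : ℝ) : ℂ) * ζ) : ℝ × ℂ × ℂ) := by
    rw [hp]
    exact (D6_diff d _).hasFDerivAt
  have hW1 := hF.comp_hasDerivAt (0 : ℝ) hl
  -- the explicit computation
  have h2 : ∀ z w : ℂ, HasDerivAt (fun t : ℝ => z + (t : ℂ) * w) w 0 := by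
    intro z w
    have := ((hasDerivAt_id (0 : ℝ)).ofReal_comp.mul_const w).const_add z
    simpa using this
  have hx := (h2 y η).sub (D6_scale σ (oy_hasDerivAt' m))
  have hu := (h2 v ζ).sub (D6_scale σ (ov_hasDerivAt m))
  have hq := (D6_scale σ (qy_hasDerivAt m)).add
    ((D6_conj (D6_scale σ (d.ax.hasDerivAt m))).const_mul I)
  have hA := D6_VA d (m := m) (σ := σ) hx
  have hB := D6_VB d (m := m) (σ := σ) hx
  have hb := (((D6_scale σ (ov_hasDerivAt m)).const_mul I).const_mul ((1 + oc : ℝ) : ℂ)).neg.add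
    ((D6_conj (D6_scale σ (d.bu.hasDerivAt m))).const_mul I) |>.add hB
  have hW2 := ((D6_dt hq hx).add hA).add (D6_dt hb hu)
  have e := hW1.unique hW2
  rw [e]
  simp only [Pi.add_apply, Pi.sub_apply, Pi.neg_apply, ofReal_zero, zero_mul, add_zero]
  rw [D6_VBd_sub, map_mul, map_mul, conj_ofReal]
  unfold VD.Am VD.btm VD.at VD.bt VD.ae VD.aed VD.be VD.bed
  generalize y - oy m = x
  generalize v - ov m = u
  generalize (starRingEnd ℂ) (d.ax.dv m) = a1
  generalize (starRingEnd ℂ) (d.ax.ev m) = a2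
  generalize (starRingEnd ℂ) (d.bu.dv m) = a3
  generalize (starRingEnd ℂ) (d.bu.ev m) = a4
  generalize VAx (d.ev m) x = a5
  generalize VB (d.dv m) x = a6
  generalize VB (d.ev m) x = a7
  generalize VBd (d.ev m) x η = a8
  generalize VBd (d.ev m) x (yd m) = a9
  generalize VA (d.dv m) x = a10
  generalize vd m = a11
  generalize yd m = a12
  generalize qd m = a13
  generalize qy m = a14
  generalize ov m = a15
  generalize 1 + oc = a16
  simp only [dt, add_re, add_im, sub_re, sub_im, neg_re, neg_im, re_ofReal_mul, im_ofReal_mul,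
    I_mul_re, I_mul_im]
  ring

end Pool.H61.Rh
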