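import Pool.Agent.H61.Re.F1

/-! # F2: the flat formula for the gradient at `v*`

Notation of `F1.lean`; `k = y·n*`, `f_v = (y - k n*)/ρ* = fv y`, `Δ = bp y v* - b* = -i M/f`
(`pt_M_eq`).
(1) `DbT X = -(1/f) ZT y X`-like: put `w = X`: `f DbT X = (iX·y) n* - k iX - (iX·Z) f_v`,
`Z = v* + (ρ* y - k v*)/f = v* + i bp y v*` (as `f bp = -i (ρ* y - k v*)`), and
`ZT y X = (X·(-iy)) n* + (X·(i v* - b*)) f_v - k iX`.  `iX·y = X·(-iy)`,
`-(iX·Z) = X·(iZ) = X·(i v* - bp)`, so `f DbT X = ZT y X - (X·Δ) f_v`.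
(2) `X = β + Δ/6`: `f DbT X = ZT y β + ZT y Δ/6 - (β·Δ) f_v - |Δ|² f_v/6`,
`Δ = -iM/f`: `ZT` linear in the second argument: `ZT y Δ = -ZT y (iM)/f`, `|Δ|² = |M|²/f²`,
`β·Δ = -β·(iM)/f`.
(3) so `f³ g = f³(-2i b* + μ conj e8 - btm/osd - 2iβ) - f² (i/2)(f Δ) - f² VBd η + f (at·η) f_v
  - f² ZT y β + f ZT y (iM)/6 - f (β·(iM)) f_v + |M|² f_v/6`,
with `-(i/2) f Δ = -(1/2) M`...: sign: `fΔ = -iM`, `-(i/2)(-iM) = -(1/2) M`.
(4) exact part of `β`: `β0 = -(1+c) i v*`.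
 `btm/osd = -(1+c) i vd/osd + bed/osd + VB cs x - VBd c x V*/f*`, `vd/osd = b* - 2i v*`.
 `-2i b* + (1+c) i (b* - 2i v*) - 2i β0 = -2i b* + (1+c) i b* + 2(1+c) v* - 2(1+c) v*
   = i (c - 1) b*`.
 `ZT y β0 = -(1+c) ZT y (i v*)`, and `ZT y (i v*) = -(v*·y) n* + (...) f_v + k v*` with
 `(i v*)·(i v* - b*) = |v*|² - (i v*)·b* = |v*|² + v*·(i b*) = ρ*² - 1 + (f* - 1)/f*`
 (`i b* f* = ρ* y* - (y*·n*) v*`; `v*·(i b*) = (f*-1)/f*`, see `F1.lean`), `v*·y = ρ* k`,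
 `v* = ρ* n*`: `-(ρ* k) n* + k ρ* n* = 0`, so `ZT y (i v*) = (ρ*² - 1/f*) f_v`.
(5) `M` exactly: `M = ρ* x - e1 (ρ* n* + i b*)`; also `f i b* = i b* (f* + e1)`, and
 `ρ* y - k v* = ρ*² f_v`, `ρ* y* - k* v* = f* i b*`; hence `f i b* = ρ*² f_v - M`
 (this is `f (bp - b*) = -iM` with `f bp = -i ρ*² f_v`).
 So the exact part `f³ i(c-1) b* - (1/2) f² M + f²(1+c)(ρ*² - 1/f*) f_v + f (q·η) f_v + ...`
 `= f² [ (c-1)(ρ*² f_v - M) - M/2 + (1+c)(ρ*² - 1/f*) f_v ] + f (q·η) f_v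
  = f² [ (1/2 - c) M + (2 c ρ*² - (1+c)/f*) f_v ] + f (q·η) f_v`.
(6) In `Gh` the term `-f X f_v` contributes
 `f a·(η - V* - DV x) f_v + f e1 (sa·x) f_v + f² VA cs x f_v + f (VAx·(η - (f/f*)V*)) f_v
  - f (B·iM) f_v`, and `f² G` contributes `-f² (sa·x) f_v - f² VA cs x f_v + f² (VAx·V*/f*) f_v`.
 The sum with `f e1 sa·x = f (f - f*) sa·x`: `f a·(η - V* - DV x) f_v - f f* (sa·x) f_v`, and by
 the identity (4) of `F1.lean` `f* sa·x + a·DV x = e1 (a·V*)/f* - (1+c) e1/f* + b·(iM)`.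
 Compare with (5): `-(a·V*)(1 + e1/f*) + (1+c) e1/f*  vs  f (2cρ*² - (1+c)/f*)`:
 `a·V* = 1 + c - 2 c f* ρ*² + a_e·V*`; the difference is exactly the `a_e·V*` term
 `-(a_e·V*) f/f*`, i.e. `-f² aeV f_v`, compensated by `aeV (f_v - fvs)`, `kap` and `resu`:
 `resu = bed/osd - (μ conj e8 - 2i b - kap)`, `kap = (ZT ys b - aeV fvs)/f*`,
 `f kap = f* kap + e1 kap = ZT ys b - aeV fvs + e1 kap`.
Checked numerically to 1e-15 (`/team-store/h61_RE_chk.tgz`, `flat.py`). -/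

set_option autoImplicit false

namespace Pool.H61.Rh

open Complex

private lemma F2_add_left (a b c : ℂ) : dt (a + b) c = dt a c + dt b c := by
  simp only [dt, add_re, add_im]; ring

private lemma F2_add_right (a b c : ℂ) : dt a (b + c) = dt a b + dt a c := by
  simp only [dt, add_re, add_im]; ring

private lemma F2_sub_left (a b c : ℂ) : dt (a - b) c = dt a c - dt b c := by
  simp only [dt, sub_re, sub_im]; ring

private lemma F2_sub_right (a b c : ℂ) : dt a (b - c) = dt a b - dt a c := by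
  simp only [dt, sub_re, sub_im]; ring

private lemma F2_neg_left (a b : ℂ) : dt (-a) b = -dt a b := by
  simp only [dt, neg_re, neg_im]; ring

private lemma F2_neg_right (a b : ℂ) : dt a (-b) = -dt a b := by
  simp only [dt, neg_re, neg_im]; ring

private lemma F2_smul_left (t : ℝ) (a b : ℂ) : dt ((t : ℂ) * a) b = t * dt a b := by
  simp only [dt, mul_re, mul_im, ofReal_re, ofReal_im]; ring

private lemma F2_smul_right (t : ℝ) (a b : ℂ) : dt a ((t : ℂ) * b) = t * dt a b := by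
  simp only [dt, mul_re, mul_im, ofReal_re, ofReal_im]; ring

private lemma F2_I_left (a b : ℂ) : dt (I * a) b = -dt a (I * b) := by
  simp only [dt, mul_re, mul_im, I_re, I_im]; ring

private lemma F2_II (a b : ℂ) : dt (I * a) (I * b) = dt a b := by
  simp only [dt, mul_re, mul_im, I_re, I_im]; ring

private lemma F2_comm (a b : ℂ) : dt a b = dt b a := by
  simp only [dt]; ring

private lemma F2_self (a : ℂ) : dt a a = normSq a := by
  simp only [dt, normSq_apply]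

private lemma F2_R (m : ℝ) : 0 < oR m := lt_of_lt_of_le one_pos (oR_ge m)

private lemma F2_F {m : ℝ} (hm : |m| ≤ 1 / 4) : 0 < oF m := by
  have h1 := (osd_bounds hm).1
  have h2 : 0 < otau' m := by
    rw [otau'_eq]
    have := oS_gt m
    exact div_pos (by linarith) (mul_pos s3_pos oK_pos)
  rw [osd_eq] at h1
  by_contra h3
  have h4 : oF m * otau' m ≤ 0 := mul_nonpos_of_nonpos_of_nonneg (not_lt.mp h3) h2.le
  linarith

private lemma F2_v (m : ℝ) : ov m = (oR m : ℂ) * oN m := by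
  have h : (oR m : ℂ) ≠ 0 := ofReal_ne_zero.mpr (F2_R m).ne'
  rw [oN, mul_div_cancel₀ _ h]

private lemma F2_n2 (m : ℝ) : oR m ^ 2 * normSq (oN m) = oR m ^ 2 - 1 := by
  have h : oR m ≠ 0 := (F2_R m).ne'
  have h1 : normSq (ov m) = oR m ^ 2 - 1 := by rw [oR_sq]; ring
  rw [oN, normSq_div, normSq_ofReal, h1]
  field_simp

private lemma F2_fs (m : ℝ) (y : ℂ) : fs y (ov m) = 1 + dt y (oN m) := by
  have h : oR m ≠ 0 := (F2_R m).ne'
  have h2 : Real.sqrt (1 + normSq (ov m)) = oR m := rfl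
  rw [fs, h2]
  conv_lhs => rw [F2_v m, F2_smul_right]
  field_simp

private lemma F2_bp (m : ℝ) (y : ℂ) (hf : fs y (ov m) ≠ 0) :
    ((fs y (ov m) : ℝ) : ℂ) * bp y (ov m) =
      -(I * ((oR m : ℂ) * y - ((dt y (oN m) : ℝ) : ℂ) * ov m)) := by
  have hR : oR m ≠ 0 := (F2_R m).ne'
  have hRc : (oR m : ℂ) ≠ 0 := ofReal_ne_zero.mpr hR
  have hfc : ((fs y (ov m) : ℝ) : ℂ) ≠ 0 := ofReal_ne_zero.mpr hf
  have h2 : Real.sqrt (1 + normSq (ov m)) = oR m := rfl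
  have h3 : dt y (ov m) = oR m * dt y (oN m) := by
    conv_lhs => rw [F2_v m, F2_smul_right]
  have h4 : Real.sqrt (1 + normSq (ov m)) + dt y (ov m) = oR m * fs y (ov m) := by
    rw [h2, h3, F2_fs]; ring
  rw [bp, h4, h3, ← oR_sq]
  push_cast
  field_simp

private lemma F2_ZT_add (P : Pt) (y u w : ℂ) : P.ZT y (u + w) = P.ZT y u + P.ZT y w := by
  simp only [Pt.ZT, F2_add_left]; push_cast; ring

private lemma F2_ZT_smul (P : Pt) (y w : ℂ) (t : ℝ) :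
    P.ZT y ((t : ℂ) * w) = (t : ℂ) * P.ZT y w := by
  simp only [Pt.ZT, F2_smul_left]; push_cast; ring

private lemma F2_IvB (m : ℝ) (hF : oF m ≠ 0) : oF m * dt (I * ov m) (oB m) = -(oF m - 1) := by
  have h0 : fs (oy m) (ov m) = oF m := rfl
  have h1 := F2_bp m (oy m) hF
  have hB : bp (oy m) (ov m) = oB m := rfl
  rw [hB, h0] at h1
  have h2 : oF m * dt (I * ov m) (oB m) = dt (I * ov m) ((oF m : ℂ) * oB m) := by
    rw [F2_smul_right]
  have h3 := F2_n2 m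
  have h4 : dt (oy m) (oN m) = oF m - 1 := by rw [oF_eq]; ring
  rw [h2, h1, F2_neg_right, F2_II, F2_sub_right, F2_smul_right, F2_smul_right, F2_v m,
    F2_smul_left, F2_smul_left, F2_smul_right, F2_self, F2_comm (oN m) (oy m), h4]
  linear_combination (oF m - 1) * h3

private lemma F2_ZT_Iv (d : VD) (m : ℝ) (y : ℂ) (hF : oF m ≠ 0) :
    (d.pt m).ZT y (I * ov m) = ((oR m ^ 2 - 1 / oF m : ℝ) : ℂ) * (d.pt m).fv y := by
  have h1 := F2_IvB m hF
  have h3 := F2_n2 m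
  have e1 : dt (I * ov m) (-(I * y)) = -(oR m * dt y (oN m)) := by
    rw [F2_neg_right, F2_II, F2_v m, F2_smul_left, F2_comm]
  have e2 : dt (I * ov m) (I * ov m - oB m) = oR m ^ 2 - 1 / oF m := by
    rw [F2_sub_right, F2_II, F2_v m, F2_smul_left, F2_smul_right, F2_self, ← F2_v m]
    field_simp
    linear_combination (oF m) * h3 - h1
  show ((dt (I * ov m) (-(I * y)) : ℝ) : ℂ) * oN m
    + ((dt (I * ov m) (I * ov m - oB m) : ℝ) : ℂ) * (d.pt m).fv y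
    - ((dt y (oN m) : ℝ) : ℂ) * (I * (I * ov m)) = _
  rw [e1, e2]
  have e3 : I * (I * ov m) = -((oR m : ℂ) * oN m) := by
    rw [← F2_v m, ← mul_assoc, I_mul_I]; ring
  rw [e3]
  push_cast
  ring

private lemma F2_vM (d : VD) (m : ℝ) (x : ℂ) (hF : oF m ≠ 0) :
    dt (ov m) ((d.pt m).M x) = dt (oN m) x / oF m := by
  have h1 := F2_IvB m hF
  have h3 := F2_n2 m
  have e1 : dt (ov m) (I * oB m) = -dt (I * ov m) (oB m) := by rw [F2_I_left]; ring
  have e2 : dt (ov m) x = oR m * dt (oN m) x := by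
    conv_lhs => rw [F2_v m, F2_smul_left]
  have e3 : oR m * dt (ov m) (oN m) = oR m ^ 2 - 1 := by
    rw [← h3]
    conv_lhs => rw [F2_v m, F2_smul_left, F2_self]
    ring
  show dt (ov m) ((oR m : ℂ) * (x - ((dt (oN m) x : ℝ) : ℂ) * oN m)
    - ((dt (oN m) x : ℝ) : ℂ) * (I * oB m)) = _
  rw [F2_sub_right, F2_smul_right, F2_sub_right, F2_smul_right, F2_smul_right, e1, e2]
  field_simp
  linear_combination (dt (oN m) x) * h1 - (oF m * dt (oN m) x) * e3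

private lemma F2_fb (d : VD) (m : ℝ) (x : ℂ) (hF : oF m ≠ 0) :
    ((fs (oy m + x) (ov m) : ℝ) : ℂ) * (I * oB m) =
      ((oR m ^ 2 : ℝ) : ℂ) * (d.pt m).fv (oy m + x) - (d.pt m).M x := by
  have hR : (oR m : ℂ) ≠ 0 := ofReal_ne_zero.mpr (F2_R m).ne'
  have h0 : fs (oy m) (ov m) = oF m := rfl
  have h1 := F2_bp m (oy m) hF
  have hB : bp (oy m) (ov m) = oB m := rfl
  rw [hB, h0] at h1
  have h2 : ((fs (oy m + x) (ov m) : ℝ) : ℂ) = (oF m : ℂ) + ((dt (oN m) x : ℝ) : ℂ) := by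
    rw [F2_fs, F2_add_left, oF_eq, F2_comm x]
    push_cast; ring
  show _ = ((oR m ^ 2 : ℝ) : ℂ) *
      ((oy m + x - ((dt (oy m + x) (oN m) : ℝ) : ℂ) * oN m) / (oR m : ℂ))
    - ((oR m : ℂ) * (x - ((dt (oN m) x : ℝ) : ℂ) * oN m)
      - ((dt (oN m) x : ℝ) : ℂ) * (I * oB m))
  have h5 : (I * oB m) * (oF m : ℂ) =
      (oR m : ℂ) * oy m - ((dt (oy m) (oN m) : ℝ) : ℂ) * ov m := by
    have : (I * oB m) * (oF m : ℂ) = I * ((oF m : ℂ) * oB m) := by ring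
    rw [this, h1]
    have hII : I * I = -1 := I_mul_I
    linear_combination (-((oR m : ℂ) * oy m - ((dt (oy m) (oN m) : ℝ) : ℂ) * ov m)) * hII
  have h6 := F2_v m
  rw [h2, F2_add_left, F2_comm x (oN m)]
  rw [show ((oR m ^ 2 : ℝ) : ℂ) = (oR m : ℂ) * (oR m : ℂ) by push_cast; ring]
  field_simp
  rw [h6] at h5
  push_cast
  linear_combination h5

private lemma F2_DbT (d : VD) (m : ℝ) (x X : ℂ) (hf : fs (oy m + x) (ov m) ≠ 0) :
    ((fs (oy m + x) (ov m) : ℝ) : ℂ) * VD.DbT m x X =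
      (d.pt m).ZT (oy m + x) X
        - ((dt X (bp (oy m + x) (ov m) - oB m) : ℝ) : ℂ) * (d.pt m).fv (oy m + x) := by
  have hfc : ((fs (oy m + x) (ov m) : ℝ) : ℂ) ≠ 0 := ofReal_ne_zero.mpr hf
  have h1 := F2_bp m (oy m + x) hf
  set y := oy m + x with hy
  set f := fs y (ov m) with hfd
  set w := bp y (ov m) with hw
  have h2 : (f : ℂ) * (I * w) = (oR m : ℂ) * y - ((dt y (oN m) : ℝ) : ℂ) * ov m := by
    have : (f : ℂ) * (I * w) = I * ((f : ℂ) * w) := by ring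
    rw [this, h1]
    have hII : I * I = -1 := I_mul_I
    linear_combination (-((oR m : ℂ) * y - ((dt y (oN m) : ℝ) : ℂ) * ov m)) * hII
  have h3 : ((oR m : ℂ) * y - ((dt y (oN m) : ℝ) : ℂ) * ov m) / (f : ℂ) = I * w := by
    rw [← h2]; field_simp
  have e1 : dt (I * X) y = dt X (-(I * y)) := by rw [F2_I_left, F2_neg_right]
  have e2 : dt (I * X) (ov m + I * w) = -dt X (I * ov m - oB m) + dt X (w - oB m) := by
    rw [F2_I_left, mul_add, F2_add_right, F2_sub_right, F2_sub_right,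
      show I * (I * w) = -w by rw [← mul_assoc, I_mul_I]; ring, F2_neg_right]
    ring
  rw [VD.DbT, ← hy, ← hfd, h3, e1, e2, mul_div_cancel₀ _ hfc]
  show _ = ((dt X (-(I * y)) : ℝ) : ℂ) * oN m
    + ((dt X (I * ov m - oB m) : ℝ) : ℂ) * ((y - ((dt y (oN m) : ℝ) : ℂ) * oN m) / (oR m : ℂ))
    - ((dt y (oN m) : ℝ) : ℂ) * (I * X)
    - ((dt X (w - oB m) : ℝ) : ℂ) * ((y - ((dt y (oN m) : ℝ) : ℂ) * oN m) / (oR m : ℂ))
  push_cast
  ring

private lemma F2_DVT (d : VD) (m : ℝ) (x a : ℂ) : dt (DVT (oy m) a) x = dt a ((d.pt m).DV x) := by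
  have h0 : 1 - 2 * (oy m).re ≠ 0 := by
    rw [oy_d0]
    have := oS_gt m
    positivity
  show dt (DVT (oy m) a) x = dt a (I * ((-2 * dt (oy m) x : ℝ) : ℂ) *
      (((2 * (1 - normSq (oy m)) / (1 - 2 * (oy m).re) : ℝ) : ℂ) - oy m)
    + I * ((1 - normSq (oy m) : ℝ) : ℂ) *
      (((-4 * dt (oy m) x / (1 - 2 * (oy m).re)
        + 4 * (1 - normSq (oy m)) * x.re / (1 - 2 * (oy m).re) ^ 2 : ℝ) : ℂ) - x))
  set y := oy m
  simp only [DVT, dt, add_re, add_im, sub_re, sub_im, mul_re, mul_im, neg_re, neg_im, I_re, I_im,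
    ofReal_re, ofReal_im, normSq_apply, re_ofNat, im_ofNat]
  field_simp
  ring

private lemma F2_sa (d : VD) (m : ℝ) (x : ℂ) (hF : oF m ≠ 0) :
    oF m * dt (d.pt m).sa x = -dt (d.pt m).a ((d.pt m).DV x)
      + ((d.pt m).aeV - 2 * oc * oR m ^ 2) * dt (oN m) x + dt (d.be m) (I * (d.pt m).M x) := by
  have h1 : oF m * dt (d.pt m).sa x = dt ((oF m : ℂ) * (d.pt m).sa) x := by rw [F2_smul_left]
  have hFc : (oF m : ℂ) ≠ 0 := ofReal_ne_zero.mpr hF
  have h2 : (oF m : ℂ) * (d.pt m).sa = -DVT (oy m) (d.pt m).a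
      + ((dt (d.ae m) (oV m) / oF m - 2 * oc * oR m ^ 2
          + dt (d.be m) (oB m - (oR m : ℂ) * (I * oN m)) : ℝ) : ℂ) * oN m
      - (oR m : ℂ) * (I * d.be m) := by
    show (oF m : ℂ) * ((-DVT (oy m) (qy m + d.ae m)
      + ((dt (d.ae m) (oV m) / oF m - 2 * oc * oR m ^ 2
          + dt (d.be m) (oB m - (oR m : ℂ) * (I * oN m)) : ℝ) : ℂ) * oN m
      - (oR m : ℂ) * (I * d.be m)) / (oF m : ℂ)) = _
    rw [mul_div_cancel₀ _ hFc]
    rfl
  have h3 : (d.pt m).aeV = dt (d.ae m) (oV m) / oF m := rfl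
  have h4 : (d.pt m).M x = (oR m : ℂ) * (x - ((dt (oN m) x : ℝ) : ℂ) * oN m)
    - ((dt (oN m) x : ℝ) : ℂ) * (I * oB m) := rfl
  rw [h1, h2, F2_sub_left, F2_add_left, F2_neg_left, F2_DVT d, F2_smul_left, F2_smul_left, h3, h4]
  have h5 : I * ((oR m : ℂ) * (x - ((dt (oN m) x : ℝ) : ℂ) * oN m)
      - ((dt (oN m) x : ℝ) : ℂ) * (I * oB m)) =
      (oR m : ℂ) * (I * x) - ((dt (oN m) x : ℝ) : ℂ) * ((oR m : ℂ) * (I * oN m))
        + ((dt (oN m) x : ℝ) : ℂ) * oB m := by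
    have hII : I * I = -1 := I_mul_I
    linear_combination (-((dt (oN m) x : ℝ) : ℂ) * oB m) * hII
  rw [h5]
  simp only [F2_add_right, F2_sub_right, F2_smul_right, F2_I_left]
  ring

private lemma F2_aV (d : VD) (m : ℝ) (hF : oF m ≠ 0) :
    dt (d.pt m).a (oV m) = 1 + oc * (1 - 2 * oF m * oR m ^ 2) + oF m * (d.pt m).aeV := by
  show dt (qy m + d.ae m) (oV m) = _ + oF m * (dt (d.ae m) (oV m) / oF m)
  rw [F2_add_left, qy_ham, mul_div_cancel₀ _ hF]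

private lemma F2_kap (d : VD) (m : ℝ) (hF : oF m ≠ 0) :
    (oF m : ℂ) * (d.pt m).kap = (d.pt m).ZT (oy m) (d.be m)
      - ((d.pt m).aeV : ℂ) * (d.pt m).fvs := by
  have hFc : (oF m : ℂ) ≠ 0 := ofReal_ne_zero.mpr hF
  show (oF m : ℂ) * (((dt (d.be m) (-(I * oy m)) : ℂ) * oN m
      + ((dt (d.be m) (I * ov m - oB m) - dt (d.ae m) (oV m) / oF m : ℝ) : ℂ) *
        ((oy m - (dt (oy m) (oN m) : ℂ) * oN m) / (oR m : ℂ))
      - (dt (oy m) (oN m) : ℂ) * (I * d.be m)) / (oF m : ℂ)) =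
    ((dt (d.be m) (-(I * oy m)) : ℝ) : ℂ) * oN m
    + ((dt (d.be m) (I * ov m - oB m) : ℝ) : ℂ) *
      ((oy m - ((dt (oy m) (oN m) : ℝ) : ℂ) * oN m) / (oR m : ℂ))
    - ((dt (oy m) (oN m) : ℝ) : ℂ) * (I * d.be m)
    - ((dt (d.ae m) (oV m) / oF m : ℝ) : ℂ) *
      ((oy m - ((dt (oy m) (oN m) : ℝ) : ℂ) * oN m) / (oR m : ℂ))
  rw [mul_div_cancel₀ _ hFc]
  push_cast
  ring

private lemma F2_VB_sm (c : VC) (t : ℝ) (x : ℂ) : VB (VC.sm t c) x = (t : ℂ) * VB c x := by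
  simp only [VB, VC.sm, map_add, map_mul, conj_ofReal]
  ring

private lemma F2_VBd_smul (c : VC) (t : ℝ) (x h : ℂ) :
    VBd c x ((t : ℂ) * h) = (t : ℂ) * VBd c x h := by
  simp only [VBd, F2_smul_right, map_add, map_mul, conj_ofReal]
  push_cast
  simp only [map_ofNat]
  ring

private lemma F2_VBd_sub (c : VC) (x h k : ℂ) :
    VBd c x (h - k) = VBd c x h - VBd c x k := by
  simp only [VBd, F2_sub_right, map_add, map_mul, map_sub, conj_ofReal]
  push_cast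
  simp only [map_ofNat]
  ring

private lemma F2_btm (d : VD) {m : ℝ} (hm : |m| ≤ 1 / 4) (x : ℂ) :
    d.btm m x / (osd m : ℂ) = -(((1 + oc : ℝ) : ℂ) * (I * (oB m - 2 * I * ov m)))
      + d.bed m / (osd m : ℂ) + VB (d.pt m).cs x - VBd (d.ev m) x (oV m) / (oF m : ℂ) := by
  have hF := F2_F hm
  have ho : osd m ≠ 0 := by
    have := (osd_bounds hm).1
    intro h; rw [h] at this; linarith
  have hoc : (osd m : ℂ) ≠ 0 := ofReal_ne_zero.mpr ho
  have hFc : (oF m : ℂ) ≠ 0 := ofReal_ne_zero.mpr hF.ne'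
  have h1 : (osd m : ℂ) = (oF m : ℂ) * (otau' m : ℂ) := by rw [osd_eq]; push_cast; ring
  have h2 : (d.pt m).cs = VC.sm (1 / osd m) (d.dv m) := rfl
  have h3 : VBd (d.ev m) x (yd m) = (otau' m : ℂ) * VBd (d.ev m) x (oV m) := by
    rw [yd, F2_VBd_smul]
  rw [h2, F2_VB_sm, VD.btm, h3, vd]
  have h4 : (otau' m : ℂ) * VBd (d.ev m) x (oV m) / (osd m : ℂ) =
      VBd (d.ev m) x (oV m) / (oF m : ℂ) := by
    have h5 : (otau' m : ℂ) ≠ 0 := by
      intro h; rw [h, mul_zero] at h1; exact hoc h1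
    rw [h1]
    field_simp
  rw [sub_div, h4]
  push_cast
  field_simp

theorem VD.gj_flat (d : VD) (μ : ℝ) {m : ℝ} (hm : |m| ≤ 1 / 4) (x η : ℂ)
    (hf : 0 < fs (oy m + x) (ov m)) :
    d.gj μ m x η = (d.pt m).Gh x η / ((fs (oy m + x) (ov m) ^ 3 : ℝ) : ℂ) - d.resu μ m := by
  have hF := F2_F hm
  have hFc : (oF m : ℂ) ≠ 0 := ofReal_ne_zero.mpr hF.ne'
  have hfc : ((fs (oy m + x) (ov m) : ℝ) : ℂ) ≠ 0 := ofReal_ne_zero.mpr hf.ne'
  have hΔ := pt_M_eq d x hf hF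
  have hD := F2_DbT d m x (d.bt m x + (bp (oy m + x) (ov m) - oB m) / 6) hf.ne'
  have hpf := pt_f_eq d m x
  have hbtm := F2_btm d hm x
  have hfb := F2_fb d m x hF.ne'
  have hsa := F2_sa d m x hF.ne'
  have haV := F2_aV d m hF.ne'
  have hkap := F2_kap d m hF.ne'
  have hIv := F2_ZT_Iv d m (oy m + x) hF.ne'
  have hvM := F2_vM d m x hF.ne'
  have hfe : fs (oy m + x) (ov m) = oF m + dt (oN m) x := by
    rw [F2_fs, F2_add_left, oF_eq, F2_comm x]; ring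
  -- the costate
  have hbt : d.bt m x = ((-(1 + oc) : ℝ) : ℂ) * (I * ov m) + (d.be m + VB (d.ev m) x) := by
    rw [VD.bt]; push_cast; ring
  set f : ℝ := fs (oy m + x) (ov m) with hfdef
  set Δ : ℂ := bp (oy m + x) (ov m) - oB m with hΔdef
  set M : ℂ := (d.pt m).M x with hMdef
  set P : Pt := d.pt m with hPdef
  set y : ℂ := oy m + x with hydef
  set be : ℂ := d.be m
  set B : ℂ := VB (d.ev m) x with hBdef
  have hΔ2 : Δ = ((-(1 / f) : ℝ) : ℂ) * (I * M) := by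
    push_cast
    field_simp
    rw [mul_comm]; exact hΔ
  have hZb : P.ZT y (d.bt m x) = ((-(1 + oc) * (oR m ^ 2 - 1 / oF m) : ℝ) : ℂ) * P.fv y
      + P.ZT y be + P.ZT y B := by
    rw [hbt, F2_ZT_add, F2_ZT_add, F2_ZT_smul, hIv]; push_cast; ring
  have hZX : P.ZT y (d.bt m x + Δ / 6) = P.ZT y (d.bt m x)
      - ((1 / (6 * f) : ℝ) : ℂ) * P.ZT y (I * M) := by
    have : Δ / 6 = ((-(1 / (6 * f)) : ℝ) : ℂ) * (I * M) := by
      rw [hΔ2]; push_cast; field_simp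
    rw [F2_ZT_add, this, F2_ZT_smul]; push_cast; ring
  have hbM : dt (d.bt m x) (I * M) = -(1 + oc) * (dt (oN m) x / oF m) + dt be (I * M)
      + dt B (I * M) := by
    rw [hbt, F2_add_left, F2_add_left, F2_smul_left, F2_II, hvM]; ring
  have hXD : dt (d.bt m x + Δ / 6) Δ = -(1 / f) * dt (d.bt m x) (I * M)
      + normSq M / (6 * f ^ 2) := by
    have h1 : Δ / 6 = ((-(1 / (6 * f)) : ℝ) : ℂ) * (I * M) := by
      rw [hΔ2]; push_cast; field_simp
    have h2 : dt (Δ / 6) Δ = normSq M / (6 * f ^ 2) := by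
      rw [h1]
      conv_lhs => rw [hΔ2]
      rw [F2_smul_left, F2_smul_right, F2_II, F2_self]
      field_simp
    rw [F2_add_left, h2]
    conv_lhs => rw [hΔ2]
    rw [F2_smul_right]
  rw [hZX, hXD] at hD
  have key : ((f : ℝ) : ℂ) ^ 3 * (d.gj μ m x η + d.resu μ m) = P.Gh x η := by
    have hII : I * I = -1 := I_mul_I
    have hg : d.gj μ m x η + d.resu μ m = ((oc - 1 : ℝ) : ℂ) * (I * oB m)
        - ((1 / (2 * f) : ℝ) : ℂ) * M - VB P.cs x + VBd (d.ev m) x (oV m) / (oF m : ℂ)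
        - VBd (d.ev m) x η / ((f : ℝ) : ℂ) + ((dt (d.at m x) η / f ^ 2 : ℝ) : ℂ) * P.fv y
        - VD.DbT m x (d.bt m x + Δ / 6) - 2 * (I * B) + P.kap := by
      have h1 : d.gj μ m x η = -(2 * I * oB m) - I / 2 * Δ
          + (μ : ℂ) * (starRingEnd ℂ) (es (oa m) ^ 8)
          - d.btm m x / (osd m : ℂ) - VBd (d.ev m) x η / ((f : ℝ) : ℂ)
          + ((dt (d.at m x) η / f ^ 2 : ℝ) : ℂ) * P.fv y
          - VD.DbT m x (d.bt m x + Δ / 6) - 2 * I * d.bt m x := rfl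
      have h2 : d.resu μ m = d.bed m / (osd m : ℂ)
          - ((μ : ℂ) * (starRingEnd ℂ) (es (oa m) ^ 8) - 2 * I * be - P.kap) := rfl
      have h3 : I / 2 * Δ = ((1 / (2 * f) : ℝ) : ℂ) * M := by
        rw [hΔ2]
        push_cast
        linear_combination (-(1 / (2 * (f : ℂ))) * M) * hII
      have h4 : 2 * I * d.bt m x = 2 * (((1 + oc : ℝ) : ℂ) * ov m) + 2 * (I * be)
          + 2 * (I * B) := by
        rw [hbt]
        push_cast
        linear_combination (-2 * (1 + (oc : ℂ)) * ov m) * hII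
      have h5 : d.btm m x / (osd m : ℂ) = -(((1 + oc : ℝ) : ℂ) * (I * oB m))
          - 2 * (((1 + oc : ℝ) : ℂ) * ov m)
          + d.bed m / (osd m : ℂ) + VB P.cs x - VBd (d.ev m) x (oV m) / (oF m : ℂ) := by
        rw [hbtm]
        push_cast
        linear_combination (2 * (1 + (oc : ℂ)) * ov m) * hII
      rw [h1, h2, h3, h4, h5]
      push_cast
      ring
    have hGh : P.Gh x η = ((f / 6 : ℝ) : ℂ) * P.ZT y (I * M)
        + ((normSq M / 6 - f * (-dt P.a (η - oV m - P.DV x) - dt (oN m) x * dt P.sa x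
            - f * VA P.cs x - dt (VAx (d.ev m) x) (η - ((f / oF m : ℝ) : ℂ) * oV m)
            + dt B (I * M)) : ℝ) : ℂ) * P.fv y
        + ((f ^ 2 : ℝ) : ℂ) * (((1 / 2 - oc : ℝ) : ℂ) * M
          - ((dt P.sa x + VA P.cs x - dt (VAx (d.ev m) x) (oV m) / oF m : ℝ) : ℂ) * P.fv y
          - (f : ℂ) * VB P.cs x - VBd (d.ev m) x (η - ((f / oF m : ℝ) : ℂ) * oV m)
          - P.ZT y B - ((2 * f : ℝ) : ℂ) * (I * B)
          + (dt (oN m) x : ℂ) * P.kap - (P.ZT y be - P.ZT (oy m) be)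
          + (P.aeV : ℂ) * (P.fv y - P.fvs)) := by
      rw [Pt.Gh, Pt.G, Pt.X, hpf]
      rfl
    have hat : dt (d.at m x) η = dt P.a η + dt (VAx (d.ev m) x) η := by
      rw [VD.at, F2_add_left]; rfl
    have he1 : dt (oN m) x = f - oF m := by rw [hfe]; ring
    rw [hg, hGh, hat, F2_VBd_sub, F2_VBd_smul]
    simp only [F2_sub_right, F2_smul_right]
    rw [haV]
    rw [he1] at hsa hbM
    rw [he1]
    have hsa' : (oF m : ℂ) * ((dt P.sa x : ℝ) : ℂ) = -((dt P.a (P.DV x) : ℝ) : ℂ)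
      + ((P.aeV : ℂ) - 2 * (oc : ℂ) * (oR m : ℂ) ^ 2) * ((f : ℂ) - (oF m : ℂ))
      + ((dt be (I * M) : ℝ) : ℂ) := by
      rw [← ofReal_mul, hsa]; push_cast; ring
    rw [hZb, hbM] at hD
    push_cast at hD hfb ⊢
    have hD' : ((f : ℝ) : ℂ) ^ 3 * VD.DbT m x (d.bt m x + Δ / 6) = f ^ 2 *
      ((-(1 + (oc : ℂ)) * ((oR m : ℂ) ^ 2 - 1 / (oF m : ℂ)) * P.fv y + P.ZT y be + P.ZT y B)
       - 1 / (6 * (f : ℂ)) * P.ZT y (I * M)
       - (-(1 / (f : ℂ)) * (-(1 + (oc : ℂ)) * (((f : ℂ) - (oF m : ℂ)) / (oF m : ℂ))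
          + ((dt be (I * M) : ℝ) : ℂ) + ((dt B (I * M) : ℝ) : ℂ))
         + (normSq M : ℂ) / (6 * (f : ℂ) ^ 2)) * P.fv y) := by
      rw [← hD]; ring
    clear hD hZb hZX hXD hbM hΔ2 hbt hbtm hvM hIv hpf haV hsa hg hGh
    generalize VD.DbT m x (d.bt m x + Δ / 6) = D at *
    generalize P.ZT y (I * M) = z1 at *
    generalize P.ZT y be = z2 at *
    generalize P.ZT y B = z3 at *
    generalize P.ZT (oy m) be = z4 at *
    generalize P.fv y = w at *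
    generalize P.fvs = ws at *
    generalize VBd (d.ev m) x η = L1 at *
    generalize VBd (d.ev m) x (oV m) = L2 at *
    generalize VB P.cs x = L3 at *
    generalize I * B = iB at *
    generalize I * oB m = ib at *
    generalize ((dt P.a η : ℝ) : ℂ) = r1 at *
    generalize ((dt (VAx (d.ev m) x) η : ℝ) : ℂ) = r2 at *
    generalize ((dt P.a (P.DV x) : ℝ) : ℂ) = r3 at *
    generalize ((dt P.sa x : ℝ) : ℂ) = r4 at *
    generalize ((dt (VAx (d.ev m) x) (oV m) : ℝ) : ℂ) = r5 at *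
    generalize ((dt B (I * M) : ℝ) : ℂ) = r6 at *
    generalize ((dt be (I * M) : ℝ) : ℂ) = r7 at *
    generalize ((VA P.cs x : ℝ) : ℂ) = r8 at *
    generalize ((normSq M : ℝ) : ℂ) = r9 at *
    generalize P.kap = kap at *
    generalize ((P.aeV : ℝ) : ℂ) = aeV at *
    generalize (oc : ℂ) = c at *
    generalize (oR m : ℂ) = R at *
    generalize (oF m : ℂ) = F at *
    generalize (f : ℂ) = g at *
    generalize M = M' at *
    field_simp at hD' ⊢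
    linear_combination (12 * F * (c - 1) * g ^ 2) * hfb - 2 * hD' + (12 * F * g ^ 2) * hkap
      + (12 * F * g * w) * hsa'
  rw [eq_sub_iff_add_eq, eq_div_iff (by push_cast; exact pow_ne_zero 3 hfc)]
  rw [← key]; push_cast; ring

end Pool.H61.Rh
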