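import Pool.Agent.H61.Re.F0
import Pool.Agent.H61.Rc.H3

/-! # Z0: the inequalities of the zones: definitions

For `0 ≤ m ≤ m1`, `Dom y`, `j`: `P = d.pt m`, `x = y - oy m`, `η = Vx y j`,
`D = 1 - 2 dt (uu j) y > 0`, `f = P.f x = fs y v*`.  `fp = f p₀`, `ct = f³ c₀`,
`fq = f q`, `wh = f³ w`. -/

set_option autoImplicit false

namespace Pool.H61.Rh

open Complex

/-- `f p₀` -/
noncomputable def Pt.fp (P : Pt) (x : ℂ) : ℂ :=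
  (P.f x : ℂ) * (-((1 / 2 + oc : ℝ) : ℂ) * P.vs - I * (P.b + VB P.c x)) - P.M x / 6

/-- `f³ c₀` -/
noncomputable def Pt.ct (P : Pt) (x η : ℂ) : ℝ :=
  P.f x * (1 / 2 - dt (P.a + VAx P.c x) η) + dt (P.fp x) (P.vs + (P.rs : ℂ) * (P.ys + x))

/-- `f q` -/
noncomputable def Pt.fq (P : Pt) (x η : ℂ) : ℂ := (P.f x : ℂ) * VBd P.c x η - P.fp x

/-- `f³ w` -/
noncomputable def Pt.wh (P : Pt) (x η : ℂ) : ℂ :=
  (P.f x : ℂ) * P.fq x η + ((957 / 1000 * P.ct x η : ℝ) : ℂ) * (P.ys + x)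

/-- constants of a zone -/
structure ZC where
  (R lam hb Φ cb Qb pb : ℝ)

/-- elementary conditions on the constants -/
structure ZC.Ok (z : ZC) (ν : ℝ) : Prop where
  R : ν < z.R
  lam : 0 < z.lam
  hb0 : 0 ≤ z.hb
  hb : z.hb ≤ 8887 / 10000
  Φ : 1 ≤ z.Φ * (1 - 2874 / 10000 * z.hb)
  Qb : 0 ≤ z.Qb

/-- the inequalities at a point -/
structure Pt.Z (P : Pt) (ν : ℝ) (z : ZC) (x η : ℂ) (D : ℝ) : Prop where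
  hb : normSq (P.ys + x) ≤ z.hb ^ 2
  F : 0 ≤ (4 * (z.R - ν) * P.f x ^ 4 * (P.Eh x η - ν * normSq x * P.f x ^ 2)
    - normSq (P.Gh x η)) * D ^ 2
  c0 : 0 ≤ P.ct x η * D
  c1 : 0 ≤ (z.cb * P.f x ^ 3 - P.ct x η) * D
  q : 0 ≤ (z.Qb ^ 2 * P.f x ^ 2 - normSq (P.fq x η)) * D ^ 2
  p0 : 0 ≤ z.pb * P.f x ^ 2 - dt (P.fp x) (P.ys + x)
  p1 : 0 ≤ z.pb * P.f x ^ 2 + dt (P.fp x) (P.ys + x)
  w : 0 ≤ (4 * z.lam * (6 - z.R - Kz z.hb z.Φ z.cb z.Qb z.pb) * P.f x ^ 6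
    + 4 * z.lam * (493 / 1000) * P.f x ^ 4 * dt (P.fp x) (P.ys + x)
    - z.Φ * normSq ((z.lam * P.f x ^ 3 : ℝ) * (P.ys + x) - P.wh x η)) * D ^ 2

end Pool.H61.Rh
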