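import Pool.Agent.H61.Re.G0
import Pool.Agent.H61.Re.G1
import Pool.Agent.H61.Re.Z0
import Pool.Agent.H61.Re.D5
import Pool.Agent.H61.Re.D6
import Pool.Agent.H61.Re.F2

/-! # G2: from the inequalities of the zones to half calibrations -/

set_option autoImplicit false

namespace Pool.H61.Rh

open Complex

lemma pt_fp (d : VD) {m : ℝ} (x : ℂ) (hf : 0 < fs (oy m + x) (ov m)) (hs : 0 < oF m) :
    ((fs (oy m + x) (ov m) : ℝ) : ℂ) * pp (ov m) (oB m) (d.bt m x) (oy m + x) =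
      (d.pt m).fp x := by
  have h1 := pt_M_eq d x hf hs
  have h2 := pt_f_eq d m x
  unfold Pt.fp pp
  rw [h2]
  have h3 : (d.pt m).vs = ov m := rfl
  have h4 : (d.pt m).b = d.be m := rfl
  have h5 : (d.pt m).c = d.ev m := rfl
  rw [h3, h4, h5]
  unfold VD.bt
  push_cast
  linear_combination (-I / 6) * h1 +
    ((fs (oy m + x) (ov m) : ℂ) * (1 + (oc : ℂ)) * ov m + (d.pt m).M x / 6) * Complex.I_sq

lemma pt_ct (d : VD) {m : ℝ} (x η : ℂ) (hf : 0 < fs (oy m + x) (ov m)) (hs : 0 < oF m) :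
    fs (oy m + x) (ov m) ^ 3 * cc (ov m) (oB m) (dt (d.at m x) η) (d.bt m x) (oy m + x) =
      (d.pt m).ct x η := by
  rw [fs_pow_cc hf.ne', pt_fp d x hf hs]
  unfold Pt.ct
  rw [pt_f_eq]
  rfl

private lemma G2_DbT (m : ℝ) (x X : ℂ) (hf : fs (oy m + x) (ov m) ≠ 0) :
    VD.DbT m x X = DbT (oy m + x) (ov m) X := by
  have hr : (oR m : ℂ) ≠ 0 := by
    have := rh_pos (ov m); exact_mod_cast this.ne'
  have hrr : rh (ov m) = oR m := rfl
  have hf' : ((fs (oy m + x) (ov m) : ℝ) : ℂ) ≠ 0 := by exact_mod_cast hf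
  have hk : dt (oy m + x) (oN m) = ka (oy m + x) (ov m) := by
    unfold ka oN
    rw [hrr]
    simp only [dt, Complex.div_ofReal_re, Complex.div_ofReal_im]
    ring
  have hZ : Zv (oy m + x) (ov m) = ov m + ((oR m : ℂ) * (oy m + x)
      - ((dt (oy m + x) (oN m) : ℝ) : ℂ) * ov m) / ((fs (oy m + x) (ov m) : ℝ) : ℂ) := by
    unfold Zv
    rw [bp_eq _ _ hf, hk, hrr]
    push_cast
    field_simp
    linear_combination (-((oR m : ℂ) * (oy m + x) - (ka (oy m + x) (ov m) : ℂ) * ov m)) *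
      Complex.I_sq
  have hfv : fv (oy m + x) (ov m) = (oy m + x - ((dt (oy m + x) (oN m) : ℝ) : ℂ) * oN m)
      / (oR m : ℂ) := by
    unfold fv
    rw [hk, hrr]
    unfold oN
    push_cast
    field_simp
  unfold VD.DbT DbT
  rw [hZ, hfv, hk]
  unfold oN
  rw [hrr]
  push_cast
  field_simp

private lemma G2_E0 (d : VD) (m : ℝ) (x η : ℂ) :
    EE0 (ov m) (oB m) (osd m) (d.Am m x) (dt (d.at m x) η) (d.bt m x) (oy m + x) =
      d.E0 m x η := by
  unfold EE0 VD.E0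
  ring

private lemma G2_gj (d : VD) (μ m : ℝ) (x η : ℂ) (hf : fs (oy m + x) (ov m) ≠ 0) :
    gg (ov m) (oB m) ((μ : ℂ) * es (oa m) ^ 8) (osd m) (dt (d.at m x) η) (d.bt m x)
      (d.btm m x) (VBd (d.ev m) x η) (oy m + x) = d.gj μ m x η := by
  have hr : (oR m : ℂ) ≠ 0 := by
    have := rh_pos (ov m); exact_mod_cast this.ne'
  have hrr : rh (ov m) = oR m := rfl
  have hk : dt (oy m + x) (oN m) = ka (oy m + x) (ov m) := by
    unfold ka oN
    rw [hrr]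
    simp only [dt, Complex.div_ofReal_re, Complex.div_ofReal_im]
    ring
  have hfv : fv (oy m + x) (ov m) = (oy m + x - ((dt (oy m + x) (oN m) : ℝ) : ℂ) * oN m)
      / (oR m : ℂ) := by
    unfold fv
    rw [hk, hrr]
    unfold oN
    push_cast
    field_simp
  have hc : (starRingEnd ℂ) ((μ : ℂ) * es (oa m) ^ 8) =
      (μ : ℂ) * (starRingEnd ℂ) (es (oa m) ^ 8) := by
    rw [map_mul, conj_ofReal]
  unfold gg VD.gj
  rw [G2_DbT m x _ hf, hfv, hc]
  push_cast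
  ring

/-- `DW = fs (Lag - E)` -/
private lemma G2_fderiv (d : VD) (μ : ℝ) {m : ℝ} (y v η : ℂ) (ho : osd m ≠ 0) (hf : fs y v ≠ 0) :
    fderiv ℝ d.W (m, y, v) (fs y v / osd m, η, vt y v) =
      fs y v * (Lag μ m y v - EE (ov m) (oB m) ((μ : ℂ) * es (oa m) ^ 8) (osd m)
        (d.Am m (y - oy m)) (dt (d.at m (y - oy m)) η) (d.bt m (y - oy m))
        (d.btm m (y - oy m)) (VBd (d.ev m) (y - oy m) η) y v) := by
  rw [VD.W_fderiv]
  have h1 : ((μ : ℂ) * es (oa m) ^ 8 * (v - ov m)).re = μ * (es (oa m) ^ 8 * (v - ov m)).re := by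
    rw [mul_assoc, Complex.re_ofReal_mul]
  have h2 : vt y v = ((fs y v : ℝ) : ℂ) * (bp y v - 2 * I * v) := rfl
  have h3 : vd m = ((osd m : ℝ) : ℂ) * (oB m - 2 * I * ov m) := rfl
  have h4 : Lag μ m y v = 2 * cr (v - ov m) (oB m) + 6 * normSq (v - ov m)
    + 1 / 2 * cr (v - ov m) (bp y v - oB m) - 1 / 12 * normSq (bp y v - oB m)
    + μ * (es (oa m) ^ 8 * (v - ov m)).re := rfl
  have h5 : ∀ (t : ℝ) (z w : ℂ), dt z ((t : ℂ) * w) = t * dt z w := by
    intro t z w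
    simp only [dt, Complex.mul_re, Complex.mul_im, Complex.ofReal_re, Complex.ofReal_im]; ring
  rw [h2, h3, h4, h5, h5]
  unfold EE
  rw [h1]
  field_simp
  ring

private lemma G2_core {d : VD} {μ ν : ℝ} {z : ZC} (hz : z.Ok ν) {m : ℝ}
    (hm : |m| ≤ m1) {y : ℂ} {η : ℂ} {D : ℝ} (hD : 0 < D)
    (h : (d.pt m).Z ν z (y - oy m) η D) {v : ℂ} (hv : ‖v‖ ≤ 3 / 10) :
    ν * normSq (y - oy m) + ν * normSq (v - ov m) ≤
      EE (ov m) (oB m) ((μ : ℂ) * es (oa m) ^ 8) (osd m)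
        (d.Am m (y - oy m)) (dt (d.at m (y - oy m)) η) (d.bt m (y - oy m))
        (d.btm m (y - oy m)) (VBd (d.ev m) (y - oy m) η) y v
      + dt (d.resx m) (y - oy m) + dt (d.resu μ m) (v - ov m) := by
  obtain ⟨x, hx⟩ : ∃ x, x = y - oy m := ⟨_, rfl⟩
  have hyx : y = oy m + x := by rw [hx]; ring
  rw [← hx] at h ⊢
  have hov := ov_norm_le hm
  have hm1 := m1_bounds.2
  have hm4 : |m| ≤ 1 / 4 := hm.trans (by linarith)
  have ho : osd m ≠ 0 := by
    have := (osd_bounds hm4).1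
    intro h0; linarith
  -- sizes
  have hyb : ‖y‖ ≤ z.hb := by
    have h1 : normSq ((d.pt m).ys + x) ≤ z.hb ^ 2 := h.hb
    have h2 : (d.pt m).ys + x = y := hyx.symm
    rw [h2, normSq_eq_norm_sq] at h1
    exact le_of_sq_le_sq h1 hz.hb0
  have hy1 : ‖y‖ ≤ 8887 / 10000 := hyb.trans hz.hb
  obtain ⟨-, hf, -⟩ := fs_lower hy1 hov
  have hf' : 0 < fs (oy m + x) (ov m) := by rwa [← hyx]
  have hs : 0 < oF m := by
    have h1 := ka_abs' (y := oy m) hov
    have h2 : normSq (oy m) < 1 := by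
      have h3 := oy_w m
      have h4 := oK_pos
      have h5 := oS_gt m
      have : 0 < 3 * oK / oS m ^ 2 := by positivity
      linarith
    rw [normSq_eq_norm_sq] at h2
    have h3 : ‖oy m‖ < 1 := by nlinarith [norm_nonneg (oy m)]
    show 0 < fs (oy m) (ov m)
    rw [fs_eq]; linarith [neg_abs_le (ka (oy m) (ov m))]
  have hfe : (d.pt m).f x = fs y (ov m) := by rw [pt_f_eq, ← hyx]
  have hys : (d.pt m).ys + x = y := hyx.symm
  have hfp : ((fs y (ov m) : ℝ) : ℂ) * pp (ov m) (oB m) (d.bt m x) y = (d.pt m).fp x := by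
    have := pt_fp d x hf' hs
    rwa [← hyx] at this
  have hct : fs y (ov m) ^ 3 * cc (ov m) (oB m) (dt (d.at m x) η) (d.bt m x) y =
      (d.pt m).ct x η := by
    have := pt_ct d x η hf' hs
    rwa [← hyx] at this
  obtain ⟨f, hfdef⟩ : ∃ f, f = fs y (ov m) := ⟨_, rfl⟩
  rw [← hfdef] at hf hfe hfp hct
  obtain ⟨p, hp⟩ : ∃ p, p = pp (ov m) (oB m) (d.bt m x) y := ⟨_, rfl⟩
  obtain ⟨c, hc⟩ : ∃ c, c = cc (ov m) (oB m) (dt (d.at m x) η) (d.bt m x) y := ⟨_, rfl⟩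
  rw [← hp] at hfp
  rw [← hc] at hct
  have hfne : f ≠ 0 := hf.ne'
  have hfC : ((f : ℝ) : ℂ) ≠ 0 := by exact_mod_cast hfne
  have hf2 : 0 < f ^ 2 := by positivity
  have hf3 : 0 < f ^ 3 := by positivity
  have hD2 : 0 < D ^ 2 := by positivity
  have zc0 := h.c0
  have zc1 := h.c1
  have zq := h.q
  have zp0 := h.p0
  have zp1 := h.p1
  have zw := h.w
  have zF := h.F
  have hfq : (d.pt m).fq x η = ((f : ℝ) : ℂ) * (VBd (d.ev m) x η - p) := by
    unfold Pt.fq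
    rw [hfe, ← hfp, mul_sub]; rfl
  have hns : ∀ (t : ℝ) (w : ℂ), normSq ((t : ℂ) * w) = t ^ 2 * normSq w := by
    intro t w; rw [normSq_mul, normSq_ofReal]; ring
  have hdts : ∀ (t : ℝ) (z w : ℂ), dt ((t : ℂ) * z) w = t * dt z w := by
    intro t z w
    simp only [dt, Complex.mul_re, Complex.mul_im, Complex.ofReal_re, Complex.ofReal_im]; ring
  rw [← hct] at zc0
  rw [hfe, ← hct] at zc1
  rw [hfe, hfq, hns] at zq
  rw [hfe, hys, ← hfp, hdts] at zp0 zp1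
  have k0 : 0 ≤ c := by
    have h1 : 0 ≤ f ^ 3 * D * c := by linarith [zc0]
    exact nonneg_of_mul_nonneg_right h1 (by positivity)
  have k1 : c ≤ z.cb := by
    have h1 : 0 ≤ f ^ 3 * D * (z.cb - c) := by linarith [zc1]
    have := nonneg_of_mul_nonneg_right h1 (by positivity)
    linarith
  have k2 : ‖VBd (d.ev m) x η - p‖ ≤ z.Qb := by
    have h1 : 0 ≤ f ^ 2 * D ^ 2 * (z.Qb ^ 2 - normSq (VBd (d.ev m) x η - p)) := by
      linarith [zq]
    have h2 := nonneg_of_mul_nonneg_right h1 (by positivity)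
    rw [normSq_eq_norm_sq] at h2
    exact le_of_sq_le_sq (by linarith) hz.Qb
  have k3 : |1 / f * dt p y| ≤ z.pb := by
    have e : 1 / f * dt p y = f * dt p y / f ^ 2 := by field_simp
    rw [e, abs_div, abs_of_pos hf2, div_le_iff₀ hf2, abs_le]
    constructor <;> linarith
  have k4 : z.Φ * normSq ((z.lam : ℂ) * y - (((1 / f : ℝ) : ℂ) * (VBd (d.ev m) x η - p)
      + ((957 / 1000 * c : ℝ) : ℂ) * y)) ≤
      4 * z.lam * (6 - z.R - Kz z.hb z.Φ z.cb z.Qb z.pb + 493 / 1000 * (1 / f * dt p y)) := by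
    have e1 : ((z.lam * (d.pt m).f x ^ 3 : ℝ) : ℂ) * ((d.pt m).ys + x) - (d.pt m).wh x η =
        ((f ^ 3 : ℝ) : ℂ) * ((z.lam : ℂ) * y - (((1 / f : ℝ) : ℂ) * (VBd (d.ev m) x η - p)
      + ((957 / 1000 * c : ℝ) : ℂ) * y)) := by
      unfold Pt.wh
      rw [hys, hfe, hfq, ← hct]
      push_cast
      field_simp
    rw [e1, hns, hfe, hys, ← hfp, hdts] at zw
    have e2 : (4 * z.lam * (6 - z.R - Kz z.hb z.Φ z.cb z.Qb z.pb) * f ^ 6
        + 4 * z.lam * (493 / 1000) * f ^ 4 * (f * dt p y)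
        - z.Φ * ((f ^ 3) ^ 2 * normSq ((z.lam : ℂ) * y
          - (((1 / f : ℝ) : ℂ) * (VBd (d.ev m) x η - p) + ((957 / 1000 * c : ℝ) : ℂ) * y))))
          * D ^ 2 = (f ^ 6 * D ^ 2) *
        (4 * z.lam * (6 - z.R - Kz z.hb z.Φ z.cb z.Qb z.pb + 493 / 1000 * (1 / f * dt p y))
        - z.Φ * normSq ((z.lam : ℂ) * y
          - (((1 / f : ℝ) : ℂ) * (VBd (d.ev m) x η - p) + ((957 / 1000 * c : ℝ) : ℂ) * y))) := by
      field_simp
    rw [e2] at zw
    have := nonneg_of_mul_nonneg_right zw (by positivity)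
    linarith
  have hE := EE_ge_zone (bs := oB m) (c8 := (μ : ℂ) * es (oa m) ^ 8) (Am := d.Am m x)
    (AV := dt (d.at m x) η) (be := d.bt m x) (bm := d.btm m x) (bV := VBd (d.ev m) x η)
    (R := z.R) (lam := z.lam) (hb := z.hb) (Φ := z.Φ) (cb := z.cb) (Qb := z.Qb) (pb := z.pb)
    ho hyb hz.hb hov hv hz.Φ hz.lam (by rw [← hc]; exact k0) (by rw [← hc]; exact k1)
    (by rw [← hp]; exact k2) (by rw [← hp, ← hfdef]; exact k3)
    (by rw [← hp, ← hfdef, ← hc]; exact k4)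
  -- the flat formulas
  have hE0 : EE0 (ov m) (oB m) (osd m) (d.Am m x) (dt (d.at m x) η) (d.bt m x) y =
      (d.pt m).Eh x η / f ^ 2 - dt (d.resx m) x := by
    have h1 := G2_E0 d m x η
    have h2 := VD.E0_flat d hm4 x η hf'
    rw [h2, ← hyx, ← hfdef] at h1
    exact h1
  have hG : gg (ov m) (oB m) ((μ : ℂ) * es (oa m) ^ 8) (osd m) (dt (d.at m x) η) (d.bt m x)
      (d.btm m x) (VBd (d.ev m) x η) y =
      (d.pt m).Gh x η / ((f ^ 3 : ℝ) : ℂ) - d.resu μ m := by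
    have h1 := G2_gj d μ m x η hf'.ne'
    have h2 := VD.gj_flat d μ hm4 x η hf'
    rw [h2, ← hyx, ← hfdef] at h1
    exact h1
  rw [hE0, hG] at hE
  have hR : 0 < z.R - ν := by linarith [hz.R]
  have hq : normSq ((d.pt m).Gh x η / ((f ^ 3 : ℝ) : ℂ)) ≤
      4 * (z.R - ν) * ((d.pt m).Eh x η / f ^ 2 - ν * normSq x) := by
    rw [hfe] at zF
    have h1 := nonneg_of_mul_nonneg_left zF hD2
    rw [normSq_div, normSq_ofReal, div_le_iff₀ (by positivity)]
    have e : 4 * (z.R - ν) * ((d.pt m).Eh x η / f ^ 2 - ν * normSq x) * (f ^ 3 * f ^ 3) =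
        4 * (z.R - ν) * f ^ 4 * ((d.pt m).Eh x η - ν * normSq x * f ^ 2) := by
      field_simp
    rw [e]; linarith
  have hmin := quad_min (u := v - ov m) hR hq
  have e3 : dt ((d.pt m).Gh x η / ((f ^ 3 : ℝ) : ℂ) - d.resu μ m) (v - ov m) =
      dt ((d.pt m).Gh x η / ((f ^ 3 : ℝ) : ℂ)) (v - ov m) - dt (d.resu μ m) (v - ov m) := by
    simp only [dt, Complex.sub_re, Complex.sub_im]; ring
  rw [e3] at hE
  linarith

/-- **half calibrations from the inequalities of the zones** -/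
theorem HCal_of_zones {d : VD} {μ ν : ℝ} {lx lu : ℝ → ℂ} (hJ : d.Junc)
    (hx : ∀ m, 0 ≤ m → m ≤ m1 → d.resx m = (μ : ℂ) * lx m)
    (hu : ∀ m, 0 ≤ m → m ≤ m1 → d.resu μ m = (μ : ℂ) * lu m)
    (h : ∀ m, 0 ≤ m → m ≤ m1 → ∀ y : ℂ, Dom y → ∀ j : Fin 3, ∃ z : ZC, z.Ok ν ∧
      (d.pt m).Z ν z (y - oy m) (Vx y j) (1 - 2 * dt (uu j) y)) :
    HCal μ lx lu ν d.W := by
  refine ⟨d.W_smooth.contDiffOn, fun y v _ _ => VD.W_junction hJ y v, d.W_neg, ?_⟩
  intro m m0 mm y hy v hv j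
  obtain ⟨z, hz, hZ⟩ := h m m0 mm y hy j
  have hm : |m| ≤ m1 := by rw [abs_of_nonneg m0]; exact mm
  have hm1 := m1_bounds.2
  have ho : osd m ≠ 0 := by
    have := (osd_bounds (m := m) (hm.trans (by linarith))).1
    intro h0; linarith
  have hyn := dom_norm hy
  have hk := ka_abs (y := y) hv
  have hf : 0 < fs y v := by
    rw [fs_eq]; linarith [neg_abs_le (ka y v)]
  have hD : 0 < 1 - 2 * dt (uu j) y := by linarith [(hy j).1]
  rw [G2_fderiv d μ y v (Vx y j) ho hf.ne', mul_comm]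
  refine mul_le_mul_of_nonneg_right ?_ hf.le
  have hc := G2_core (μ := μ) hz hm hD hZ hv
  have hdts : ∀ (t : ℝ) (z w : ℂ), dt ((t : ℂ) * z) w = t * dt z w := by
    intro t z w
    simp only [dt, Complex.mul_re, Complex.mul_im, Complex.ofReal_re, Complex.ofReal_im]; ring
  rw [hx m m0 mm, hu m m0 mm, hdts, hdts] at hc
  linarith

end Pool.H61.Rh
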