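import Pool.Agent.H61.Re.D1

/-! # C0: the polygon and the sectors

The domain `Dom` is contained in the polygon `pg 0, …, pg 11` (four edges on each of the three
sides, vertices slightly inside the ellipses `(1 - 2 dt (uu j) y)² < .059 (1 - |y|²)`), which is
star-shaped with respect to every `oy m`, `0 ≤ m ≤ m1`. -/

set_option autoImplicit false

namespace Pool.H61.Rh

open Complex

/-- first coordinates of the vertices, unit `10⁻⁴` -/
def pgX : Fin 12 → ℤ :=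
  ![4445, 4130, 3882, 4130, 4445, 2785, -1941, -6915, -8890, -6915, -1941, 2785]

/-- second coordinates of the vertices, unit `10⁻⁴` -/
def pgY : Fin 12 → ℤ :=
  ![-7699, -5600, 0, 5600, 7699, 6376, 3362, 776, 0, -776, -3362, -6376]

/-- the vertices of the polygon -/
noncomputable def pg (l : Fin 12) : ℂ := ⟨(pgX l : ℝ) / 10000, (pgY l : ℝ) / 10000⟩

/-- the side of an edge -/
def sd : Fin 12 → Fin 3 := ![0, 0, 0, 0, 1, 1, 1, 1, 2, 2, 2, 2]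

/-- nonnegative on the left of the edge number `l` -/
noncomputable def Lg (l : Fin 12) (y : ℂ) : ℝ := cr (pg (l + 1) - pg l) (y - pg l)

/-- the same in integers -/
def LgZ (l : Fin 12) (X Y : ℤ) : ℤ :=
  (pgX (l + 1) - pgX l) * (Y - pgY l) - (pgY (l + 1) - pgY l) * (X - pgX l)

lemma Lg_eq (l : Fin 12) (y : ℂ) : Lg l y =
    ((pgX (l + 1) : ℝ) / 10000 - (pgX l : ℝ) / 10000) * (y.im - (pgY l : ℝ) / 10000) -
      ((pgY (l + 1) : ℝ) / 10000 - (pgY l : ℝ) / 10000) * (y.re - (pgX l : ℝ) / 10000) := rfl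

lemma Lg_int (l : Fin 12) (X Y : ℤ) : Lg l ⟨(X : ℝ) / 10000, (Y : ℝ) / 10000⟩ =
    (LgZ l X Y : ℝ) / 100000000 := by
  rw [Lg_eq]
  unfold LgZ
  push_cast
  ring

lemma Lg_affine (l : Fin 12) (a b c : ℝ) (x y z : ℂ) (h : a + b + c = 1) :
    Lg l ((a : ℂ) * x + (b : ℂ) * y + (c : ℂ) * z) = a * Lg l x + b * Lg l y + c * Lg l z := by
  simp only [Lg_eq, Complex.add_re, Complex.add_im, Complex.mul_re, Complex.mul_im,
    Complex.ofReal_re, Complex.ofReal_im]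
  have hc : c = 1 - a - b := by linarith
  rw [hc]
  ring

lemma Lg_pg (l : Fin 12) : Lg l (pg l) = 0 := by
  rw [Lg_eq]
  simp [pg]

lemma Lg_pg' (l : Fin 12) : Lg l (pg (l + 1)) = 0 := by
  rw [Lg_eq]
  simp only [pg]
  ring

/-! ## The chains -/

/-- on a side, in coordinates `(c, t)` along and across `uu j`: a point of the domain is on the
left of one of the edges -/
private lemma C0_edge {ca ta cb tb c t : ℝ}
    (qa : (1 - 2 * ca) ^ 2 < 59 / 1000 * (1 - (ca ^ 2 + ta ^ 2)))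
    (qb : (1 - 2 * cb) ^ 2 < 59 / 1000 * (1 - (cb ^ 2 + tb ^ 2)))
    (hab : ta < tb) (h1 : ta ≤ t) (h2 : t ≤ tb) (h3 : 1 / 30 ≤ 1 - 2 * c)
    (h4 : 59 / 1000 * (1 - (c ^ 2 + t ^ 2)) ≤ (1 - 2 * c) ^ 2) :
    0 ≤ (cb - ca) * (t - ta) - (tb - ta) * (c - ca) := by
  by_contra hc
  push Not at hc
  have hd : 0 < tb - ta := by linarith
  obtain ⟨s, hs⟩ : ∃ s, s = (t - ta) / (tb - ta) := ⟨_, rfl⟩
  have hs' : t - ta = s * (tb - ta) := by rw [hs]; field_simp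
  have hs0 : 0 ≤ s := by rw [hs]; exact div_nonneg (by linarith) hd.le
  have hs1 : s ≤ 1 := by rw [hs, div_le_one hd]; linarith
  obtain ⟨z, hz⟩ : ∃ z, z = ca + s * (cb - ca) := ⟨_, rfl⟩
  have ht : t = ta + s * (tb - ta) := by linarith
  -- `z < c`
  have hzc : z < c := by
    have e : (cb - ca) * (t - ta) - (tb - ta) * (c - ca) = (tb - ta) * (z - c) := by
      rw [hz, hs']; ring
    rw [e] at hc
    by_contra h
    push Not at h
    have := mul_nonneg hd.le (by linarith : 0 ≤ z - c)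
    linarith
  -- `q z < 0`
  have hq : (1 - 2 * z) ^ 2 < 59 / 1000 * (1 - (z ^ 2 + t ^ 2)) := by
    have e : 59 / 1000 * (1 - (z ^ 2 + t ^ 2)) - (1 - 2 * z) ^ 2 =
        (1 - s) * (59 / 1000 * (1 - (ca ^ 2 + ta ^ 2)) - (1 - 2 * ca) ^ 2)
        + s * (59 / 1000 * (1 - (cb ^ 2 + tb ^ 2)) - (1 - 2 * cb) ^ 2)
        + s * (1 - s) * (4059 / 1000 * (cb - ca) ^ 2 + 59 / 1000 * (tb - ta) ^ 2) := by
      rw [hz, ht]; ring
    have p1 : 0 ≤ s * (1 - s) * (4059 / 1000 * (cb - ca) ^ 2 + 59 / 1000 * (tb - ta) ^ 2) := by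
      have : 0 ≤ 1 - s := by linarith
      positivity
    rcases eq_or_lt_of_le hs0 with h0 | h0
    · have : s = 0 := h0.symm
      rw [this] at e p1
      linarith
    · have p2 := mul_pos h0 (by linarith : 0 < 59 / 1000 * (1 - (cb ^ 2 + tb ^ 2))
        - (1 - 2 * cb) ^ 2)
      have p3 := mul_nonneg (by linarith : 0 ≤ 1 - s) (by linarith :
        0 ≤ 59 / 1000 * (1 - (ca ^ 2 + ta ^ 2)) - (1 - 2 * ca) ^ 2)
      linarith
  have e2 : ((1 - 2 * c) ^ 2 - 59 / 1000 * (1 - (c ^ 2 + t ^ 2)))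
      - ((1 - 2 * z) ^ 2 - 59 / 1000 * (1 - (z ^ 2 + t ^ 2))) =
      (c - z) * (4059 / 1000 * (c + z) - 4) := by ring
  have h5 : 0 < (c - z) * (4059 / 1000 * (c + z) - 4) := by linarith
  have h6 : 0 < 4059 / 1000 * (c + z) - 4 := (pos_iff_pos_of_mul_pos h5).1 (by linarith)
  linarith

/-- beyond the upper end -/
private lemma C0_end {ca ta cb tb c t : ℝ} (hb0 : 0 < cb) (hb1 : 0 < tb)
    (hab : ta < tb) (hc : ca ≤ cb) (hn : (8887 / 10000) ^ 2 < cb ^ 2 + tb ^ 2)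
    (h1 : tb ≤ t) (h2 : c ^ 2 + t ^ 2 ≤ (8887 / 10000) ^ 2) :
    0 ≤ (cb - ca) * (t - ta) - (tb - ta) * (c - ca) := by
  by_contra hh
  push Not at hh
  have hcb : cb < c := by
    by_contra h
    push Not at h
    have p1 : 0 ≤ (cb - ca) * (t - tb) := mul_nonneg (by linarith) (by linarith)
    have p2 : 0 ≤ (tb - ta) * (cb - c) := mul_nonneg (by linarith) (by linarith)
    have e : (cb - ca) * (t - ta) - (tb - ta) * (c - ca) =
      (cb - ca) * (t - tb) + (tb - ta) * (cb - c) := by ring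
    linarith
  nlinarith

/-- beyond the lower end -/
private lemma C0_end' {ca ta cb tb c t : ℝ} (ha0 : 0 < ca) (ha1 : ta < 0)
    (hab : ta < tb) (hc : cb ≤ ca) (hn : (8887 / 10000) ^ 2 < ca ^ 2 + ta ^ 2)
    (h1 : t ≤ ta) (h2 : c ^ 2 + t ^ 2 ≤ (8887 / 10000) ^ 2) :
    0 ≤ (cb - ca) * (t - ta) - (tb - ta) * (c - ca) := by
  by_contra hh
  push Not at hh
  have hcb : ca < c := by
    by_contra h
    push Not at h
    have p1 : 0 ≤ (ca - cb) * (ta - t) := mul_nonneg (by linarith) (by linarith)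
    have p2 : 0 ≤ (tb - ta) * (ca - c) := mul_nonneg (by linarith) (by linarith)
    have e : (cb - ca) * (t - ta) - (tb - ta) * (c - ca) =
      (ca - cb) * (ta - t) + (tb - ta) * (ca - c) := by ring
    linarith
  nlinarith

private lemma C0_chain {c0 t0 c1 t1 c2 t2 c3 t3 c4 t4 c t : ℝ}
    (q0 : (1 - 2 * c0) ^ 2 < 59 / 1000 * (1 - (c0 ^ 2 + t0 ^ 2)))
    (q1 : (1 - 2 * c1) ^ 2 < 59 / 1000 * (1 - (c1 ^ 2 + t1 ^ 2)))
    (q2 : (1 - 2 * c2) ^ 2 < 59 / 1000 * (1 - (c2 ^ 2 + t2 ^ 2)))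
    (q3 : (1 - 2 * c3) ^ 2 < 59 / 1000 * (1 - (c3 ^ 2 + t3 ^ 2)))
    (q4 : (1 - 2 * c4) ^ 2 < 59 / 1000 * (1 - (c4 ^ 2 + t4 ^ 2)))
    (h01 : t0 < t1) (h12 : t1 < t2) (h23 : t2 < t3) (h34 : t3 < t4)
    (k0 : 0 < c0) (k1 : t0 < 0) (k2 : c1 ≤ c0) (k3 : (8887 / 10000) ^ 2 < c0 ^ 2 + t0 ^ 2)
    (l0 : 0 < c4) (l1 : 0 < t4) (l2 : c3 ≤ c4) (l3 : (8887 / 10000) ^ 2 < c4 ^ 2 + t4 ^ 2)
    (hn : c ^ 2 + t ^ 2 ≤ (8887 / 10000) ^ 2) (h3 : 1 / 30 ≤ 1 - 2 * c)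
    (h4 : 59 / 1000 * (1 - (c ^ 2 + t ^ 2)) ≤ (1 - 2 * c) ^ 2) :
    0 ≤ (c1 - c0) * (t - t0) - (t1 - t0) * (c - c0) ∨
    0 ≤ (c2 - c1) * (t - t1) - (t2 - t1) * (c - c1) ∨
    0 ≤ (c3 - c2) * (t - t2) - (t3 - t2) * (c - c2) ∨
    0 ≤ (c4 - c3) * (t - t3) - (t4 - t3) * (c - c3) := by
  rcases le_total t t0 with a | a
  · exact Or.inl (C0_end' k0 k1 h01 k2 k3 a hn)
  rcases le_total t t1 with b | b
  · exact Or.inl (C0_edge q0 q1 h01 a b h3 h4)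
  rcases le_total t t2 with d | d
  · exact Or.inr (Or.inl (C0_edge q1 q2 h12 b d h3 h4))
  rcases le_total t t3 with e | e
  · exact Or.inr (Or.inr (Or.inl (C0_edge q2 q3 h23 d e h3 h4)))
  rcases le_total t t4 with f | f
  · exact Or.inr (Or.inr (Or.inr (C0_edge q3 q4 h34 e f h3 h4)))
  · exact Or.inr (Or.inr (Or.inr (C0_end l0 l1 h34 l2 l3 f hn)))

/-- the cross product in the coordinates of a unit vector -/
private lemma C0_cr {u : ℂ} (hu : normSq u = 1) (a b y : ℂ) :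
    cr (b - a) (y - a) = (dt u b - dt u a) * (cr u y - cr u a)
      - (cr u b - cr u a) * (dt u y - dt u a) := by
  rw [normSq_apply] at hu
  simp only [cr, dt, Complex.sub_re, Complex.sub_im]
  linear_combination (-((b.re - a.re) * (y.im - a.im) - (b.im - a.im) * (y.re - a.re))) * hu

private lemma C0_ns {u : ℂ} (hu : normSq u = 1) (y : ℂ) :
    normSq y = dt u y ^ 2 + cr u y ^ 2 := by
  rw [normSq_apply] at hu ⊢
  simp only [cr, dt]
  linear_combination (-(y.re * y.re + y.im * y.im)) * hu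

private lemma C0_uu (j : Fin 3) : normSq (uu j) = 1 := by
  have h := s3_mul
  fin_cases j
  · show normSq (1 : ℂ) = 1
    simp
  · show normSq (⟨-1 / 2, s3 / 2⟩ : ℂ) = 1
    rw [normSq_mk]; linear_combination (1 / 4 : ℝ) * h
  · show normSq (⟨-1 / 2, -(s3 / 2)⟩ : ℂ) = 1
    rw [normSq_mk]; linear_combination (1 / 4 : ℝ) * h

/-- coordinates of `y` along `uu j` -/
private lemma C0_side {j : Fin 3} {a b c d e y : ℂ} (hy : Dom y)
    (q0 : (1 - 2 * dt (uu j) a) ^ 2 < 59 / 1000 * (1 - normSq a))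
    (q1 : (1 - 2 * dt (uu j) b) ^ 2 < 59 / 1000 * (1 - normSq b))
    (q2 : (1 - 2 * dt (uu j) c) ^ 2 < 59 / 1000 * (1 - normSq c))
    (q3 : (1 - 2 * dt (uu j) d) ^ 2 < 59 / 1000 * (1 - normSq d))
    (q4 : (1 - 2 * dt (uu j) e) ^ 2 < 59 / 1000 * (1 - normSq e))
    (h01 : cr (uu j) a < cr (uu j) b) (h12 : cr (uu j) b < cr (uu j) c)
    (h23 : cr (uu j) c < cr (uu j) d) (h34 : cr (uu j) d < cr (uu j) e)
    (k0 : 0 < dt (uu j) a) (k1 : cr (uu j) a < 0) (k2 : dt (uu j) b ≤ dt (uu j) a)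
    (k3 : (8887 / 10000) ^ 2 < normSq a)
    (l0 : 0 < dt (uu j) e) (l1 : 0 < cr (uu j) e) (l2 : dt (uu j) d ≤ dt (uu j) e)
    (l3 : (8887 / 10000) ^ 2 < normSq e) :
    0 ≤ cr (b - a) (y - a) ∨ 0 ≤ cr (c - b) (y - b) ∨ 0 ≤ cr (d - c) (y - c) ∨
      0 ≤ cr (e - d) (y - d) := by
  have hu := C0_uu j
  have hn := dom_norm hy
  have hn2 : normSq y ≤ (8887 / 10000) ^ 2 := by
    rw [normSq_eq_norm_sq]
    exact pow_le_pow_left₀ (norm_nonneg y) hn 2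
  obtain ⟨g1, g2⟩ := hy j
  rw [C0_ns hu] at q0 q1 q2 q3 q4 k3 l3 hn2 g2
  rw [C0_cr hu, C0_cr hu, C0_cr hu, C0_cr hu]
  exact C0_chain q0 q1 q2 q3 q4 h01 h12 h23 h34 k0 k1 k2 k3 l0 l1 l2 l3 hn2 g1 g2

/-! ## The vertices -/

private lemma C0_dt0 (y : ℂ) : dt (uu 0) y = y.re := by
  show (1 : ℂ).re * y.re + (1 : ℂ).im * y.im = y.re
  simp
private lemma C0_dt1 (y : ℂ) : dt (uu 1) y = -(y.re / 2) + s3 * y.im / 2 := by
  show (-1 / 2 : ℝ) * y.re + s3 / 2 * y.im = _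
  ring
private lemma C0_dt2 (y : ℂ) : dt (uu 2) y = -(y.re / 2) - s3 * y.im / 2 := by
  show (-1 / 2 : ℝ) * y.re + (-(s3 / 2)) * y.im = _
  ring
private lemma C0_cr0 (y : ℂ) : cr (uu 0) y = y.im := by
  show (1 : ℂ).re * y.im - (1 : ℂ).im * y.re = y.im
  simp
private lemma C0_cr1 (y : ℂ) : cr (uu 1) y = -(y.im / 2) - s3 * y.re / 2 := by
  show (-1 / 2 : ℝ) * y.im - s3 / 2 * y.re = _
  ring
private lemma C0_cr2 (y : ℂ) : cr (uu 2) y = -(y.im / 2) + s3 * y.re / 2 := by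
  show (-1 / 2 : ℝ) * y.im - (-(s3 / 2)) * y.re = _
  ring

private lemma C0_pg0 : pg 0 = ⟨4445 / 10000, -7699 / 10000⟩ := by
  have h1 : pgX 0 = 4445 := rfl
  have h2 : pgY 0 = -7699 := rfl
  unfold pg; rw [h1, h2]; norm_num
private lemma C0_pg1 : pg 1 = ⟨4130 / 10000, -5600 / 10000⟩ := by
  have h1 : pgX 1 = 4130 := rfl
  have h2 : pgY 1 = -5600 := rfl
  unfold pg; rw [h1, h2]; norm_num
private lemma C0_pg2 : pg 2 = ⟨3882 / 10000, 0⟩ := by
  have h1 : pgX 2 = 3882 := rfl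
  have h2 : pgY 2 = 0 := rfl
  unfold pg; rw [h1, h2]; norm_num
private lemma C0_pg3 : pg 3 = ⟨4130 / 10000, 5600 / 10000⟩ := by
  have h1 : pgX 3 = 4130 := rfl
  have h2 : pgY 3 = 5600 := rfl
  unfold pg; rw [h1, h2]; norm_num
private lemma C0_pg4 : pg 4 = ⟨4445 / 10000, 7699 / 10000⟩ := by
  have h1 : pgX 4 = 4445 := rfl
  have h2 : pgY 4 = 7699 := rfl
  unfold pg; rw [h1, h2]; norm_num
private lemma C0_pg5 : pg 5 = ⟨2785 / 10000, 6376 / 10000⟩ := by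
  have h1 : pgX 5 = 2785 := rfl
  have h2 : pgY 5 = 6376 := rfl
  unfold pg; rw [h1, h2]; norm_num
private lemma C0_pg6 : pg 6 = ⟨-1941 / 10000, 3362 / 10000⟩ := by
  have h1 : pgX 6 = -1941 := rfl
  have h2 : pgY 6 = 3362 := rfl
  unfold pg; rw [h1, h2]; norm_num
private lemma C0_pg7 : pg 7 = ⟨-6915 / 10000, 776 / 10000⟩ := by
  have h1 : pgX 7 = -6915 := rfl
  have h2 : pgY 7 = 776 := rfl
  unfold pg; rw [h1, h2]; norm_num
private lemma C0_pg8 : pg 8 = ⟨-8890 / 10000, 0⟩ := by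
  have h1 : pgX 8 = -8890 := rfl
  have h2 : pgY 8 = 0 := rfl
  unfold pg; rw [h1, h2]; norm_num
private lemma C0_pg9 : pg 9 = ⟨-6915 / 10000, -776 / 10000⟩ := by
  have h1 : pgX 9 = -6915 := rfl
  have h2 : pgY 9 = -776 := rfl
  unfold pg; rw [h1, h2]; norm_num
private lemma C0_pg10 : pg 10 = ⟨-1941 / 10000, -3362 / 10000⟩ := by
  have h1 : pgX 10 = -1941 := rfl
  have h2 : pgY 10 = -3362 := rfl
  unfold pg; rw [h1, h2]; norm_num
private lemma C0_pg11 : pg 11 = ⟨2785 / 10000, -6376 / 10000⟩ := by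
  have h1 : pgX 11 = 2785 := rfl
  have h2 : pgY 11 = -6376 := rfl
  unfold pg; rw [h1, h2]; norm_num

private lemma C0_q1 {x y : ℝ} (h : 941 / 1000 + 2 * x + 1059 / 1000 * x ^ 2
    + 3059 / 1000 * y ^ 2 - 2 * s3 * (y * (1 + x)) < 0) :
    (1 - 2 * dt (uu 1) ⟨x, y⟩) ^ 2 < 59 / 1000 * (1 - normSq (⟨x, y⟩ : ℂ)) := by
  rw [C0_dt1, normSq_mk]
  have e : (1 - 2 * (-(x / 2) + s3 * y / 2)) ^ 2 - 59 / 1000 * (1 - (x * x + y * y)) =
      941 / 1000 + 2 * x + 1059 / 1000 * x ^ 2 + 3059 / 1000 * y ^ 2 - 2 * s3 * (y * (1 + x)) := by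
    linear_combination (y ^ 2) * s3_mul
  simp only
  linarith

private lemma C0_q2 {x y : ℝ} (h : 941 / 1000 + 2 * x + 1059 / 1000 * x ^ 2
    + 3059 / 1000 * y ^ 2 + 2 * s3 * (y * (1 + x)) < 0) :
    (1 - 2 * dt (uu 2) ⟨x, y⟩) ^ 2 < 59 / 1000 * (1 - normSq (⟨x, y⟩ : ℂ)) := by
  rw [C0_dt2, normSq_mk]
  have e : (1 - 2 * (-(x / 2) - s3 * y / 2)) ^ 2 - 59 / 1000 * (1 - (x * x + y * y)) =
      941 / 1000 + 2 * x + 1059 / 1000 * x ^ 2 + 3059 / 1000 * y ^ 2 + 2 * s3 * (y * (1 + x)) := by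
    linear_combination (y ^ 2) * s3_mul
  simp only
  linarith

/-- a point of the domain is on the left of one of the edges of each side -/
theorem dom_side {y : ℂ} (hy : Dom y) (j : Fin 3) : ∃ l, sd l = j ∧ 0 ≤ Lg l y := by
  have s1 := s3_gt
  have s2 := s3_lt
  have e3 : ∀ l : Fin 12, Lg l y = cr (pg (l + 1) - pg l) (y - pg l) := fun l => rfl
  fin_cases j
  · have h : 0 ≤ cr (pg 1 - pg 0) (y - pg 0) ∨ 0 ≤ cr (pg 2 - pg 1) (y - pg 1) ∨
        0 ≤ cr (pg 3 - pg 2) (y - pg 2) ∨ 0 ≤ cr (pg 4 - pg 3) (y - pg 3) := by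
      rw [C0_pg0, C0_pg1, C0_pg2, C0_pg3, C0_pg4]
      refine C0_side (j := 0) hy ?_ ?_ ?_ ?_ ?_ ?_ ?_ ?_ ?_ ?_ ?_ ?_ ?_ ?_ ?_ ?_ ?_ <;>
        (simp only [C0_dt0, C0_cr0, normSq_mk]; norm_num)
    rcases h with h | h | h | h
    · exact ⟨0, rfl, h⟩
    · exact ⟨1, rfl, h⟩
    · exact ⟨2, rfl, h⟩
    · exact ⟨3, rfl, h⟩
  · have h : 0 ≤ cr (pg 5 - pg 4) (y - pg 4) ∨ 0 ≤ cr (pg 6 - pg 5) (y - pg 5) ∨
        0 ≤ cr (pg 7 - pg 6) (y - pg 6) ∨ 0 ≤ cr (pg 8 - pg 7) (y - pg 7) := by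
      rw [C0_pg4, C0_pg5, C0_pg6, C0_pg7, C0_pg8]
      refine C0_side (j := 1) hy ?_ ?_ ?_ ?_ ?_ ?_ ?_ ?_ ?_ ?_ ?_ ?_ ?_ ?_ ?_ ?_ ?_
      · apply C0_q1; norm_num; linarith
      · apply C0_q1; norm_num; linarith
      · apply C0_q1; norm_num; linarith
      · apply C0_q1; norm_num; linarith
      · apply C0_q1; norm_num
      all_goals (simp only [C0_dt1, C0_cr1, normSq_mk]; first | (norm_num; done) | linarith)
    rcases h with h | h | h | h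
    · exact ⟨4, rfl, h⟩
    · exact ⟨5, rfl, h⟩
    · exact ⟨6, rfl, h⟩
    · exact ⟨7, rfl, h⟩
  · have h : 0 ≤ cr (pg 9 - pg 8) (y - pg 8) ∨ 0 ≤ cr (pg 10 - pg 9) (y - pg 9) ∨
        0 ≤ cr (pg 11 - pg 10) (y - pg 10) ∨ 0 ≤ cr (pg 0 - pg 11) (y - pg 11) := by
      rw [C0_pg8, C0_pg9, C0_pg10, C0_pg11, C0_pg0]
      refine C0_side (j := 2) hy ?_ ?_ ?_ ?_ ?_ ?_ ?_ ?_ ?_ ?_ ?_ ?_ ?_ ?_ ?_ ?_ ?_
      · apply C0_q2; norm_num
      · apply C0_q2; norm_num; linarith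
      · apply C0_q2; norm_num; linarith
      · apply C0_q2; norm_num; linarith
      · apply C0_q2; norm_num; linarith
      all_goals (simp only [C0_dt2, C0_cr2, normSq_mk]; first | (norm_num; done) | linarith)
    rcases h with h | h | h | h
    · exact ⟨8, rfl, h⟩
    · exact ⟨9, rfl, h⟩
    · exact ⟨10, rfl, h⟩
    · exact ⟨11, rfl, h⟩

/-- the chains are convex -/
theorem Lg_convex {l k : Fin 12} (h : sd l = sd k) : Lg k (pg l) ≤ 0 ∧ Lg k (pg (l + 1)) ≤ 0 := by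
  have e : ∀ l k : Fin 12, sd l = sd k →
      LgZ k (pgX l) (pgY l) ≤ 0 ∧ LgZ k (pgX (l + 1)) (pgY (l + 1)) ≤ 0 := by decide
  obtain ⟨h1, h2⟩ := e l k h
  unfold pg
  rw [Lg_int, Lg_int]
  have h1' : (LgZ k (pgX l) (pgY l) : ℝ) ≤ 0 := by exact_mod_cast h1
  have h2' : (LgZ k (pgX (l + 1)) (pgY (l + 1)) : ℝ) ≤ 0 := by exact_mod_cast h2
  constructor <;> linarith

/-! ## The arc -/

theorem oy_box {m : ℝ} (m0 : 0 ≤ m) (mm : m ≤ m1) :
    -1347 / 10000 ≤ (oy m).re ∧ (oy m).re ≤ -1213 / 10000 ∧ 0 ≤ (oy m).im ∧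
      (oy m).im ≤ 2102 / 10000 := by
  have hc0 : 1 ≤ Real.cosh m := Real.one_le_cosh m
  have hc1 : Real.cosh m ≤ Real.cosh m1 := by
    rw [Real.cosh_le_cosh, abs_of_nonneg m0, abs_of_nonneg (m0.trans mm)]; exact mm
  have hs0 : 0 ≤ Real.sinh m := Real.sinh_nonneg_iff.mpr m0
  have hs1 : Real.sinh m ≤ Real.sinh m1 := Real.sinh_le_sinh.mpr mm
  have hk := kp_pos
  have hk2 := kp_sq
  have e1 := kp_mul_cosh_m1
  have e2 := kp_mul_sinh_m1
  have r1 : (1414213 / 1000000 : ℝ) < Real.sqrt 2 := by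
    rw [Real.lt_sqrt (by norm_num)]; norm_num
  have r2 : Real.sqrt 2 < (1414214 / 1000000 : ℝ) := by
    rw [Real.sqrt_lt' (by norm_num)]; norm_num
  have k1 : (16817 / 10000 : ℝ) < kp := by
    by_contra h
    push Not at h
    have : kp ^ 2 ≤ (16817 / 10000) ^ 2 := pow_le_pow_left₀ hk.le h 2
    linarith
  have k2 : kp < (16819 / 10000 : ℝ) := by
    by_contra h
    push Not at h
    have : (16819 / 10000 : ℝ) ^ 2 ≤ kp ^ 2 := pow_le_pow_left₀ (by norm_num) h 2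
    linarith
  have c0 : kp ≤ kp * Real.cosh m := by
    have := mul_le_mul_of_nonneg_left hc0 hk.le
    linarith
  have c1 : kp * Real.cosh m ≤ kp * Real.cosh m1 := mul_le_mul_of_nonneg_left hc1 hk.le
  have d0 : 0 ≤ kp * Real.sinh m := by positivity
  have d1 : kp * Real.sinh m ≤ kp * Real.sinh m1 := mul_le_mul_of_nonneg_left hs1 hk.le
  have g1 := s3_gt
  have g2 := s3_lt
  have er : (oy m).re = (kp * Real.cosh m - 2) / (2 * kp * Real.cosh m - 1) := rfl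
  have ei : (oy m).im = s3 * kp * Real.sinh m / (2 * kp * Real.cosh m - 1) := rfl
  have hD : 0 < 2 * kp * Real.cosh m - 1 := by linarith
  rw [er, ei]
  refine ⟨?_, ?_, ?_, ?_⟩
  · rw [le_div_iff₀ hD]; linarith
  · rw [div_le_iff₀ hD]; linarith
  · apply div_nonneg _ hD.le
    rw [mul_assoc]; exact mul_nonneg s3_pos.le d0
  · rw [div_le_iff₀ hD]
    have hid : (kp * Real.cosh m) ^ 2 - (kp * Real.sinh m) ^ 2 = 2 * Real.sqrt 2 := by
      have := Real.cosh_sq m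
      rw [mul_pow, mul_pow, this, ← hk2]; ring
    have hR : (0 : ℝ) ≤ 2102 / 10000 * (2 * kp * Real.cosh m - 1) := by positivity
    refine le_of_sq_le_sq ?_ hR
    have e3 : (s3 * kp * Real.sinh m) ^ 2 = 3 * ((kp * Real.cosh m) ^ 2 - 2 * Real.sqrt 2) := by
      have : (s3 * kp * Real.sinh m) ^ 2 = s3 ^ 2 * (kp * Real.sinh m) ^ 2 := by ring
      rw [this, s3_sq]; linarith
    rw [e3]
    have hC : kp * Real.cosh m ≤ 17071070 / 10000000 := by linarith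
    have h0 : (0 : ℝ) ≤ (17071070 / 10000000 - kp * Real.cosh m) *
        (kp * Real.cosh m + 17071070 / 10000000 - 1) := mul_nonneg (by linarith) (by linarith)
    nlinarith

/-- the arc is on the left of all the edges -/
theorem Lg_oy {m : ℝ} (m0 : 0 ≤ m) (mm : m ≤ m1) (l : Fin 12) : 0 < Lg l (oy m) := by
  obtain ⟨h1, h2, h3, h4⟩ := oy_box m0 mm
  have e : ∀ l : Fin 12, 0 < LgZ l (-1347) 0 ∧ 0 < LgZ l (-1347) 2102 ∧
      0 < LgZ l (-1213) 0 ∧ 0 < LgZ l (-1213) 2102 := by decide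
  obtain ⟨a1, a2, a3, a4⟩ := e l
  have key : ∀ X Y : ℤ, 0 < LgZ l X Y → 0 < Lg l ⟨(X : ℝ) / 10000, (Y : ℝ) / 10000⟩ := by
    intro X Y h
    rw [Lg_int]
    have : (0 : ℝ) < (LgZ l X Y : ℝ) := by exact_mod_cast h
    positivity
  have b1 := key _ _ a1
  have b2 := key _ _ a2
  have b3 := key _ _ a3
  have b4 := key _ _ a4
  rw [Lg_eq] at b1 b2 b3 b4 ⊢
  generalize (pgX (l + 1) : ℝ) / 10000 - (pgX l : ℝ) / 10000 = ex at *
  generalize (pgY (l + 1) : ℝ) / 10000 - (pgY l : ℝ) / 10000 = ey at *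
  generalize (pgX l : ℝ) / 10000 = px at *
  generalize (pgY l : ℝ) / 10000 = py at *
  push_cast at b1 b2 b3 b4
  -- affine function positive at the four corners of the box
  rcases le_total 0 ex with hx | hx <;> rcases le_total 0 ey with hy | hy
  · have p1 := mul_nonneg hx h3
    have p2 := mul_nonneg hy (by linarith : 0 ≤ -1213 / 10000 - (oy m).re)
    linarith
  · have p1 := mul_nonneg hx h3
    have p2 := mul_nonneg (by linarith : 0 ≤ -ey) (by linarith : 0 ≤ (oy m).re - -1347 / 10000)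
    linarith
  · have p1 := mul_nonneg (by linarith : 0 ≤ -ex) (by linarith : 0 ≤ 2102 / 10000 - (oy m).im)
    have p2 := mul_nonneg hy (by linarith : 0 ≤ -1213 / 10000 - (oy m).re)
    linarith
  · have p1 := mul_nonneg (by linarith : 0 ≤ -ex) (by linarith : 0 ≤ 2102 / 10000 - (oy m).im)
    have p2 := mul_nonneg (by linarith : 0 ≤ -ey) (by linarith : 0 ≤ (oy m).re - -1347 / 10000)
    linarith

end Pool.H61.Rh
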