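import Pool.Agent.H61.Re.C0

/-! # C1: the sectors cover the domain -/

set_option autoImplicit false

namespace Pool.H61.Rh

open Complex

/-- the point `s` of the edge `l`, seen from `oy m` -/
noncomputable def xh (l : Fin 12) (m s : ℝ) : ℂ := pg l + (s : ℂ) * (pg (l + 1) - pg l) - oy m

/-- a point of the sector `l` -/
noncomputable def xs (l : Fin 12) (m r s : ℝ) : ℂ := (r : ℂ) * xh l m s

private lemma C1_cr_eq (l : Fin 12) (y : ℂ) : cr (pg l - y) (pg (l + 1) - y) = Lg l y := by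
  unfold Lg
  simp only [cr, Complex.sub_re, Complex.sub_im]
  ring

/-- the three corners surround the arc -/
private lemma C1_corners {m : ℝ} (m0 : 0 ≤ m) (mm : m ≤ m1) :
    0 < cr (pg 0 - oy m) (pg 4 - oy m) ∧ 0 < cr (pg 4 - oy m) (pg 8 - oy m) ∧
      0 < cr (pg 8 - oy m) (pg 0 - oy m) := by
  obtain ⟨h1, h2, h3, h4⟩ := oy_box m0 mm
  have x0 : (pg 0).re = ((4445 : ℤ) : ℝ) / 10000 := rfl
  have y0 : (pg 0).im = ((-7699 : ℤ) : ℝ) / 10000 := rfl
  have x4 : (pg 4).re = ((4445 : ℤ) : ℝ) / 10000 := rfl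
  have y4 : (pg 4).im = ((7699 : ℤ) : ℝ) / 10000 := rfl
  have x8 : (pg 8).re = ((-8890 : ℤ) : ℝ) / 10000 := rfl
  have y8 : (pg 8).im = ((0 : ℤ) : ℝ) / 10000 := rfl
  push_cast at x0 y0 x4 y4 x8 y8
  simp only [cr, Complex.sub_re, Complex.sub_im, x0, y0, x4, y4, x8, y8]
  refine ⟨?_, ?_, ?_⟩ <;> linarith

private lemma C1_cone {m : ℝ} (m0 : 0 ≤ m) (mm : m ≤ m1) (x : ℂ) :
    ∃ l : Fin 12, 0 ≤ cr (pg l - oy m) x ∧ cr (pg (l + 1) - oy m) x ≤ 0 := by
  by_contra hc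
  push Not at hc
  obtain ⟨k1, k2, k3⟩ := C1_corners m0 mm
  have hid : cr (pg 4 - oy m) (pg 8 - oy m) * cr (pg 0 - oy m) x +
      cr (pg 8 - oy m) (pg 0 - oy m) * cr (pg 4 - oy m) x +
      cr (pg 0 - oy m) (pg 4 - oy m) * cr (pg 8 - oy m) x = 0 := by
    simp only [cr, Complex.sub_re, Complex.sub_im]
    ring
  by_cases h : ∃ l0 : Fin 12, 0 ≤ cr (pg l0 - oy m) x
  · obtain ⟨l0, hl⟩ := h
    have h1 : ∀ n : ℕ, 0 < cr (pg (l0 + 1 + n • (1 : Fin 12)) - oy m) x := by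
      intro n
      induction n with
      | zero => simpa using hc l0 hl
      | succ n ih =>
        have := hc _ ih.le
        rwa [succ_nsmul, ← add_assoc]
    have h2 : ∀ k : Fin 12, 0 < cr (pg k - oy m) x := by
      intro k
      have := h1 (k - (l0 + 1)).val
      have e : ∀ l k : Fin 12, l + 1 + (k - (l + 1)).val • (1 : Fin 12) = k := by decide
      rwa [e] at this
    have p1 := mul_pos k2 (h2 0)
    have p2 := mul_pos k3 (h2 4)
    have p3 := mul_pos k1 (h2 8)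
    linarith
  · push Not at h
    have p1 := mul_neg_of_pos_of_neg k2 (h 0)
    have p2 := mul_neg_of_pos_of_neg k3 (h 4)
    have p3 := mul_neg_of_pos_of_neg k1 (h 8)
    linarith

/-- **the sectors cover the domain** -/
theorem sector_cover {m : ℝ} (m0 : 0 ≤ m) (mm : m ≤ m1) {y : ℂ} (hy : Dom y) :
    ∃ l : Fin 12, ∃ r s : ℝ, 0 ≤ r ∧ r ≤ 1 ∧ 0 ≤ s ∧ s ≤ 1 ∧ y - oy m = xs l m r s := by
  obtain ⟨l, hl1, hl2⟩ := C1_cone m0 mm (y - oy m)
  have hL := Lg_oy m0 mm l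
  have hLe := C1_cr_eq l (oy m)
  obtain ⟨A, hA⟩ : ∃ A, A = pg l - oy m := ⟨_, rfl⟩
  obtain ⟨B, hB⟩ : ∃ B, B = pg (l + 1) - oy m := ⟨_, rfl⟩
  rw [← hA] at hl1 hLe
  rw [← hB] at hl2 hLe
  obtain ⟨x, hx⟩ : ∃ x, x = y - oy m := ⟨_, rfl⟩
  rw [← hx] at hl1 hl2
  have hAB : 0 < cr A B := by rw [hLe]; exact hL
  obtain ⟨α, hα⟩ : ∃ α, α = -cr B x / cr A B := ⟨_, rfl⟩
  obtain ⟨β, hβ⟩ : ∃ β, β = cr A x / cr A B := ⟨_, rfl⟩
  have α0 : 0 ≤ α := by rw [hα]; exact div_nonneg (by linarith) hAB.le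
  have β0 : 0 ≤ β := by rw [hβ]; exact div_nonneg hl1 hAB.le
  have hxe : x = (α : ℂ) * A + (β : ℂ) * B := by
    have hne : cr A B ≠ 0 := hAB.ne'
    have e1 : α * cr A B = -cr B x := by rw [hα]; field_simp
    have e2 : β * cr A B = cr A x := by rw [hβ]; field_simp
    apply Complex.ext
    · apply mul_left_cancel₀ hne
      simp only [Complex.add_re, Complex.mul_re, Complex.ofReal_re, Complex.ofReal_im]
      have : cr A B * (α * A.re - 0 * A.im + (β * B.re - 0 * B.im)) =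
        (α * cr A B) * A.re + (β * cr A B) * B.re := by ring
      rw [this, e1, e2]
      simp only [cr]; ring
    · apply mul_left_cancel₀ hne
      simp only [Complex.add_im, Complex.mul_im, Complex.ofReal_re, Complex.ofReal_im]
      have : cr A B * (α * A.im + 0 * A.re + (β * B.im + 0 * B.re)) =
        (α * cr A B) * A.im + (β * cr A B) * B.im := by ring
      rw [this, e1, e2]
      simp only [cr]; ring
  have hye : y = (α : ℂ) * pg l + (β : ℂ) * pg (l + 1) + ((1 - α - β : ℝ) : ℂ) * oy m := by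
    have : y = x + oy m := by rw [hx]; ring
    rw [this, hxe, hA, hB]
    push_cast
    ring
  have hk : ∀ k, Lg k y = α * Lg k (pg l) + β * Lg k (pg (l + 1)) + (1 - α - β) * Lg k (oy m) := by
    intro k
    conv_lhs => rw [hye]
    exact Lg_affine k α β (1 - α - β) _ _ _ (by ring)
  have hρ : α + β ≤ 1 := by
    by_contra h
    push Not at h
    obtain ⟨k, hk1, hk2⟩ := dom_side hy (sd l)
    obtain ⟨c1, c2⟩ := Lg_convex hk1.symm
    have hk3 := Lg_oy m0 mm k
    rw [hk k] at hk2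
    have p1 : α * Lg k (pg l) ≤ 0 := mul_nonpos_of_nonneg_of_nonpos α0 c1
    have p2 : β * Lg k (pg (l + 1)) ≤ 0 := mul_nonpos_of_nonneg_of_nonpos β0 c2
    have p3 : (1 - α - β) * Lg k (oy m) < 0 := mul_neg_of_neg_of_pos (by linarith) hk3
    linarith
  rcases eq_or_lt_of_le (add_nonneg α0 β0) with h0 | h0
  · refine ⟨l, 0, 0, le_refl _, zero_le_one, le_refl _, zero_le_one, ?_⟩
    have a0 : α = 0 := by linarith
    have b0 : β = 0 := by linarith
    rw [← hx, hxe, a0, b0]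
    unfold xs
    simp
  · refine ⟨l, α + β, β / (α + β), h0.le, hρ, div_nonneg β0 h0.le, ?_, ?_⟩
    · rw [div_le_one h0]; linarith
    · rw [← hx, hxe]
      unfold xs xh
      have hne : ((α + β : ℝ) : ℂ) ≠ 0 := by exact_mod_cast h0.ne'
      rw [hA, hB]
      push_cast at hne ⊢
      field_simp
      ring

end Pool.H61.Rh
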