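import Pool.Agent.H61.Re.C1
import Pool.Agent.H61.Re.G2

/-! # C2: from the sectors to all points of the domain; the zone of the next vertex -/

set_option autoImplicit false

namespace Pool.H61.Rh

open Complex

/-- some constants satisfy the inequalities at the point `(r, s)` of the sector `l` -/
def SecZ (d : VD) (ν : ℝ) (j : Fin 3) (l : Fin 12) (m r s : ℝ) : Prop :=
  ∃ z : ZC, z.Ok ν ∧ (d.pt m).Z ν z (xs l m r s) (Vx (oy m + xs l m r s) j)
    (1 - 2 * dt (uu j) (oy m + xs l m r s))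

/-- bound of the coordinates of `xh l m s` for `3/4 m1 ≤ m ≤ m1`, unit `10⁻⁴` -/
def KxZ : Fin 12 → ℤ :=
  ![9801, 7702, 5402, 6135, 6135, 4812, 5702, 7677, 7677, 5702, 8478, 9801]

/-- bound of the coordinates of `xh l m s` for `3/4 m1 ≤ m ≤ m1` -/
noncomputable def Kx (l : Fin 12) : ℝ := (KxZ l : ℝ) / 10000

private lemma C2_box {m : ℝ} (m0 : 3 / 4 * m1 ≤ m) (mm : m ≤ m1) :
    -1272 / 10000 ≤ (oy m).re ∧ (oy m).re ≤ -1213 / 10000 ∧ 1564 / 10000 ≤ (oy m).im ∧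
      (oy m).im ≤ 2102 / 10000 := by
  have hm := m1_bounds
  have hm0 : 0 ≤ m := by linarith
  obtain ⟨a1, a2, a3, a4⟩ := oy_box hm0 mm
  refine ⟨?_, a2, ?_, a4⟩
  all_goals
    have hc1 : Real.cosh m ≤ Real.cosh m1 := by
      rw [Real.cosh_le_cosh, abs_of_nonneg hm0, abs_of_nonneg (hm0.trans mm)]; exact mm
    have hs0 : m ≤ Real.sinh m := Real.self_le_sinh_iff.mpr hm0
    have hk := kp_pos
    have hk2 := kp_sq
    have e1 := kp_mul_cosh_m1
    have r1 : (1414213 / 1000000 : ℝ) < Real.sqrt 2 := by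
      rw [Real.lt_sqrt (by norm_num)]; norm_num
    have r2 : Real.sqrt 2 < (1414214 / 1000000 : ℝ) := by
      rw [Real.sqrt_lt' (by norm_num)]; norm_num
    have k1 : (168179 / 100000 : ℝ) < kp := by
      by_contra h
      push Not at h
      have : kp ^ 2 ≤ (168179 / 100000) ^ 2 := pow_le_pow_left₀ hk.le h 2
      linarith
    have hmm : (1297 / 10000 : ℝ) ≤ m := by linarith
    have hcc : (100837 / 100000 : ℝ) ≤ Real.cosh m := by
      have h1 := Real.cosh_sq m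
      have h2 : (1297 / 10000 : ℝ) ^ 2 ≤ Real.sinh m ^ 2 :=
        pow_le_pow_left₀ (by norm_num) (by linarith) 2
      exact le_of_sq_le_sq (by linarith) (by linarith [Real.one_le_cosh m])
    have c1 : kp * Real.cosh m ≤ kp * Real.cosh m1 := mul_le_mul_of_nonneg_left hc1 hk.le
    have hD : 0 < 2 * kp * Real.cosh m - 1 := by
      have := mul_le_mul k1.le hcc (by norm_num) hk.le
      linarith
  · have er : (oy m).re = (kp * Real.cosh m - 2) / (2 * kp * Real.cosh m - 1) := rfl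
    rw [er, le_div_iff₀ hD]
    have h2 : (168179 / 100000 : ℝ) * (100837 / 100000) ≤ kp * Real.cosh m :=
      mul_le_mul k1.le hcc (by norm_num) hk.le
    linarith
  · have ei : (oy m).im = s3 * kp * Real.sinh m / (2 * kp * Real.cosh m - 1) := rfl
    rw [ei, le_div_iff₀ hD]
    have g1 := s3_gt
    have h1 : (168179 / 100000 : ℝ) * (1297 / 10000) ≤ kp * Real.sinh m :=
      mul_le_mul k1.le (by linarith) (by norm_num) hk.le
    have h2 : (17320508 / 10000000 : ℝ) * (168179 / 100000 * (1297 / 10000)) ≤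
        s3 * (kp * Real.sinh m) := mul_le_mul g1.le h1 (by norm_num) (by linarith)
    linarith

theorem xh_bound {m : ℝ} (m0 : 3 / 4 * m1 ≤ m) (mm : m ≤ m1) (l : Fin 12) {s : ℝ} (s0 : 0 ≤ s)
    (s1 : s ≤ 1) : |(xh l m s).re| ≤ Kx l ∧ |(xh l m s).im| ≤ Kx l := by
  obtain ⟨h1, h2, h3, h4⟩ := C2_box m0 mm
  have e : ∀ l : Fin 12, ∀ k : Fin 12, (k = l ∨ k = l + 1) →
      pgX k + 1272 ≤ KxZ l ∧ -KxZ l ≤ pgX k + 1213 ∧
      pgY k - 1564 ≤ KxZ l ∧ -KxZ l ≤ pgY k - 2102 := by decide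
  have key : ∀ k : Fin 12, (k = l ∨ k = l + 1) →
      (pgX k : ℝ) / 10000 + 1272 / 10000 ≤ Kx l ∧ -Kx l ≤ (pgX k : ℝ) / 10000 + 1213 / 10000 ∧
      (pgY k : ℝ) / 10000 - 1564 / 10000 ≤ Kx l ∧ -Kx l ≤ (pgY k : ℝ) / 10000 - 2102 / 10000 := by
    intro k hk
    obtain ⟨a1, a2, a3, a4⟩ := e l k hk
    have b1 : ((pgX k : ℤ) : ℝ) + 1272 ≤ (KxZ l : ℝ) := by exact_mod_cast a1
    have b2 : -(KxZ l : ℝ) ≤ (pgX k : ℝ) + 1213 := by exact_mod_cast a2
    have b3 : ((pgY k : ℤ) : ℝ) - 1564 ≤ (KxZ l : ℝ) := by exact_mod_cast a3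
    have b4 : -(KxZ l : ℝ) ≤ (pgY k : ℝ) - 2102 := by exact_mod_cast a4
    unfold Kx
    refine ⟨?_, ?_, ?_, ?_⟩ <;> linarith
  obtain ⟨a1, a2, a3, a4⟩ := key l (Or.inl rfl)
  obtain ⟨b1, b2, b3, b4⟩ := key (l + 1) (Or.inr rfl)
  have er : (xh l m s).re = (1 - s) * ((pgX l : ℝ) / 10000) +
      s * ((pgX (l + 1) : ℝ) / 10000) - (oy m).re := by
    unfold xh pg
    simp only [Complex.add_re, Complex.sub_re, Complex.mul_re, Complex.ofReal_re,
      Complex.ofReal_im]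
    ring
  have ei : (xh l m s).im = (1 - s) * ((pgY l : ℝ) / 10000) +
      s * ((pgY (l + 1) : ℝ) / 10000) - (oy m).im := by
    unfold xh pg
    simp only [Complex.add_im, Complex.sub_im, Complex.mul_im, Complex.ofReal_re,
      Complex.ofReal_im]
    ring
  rw [er, ei, abs_le, abs_le]
  have t0 : 0 ≤ 1 - s := by linarith
  have p1 := mul_le_mul_of_nonneg_left a1 t0
  have p2 := mul_le_mul_of_nonneg_left a2 t0
  have p3 := mul_le_mul_of_nonneg_left a3 t0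
  have p4 := mul_le_mul_of_nonneg_left a4 t0
  have q1 := mul_le_mul_of_nonneg_left b1 s0
  have q2 := mul_le_mul_of_nonneg_left b2 s0
  have q3 := mul_le_mul_of_nonneg_left b3 s0
  have q4 := mul_le_mul_of_nonneg_left b4 s0
  refine ⟨⟨?_, ?_⟩, ?_, ?_⟩ <;> linarith

/-- **reduction to the sectors** -/
theorem Z_of_sectors {d : VD} {ν ρ : ℝ} {r0 : Fin 12 → ℝ}
    (hr : ∀ l, 0 ≤ r0 l ∧ r0 l * Kx l ≤ ρ)
    (h01 : ∀ j : Fin 3, j ≠ 2 → ∀ l m r s, 0 ≤ m → m ≤ m1 → 0 ≤ r → r ≤ 1 → 0 ≤ s → s ≤ 1 →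
      Dom (oy m + xs l m r s) → SecZ d ν j l m r s)
    (h2 : ∀ l m r s, 0 ≤ m → m ≤ m1 → 0 ≤ r → r ≤ 1 → 0 ≤ s → s ≤ 1 →
      Dom (oy m + xs l m r s) → (m ≤ 3 / 4 * m1 ∨ r0 l ≤ r) → SecZ d ν 2 l m r s)
    (hN : ∀ l m r s, 3 / 4 * m1 ≤ m → m ≤ m1 → 0 ≤ r → r ≤ 1 → 0 ≤ s → s ≤ 1 →
      Dom (oy m + xs l m r s) → r ≤ r0 l → |(xs l m r s).re| ≤ ρ → |(xs l m r s).im| ≤ ρ →
      SecZ d ν 2 l m r s) :
    ∀ m, 0 ≤ m → m ≤ m1 → ∀ y : ℂ, Dom y → ∀ j : Fin 3, ∃ z : ZC, z.Ok ν ∧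
      (d.pt m).Z ν z (y - oy m) (Vx y j) (1 - 2 * dt (uu j) y) := by
  intro m m0 mm y hy j
  obtain ⟨l, r, s, r0', r1, s0, s1, hx⟩ := sector_cover m0 mm hy
  have hyx : y = oy m + xs l m r s := by rw [← hx]; ring
  have hconv : SecZ d ν j l m r s → ∃ z : ZC, z.Ok ν ∧
      (d.pt m).Z ν z (y - oy m) (Vx y j) (1 - 2 * dt (uu j) y) := by
    intro h
    unfold SecZ at h
    rw [← hyx, ← hx] at h
    exact h
  by_cases hj : j = 2
  · by_cases h : m ≤ 3 / 4 * m1 ∨ r0 l ≤ r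
    · rw [hj] at hconv ⊢
      exact hconv (h2 l m r s m0 mm r0' r1 s0 s1 (by rw [← hyx]; exact hy) h)
    · push Not at h
      obtain ⟨g1, g2⟩ := h
      obtain ⟨b1, b2⟩ := xh_bound g1.le mm l s0 s1
      obtain ⟨c1, c2⟩ := hr l
      have hK : 0 ≤ Kx l := (abs_nonneg _).trans b1
      have hrho : r * Kx l ≤ ρ := (mul_le_mul_of_nonneg_right g2.le hK).trans c2
      have e1 : |(xs l m r s).re| ≤ ρ := by
        unfold xs
        rw [Complex.re_ofReal_mul, abs_mul, abs_of_nonneg r0']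
        exact (mul_le_mul_of_nonneg_left b1 r0').trans hrho
      have e2 : |(xs l m r s).im| ≤ ρ := by
        unfold xs
        rw [Complex.im_ofReal_mul, abs_mul, abs_of_nonneg r0']
        exact (mul_le_mul_of_nonneg_left b2 r0').trans hrho
      rw [hj] at hconv ⊢
      exact hconv (hN l m r s g1.le mm r0' r1 s0 s1 (by rw [← hyx]; exact hy) g2.le e1 e2)
  · exact hconv (h01 j hj l m r s m0 mm r0' r1 s0 s1 (by rw [← hyx]; exact hy))

/-- the function of the main inequality -/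
noncomputable def FF (d : VD) (ν R : ℝ) (j : Fin 3) (x : ℂ) (m : ℝ) : ℝ :=
  (4 * (R - ν) * (d.pt m).f x ^ 4 * ((d.pt m).Eh x (Vx (oy m + x) j)
      - ν * normSq x * (d.pt m).f x ^ 2)
    - normSq ((d.pt m).Gh x (Vx (oy m + x) j))) * (1 - 2 * dt (uu j) (oy m + x)) ^ 2

/-- **the zone of the next vertex**: the main inequality by monotonicity -/
theorem nearF {d : VD} {ν R : ℝ} {x : ℂ} {F' : ℝ → ℝ}
    (hd : ∀ m, 3 / 4 * m1 ≤ m → m ≤ m1 → HasDerivAt (FF d ν R 2 x) (F' m) m)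
    (hd0 : ∀ m, 3 / 4 * m1 ≤ m → m ≤ m1 → F' m ≤ 0)
    (h1 : 0 ≤ FF d ν R 2 x m1) {m : ℝ} (m0 : 3 / 4 * m1 ≤ m) (mm : m ≤ m1) :
    0 ≤ FF d ν R 2 x m := by
  have ha : AntitoneOn (FF d ν R 2 x) (Set.Icc (3 / 4 * m1) m1) := by
    apply antitoneOn_of_deriv_nonpos (convex_Icc _ _)
    · intro t ht
      exact (hd t ht.1 ht.2).continuousAt.continuousWithinAt
    · intro t ht
      rw [interior_Icc] at ht
      exact (hd t ht.1.le ht.2.le).differentiableAt.differentiableWithinAt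
    · intro t ht
      rw [interior_Icc] at ht
      rw [(hd t ht.1.le ht.2.le).deriv]
      exact hd0 t ht.1.le ht.2.le
  have hm1 : 3 / 4 * m1 ≤ m1 := by have := m1_bounds.1; linarith
  exact h1.trans (ha ⟨m0, mm⟩ ⟨hm1, le_refl _⟩ mm)

end Pool.H61.Rh
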