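import Pool.Agent.H61.Re.C2
import Pool.Agent.H61.Rz.Fi

/-! # C3: facts about the main inequality -/

set_option autoImplicit false

namespace Pool.H61.Rh

open Complex

lemma C3_oF_pos {m : ℝ} (hm : |m| ≤ m1) : 0 < oF m := by
  have hov := ov_norm_le hm
  have h1 := ka_abs' (y := oy m) hov
  have h2 : normSq (oy m) < 1 := by
    have h3 := oy_w m
    have h4 := oK_pos
    have h5 := oS_gt m
    have : 0 < 3 * oK / oS m ^ 2 := by positivity
    linarith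
  rw [normSq_eq_norm_sq] at h2
  have h3 : ‖oy m‖ < 1 := by nlinarith [norm_nonneg (oy m)]
  show 0 < fs (oy m) (ov m)
  rw [fs_eq]; linarith [neg_abs_le (ka (oy m) (ov m))]

lemma C3_d0 (m : ℝ) : 1 - 2 * (oy m).re ≠ 0 := by
  rw [oy_d0]
  have := oS_gt m
  positivity

lemma C3_oy_norm {m : ℝ} (m0 : 0 ≤ m) (mm : m ≤ m1) : ‖oy m‖ ≤ 1 / 4 := by
  obtain ⟨h1, h2, h3, h4⟩ := oy_box m0 mm
  have h : normSq (oy m) ≤ (1 / 4) ^ 2 := by
    rw [normSq_apply]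
    have a1 : (oy m).re * (oy m).re ≤ (1347 / 10000) * (1347 / 10000) := by nlinarith
    have a2 : (oy m).im * (oy m).im ≤ (2102 / 10000) * (2102 / 10000) := by nlinarith
    norm_num
    linarith
  rw [normSq_eq_norm_sq] at h
  exact le_of_sq_le_sq h (by norm_num)

/-- the main inequality is monotone in `R` -/
lemma FI_mono {P : Pt} {R R' : ℝ} {x : ℂ} {j : Fin 3} (h0 : 0 < R') (hR : R' ≤ R)
    (h : P.FI R' x j) : P.FI R x j := by
  unfold Pt.FI at h ⊢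
  obtain ⟨E, hE⟩ : ∃ E, E = P.Eh x (Vx (P.ys + x) j) - 1 / 8192 * normSq x * P.f x ^ 2 := ⟨_, rfl⟩
  obtain ⟨G, hG⟩ : ∃ G, G = normSq (P.Gh x (Vx (P.ys + x) j)) := ⟨_, rfl⟩
  obtain ⟨D, hD⟩ : ∃ D, D = 1 - 2 * dt (uu j) (P.ys + x) := ⟨_, rfl⟩
  have hG0 : 0 ≤ G := by rw [hG]; exact normSq_nonneg _
  rw [← hE, ← hG, ← hD] at h ⊢
  have hF : 0 ≤ P.f x ^ 4 := by positivity
  have e : (4 * R' * P.f x ^ 4 * E - G) * D ^ 2 =
      4 * R' * (P.f x ^ 4 * E * D ^ 2) - G * D ^ 2 := by ring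
  have hGD : 0 ≤ G * D ^ 2 := by positivity
  have h1 : 0 ≤ R' * (P.f x ^ 4 * E * D ^ 2) := by linarith
  have h2 : 0 ≤ P.f x ^ 4 * E * D ^ 2 := by
    rcases le_or_gt 0 (P.f x ^ 4 * E * D ^ 2) with hh | hh
    · exact hh
    · have := mul_neg_of_pos_of_neg h0 hh; linarith
  have h3 := mul_le_mul_of_nonneg_right hR h2
  have e2 : (4 * R * P.f x ^ 4 * E - G) * D ^ 2 =
      4 * R * (P.f x ^ 4 * E * D ^ 2) - G * D ^ 2 := by ring
  linarith

/-- the main inequality in terms of `FF` -/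
lemma FI_iff (d : VD) (m R : ℝ) (x : ℂ) (j : Fin 3) :
    (d.pt m).FI R x j ↔ 0 ≤ FF d (1 / 8192) (R + 1 / 8192) j x m := by
  unfold Pt.FI FF
  have e : R + 1 / 8192 - 1 / 8192 = R := by ring
  rw [e]
  exact Iff.rfl

end Pool.H61.Rh
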