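import Pool.Agent.H61.Re.C1

/-! # C4: sectors with another centre and a scaled polygon

`κ * pg l` are the vertices.  For a centre `c` in a box around the arc and a shift `δ` with
`‖δ‖ ≤ (κ - 1) * 325/1000`, every point `y + δ`, `y` in the domain, is `c + r (κ P - c)`,
`P` on an edge, `0 ≤ r ≤ 1`. -/

set_option autoImplicit false

namespace Pool.H61.Rh

open Complex

/-- the box of the centres -/
def CB (c : ℂ) : Prop :=
  -1380 / 10000 ≤ c.re ∧ c.re ≤ -1180 / 10000 ∧ -30 / 10000 ≤ c.im ∧ c.im ≤ 2130 / 10000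

/-- the point `s` of the edge `l` of the scaled polygon, seen from `c` -/
noncomputable def xk (κ : ℝ) (c : ℂ) (l : Fin 12) (s : ℝ) : ℂ :=
  (κ : ℂ) * (pg l + (s : ℂ) * (pg (l + 1) - pg l)) - c

/-- nonnegative on the left of the edge `l` of the scaled polygon -/
noncomputable def Lk (κ : ℝ) (l : Fin 12) (y : ℂ) : ℝ := Lg l y + (κ - 1) * Lg l 0

private lemma C4_cr_eq (κ : ℝ) (l : Fin 12) (y : ℂ) :
    cr ((κ : ℂ) * pg l - y) ((κ : ℂ) * pg (l + 1) - y) = κ * Lk κ l y := by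
  unfold Lk Lg
  simp only [cr, Complex.sub_re, Complex.sub_im, Complex.mul_re, Complex.mul_im,
    Complex.ofReal_re, Complex.ofReal_im, Complex.zero_re, Complex.zero_im]
  ring

private lemma C4_affine (κ : ℝ) (l : Fin 12) (a b c : ℝ) (x y z : ℂ) (h : a + b + c = 1) :
    Lk κ l ((a : ℂ) * x + (b : ℂ) * y + (c : ℂ) * z) =
      a * Lk κ l x + b * Lk κ l y + c * Lk κ l z := by
  unfold Lk
  rw [Lg_affine l a b c x y z h]
  have hc : c = 1 - a - b := by linarith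
  rw [hc]; ring

private lemma C4_int (l : Fin 12) (X Y : ℤ) (h : 0 < LgZ l X Y) :
    0 < Lg l ⟨(X : ℝ) / 10000, (Y : ℝ) / 10000⟩ := by
  rw [Lg_int]
  have : (0 : ℝ) < (LgZ l X Y : ℝ) := by exact_mod_cast h
  positivity

lemma Lg_zero (l : Fin 12) : 0 < Lg l 0 := by
  have e : ∀ l : Fin 12, 0 < LgZ l 0 0 := by decide
  have h := C4_int l 0 0 (e l)
  have h0 : (⟨((0 : ℤ) : ℝ) / 10000, ((0 : ℤ) : ℝ) / 10000⟩ : ℂ) = 0 := by
    apply Complex.ext <;> simp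
  rwa [h0] at h

/-- the box of the centres is on the left of all the edges -/
theorem Lg_CB {c : ℂ} (hc : CB c) (l : Fin 12) : 0 < Lg l c := by
  obtain ⟨h1, h2, h3, h4⟩ := hc
  have e : ∀ l : Fin 12, 0 < LgZ l (-1380) (-30) ∧ 0 < LgZ l (-1380) 2130 ∧
      0 < LgZ l (-1180) (-30) ∧ 0 < LgZ l (-1180) 2130 := by decide
  obtain ⟨a1, a2, a3, a4⟩ := e l
  have b1 := C4_int _ _ _ a1
  have b2 := C4_int _ _ _ a2
  have b3 := C4_int _ _ _ a3
  have b4 := C4_int _ _ _ a4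
  rw [Lg_eq] at b1 b2 b3 b4 ⊢
  generalize (pgX (l + 1) : ℝ) / 10000 - (pgX l : ℝ) / 10000 = ex at *
  generalize (pgY (l + 1) : ℝ) / 10000 - (pgY l : ℝ) / 10000 = ey at *
  generalize (pgX l : ℝ) / 10000 = px at *
  generalize (pgY l : ℝ) / 10000 = py at *
  push_cast at b1 b2 b3 b4
  rcases le_total 0 ex with hx | hx <;> rcases le_total 0 ey with hy | hy
  · have p1 := mul_nonneg hx (by linarith : 0 ≤ c.im - (-30 / 10000))
    have p2 := mul_nonneg hy (by linarith : 0 ≤ -1180 / 10000 - c.re)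
    linarith
  · have p1 := mul_nonneg hx (by linarith : 0 ≤ c.im - (-30 / 10000))
    have p2 := mul_nonneg (neg_nonneg.2 hy) (by linarith : 0 ≤ c.re - (-1380 / 10000))
    linarith
  · have p1 := mul_nonneg (neg_nonneg.2 hx) (by linarith : 0 ≤ 2130 / 10000 - c.im)
    have p2 := mul_nonneg hy (by linarith : 0 ≤ -1180 / 10000 - c.re)
    linarith
  · have p1 := mul_nonneg (neg_nonneg.2 hx) (by linarith : 0 ≤ 2130 / 10000 - c.im)
    have p2 := mul_nonneg (neg_nonneg.2 hy) (by linarith : 0 ≤ c.re - (-1380 / 10000))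
    linarith

private lemma C4_corners {κ : ℝ} (hκ : 1 ≤ κ) {c : ℂ} (hc : CB c) :
    0 < cr ((κ : ℂ) * pg 0 - c) ((κ : ℂ) * pg 4 - c) ∧
      0 < cr ((κ : ℂ) * pg 4 - c) ((κ : ℂ) * pg 8 - c) ∧
      0 < cr ((κ : ℂ) * pg 8 - c) ((κ : ℂ) * pg 0 - c) := by
  obtain ⟨h1, h2, h3, h4⟩ := hc
  have x0 : (pg 0).re = ((4445 : ℤ) : ℝ) / 10000 := rfl
  have y0 : (pg 0).im = ((-7699 : ℤ) : ℝ) / 10000 := rfl
  have x4 : (pg 4).re = ((4445 : ℤ) : ℝ) / 10000 := rfl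
  have y4 : (pg 4).im = ((7699 : ℤ) : ℝ) / 10000 := rfl
  have x8 : (pg 8).re = ((-8890 : ℤ) : ℝ) / 10000 := rfl
  have y8 : (pg 8).im = ((0 : ℤ) : ℝ) / 10000 := rfl
  push_cast at x0 y0 x4 y4 x8 y8
  simp only [cr, Complex.sub_re, Complex.sub_im, Complex.mul_re, Complex.mul_im,
    Complex.ofReal_re, Complex.ofReal_im, x0, y0, x4, y4, x8, y8]
  have hk0 : 0 < κ := by linarith
  refine ⟨?_, ?_, ?_⟩
  · have h : 0 < κ * (κ * (2 * 4445 / 10000 * (7699 / 10000)) - c.re * (2 * 7699 / 10000)) :=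
      mul_pos hk0 (by nlinarith)
    linarith
  · have h : 0 < κ * (κ * (8890 / 10000 * (7699 / 10000)) - c.im * (13335 / 10000)
        + c.re * (7699 / 10000)) := mul_pos hk0 (by nlinarith)
    linarith
  · have h : 0 < κ * (κ * (8890 / 10000 * (7699 / 10000)) + c.im * (13335 / 10000)
        + c.re * (7699 / 10000)) := mul_pos hk0 (by nlinarith)
    linarith

private lemma C4_cone {κ : ℝ} (hκ : 1 ≤ κ) {c : ℂ} (hc : CB c) (x : ℂ) :
    ∃ l : Fin 12, 0 ≤ cr ((κ : ℂ) * pg l - c) x ∧ cr ((κ : ℂ) * pg (l + 1) - c) x ≤ 0 := by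
  by_contra hcon
  push Not at hcon
  obtain ⟨k1, k2, k3⟩ := C4_corners hκ hc
  obtain ⟨Q, hQ⟩ : ∃ Q : Fin 12 → ℂ, Q = fun l => (κ : ℂ) * pg l - c := ⟨_, rfl⟩
  have hQl : ∀ l, (κ : ℂ) * pg l - c = Q l := fun l => by rw [hQ]
  simp only [hQl] at hcon k1 k2 k3
  have hid : cr (Q 4) (Q 8) * cr (Q 0) x + cr (Q 8) (Q 0) * cr (Q 4) x +
      cr (Q 0) (Q 4) * cr (Q 8) x = 0 := by
    simp only [cr]
    ring
  by_cases h : ∃ l0 : Fin 12, 0 ≤ cr (Q l0) x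
  · obtain ⟨l0, hl⟩ := h
    have h1 : ∀ n : ℕ, 0 < cr (Q (l0 + 1 + n • (1 : Fin 12))) x := by
      intro n
      induction n with
      | zero => simpa using hcon l0 hl
      | succ n ih =>
        have := hcon _ ih.le
        rwa [succ_nsmul, ← add_assoc]
    have h2 : ∀ k : Fin 12, 0 < cr (Q k) x := by
      intro k
      have := h1 (k - (l0 + 1)).val
      have e : ∀ l k : Fin 12, l + 1 + (k - (l + 1)).val • (1 : Fin 12) = k := by decide
      rwa [e] at this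
    have p1 := mul_pos k2 (h2 0)
    have p2 := mul_pos k3 (h2 4)
    have p3 := mul_pos k1 (h2 8)
    linarith
  · push Not at h
    have p1 := mul_neg_of_pos_of_neg k2 (h 0)
    have p2 := mul_neg_of_pos_of_neg k3 (h 4)
    have p3 := mul_neg_of_pos_of_neg k1 (h 8)
    linarith

/-- the shift is allowed -/
private lemma C4_shift {κ : ℝ} (hκ : 1 ≤ κ) {δ : ℂ} (hδ : ‖δ‖ ≤ (κ - 1) * (325 / 1000))
    (l : Fin 12) : -((κ - 1) * Lg l 0) ≤ Lg l δ - Lg l 0 := by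
  have e : ∀ l : Fin 12, ((pgX (l + 1) - pgX l) ^ 2 + (pgY (l + 1) - pgY l) ^ 2) * 3250 ^ 2 ≤
      (LgZ l 0 0) ^ 2 := by decide
  have e1 := e l
  have e2 : ((((pgX (l + 1) : ℝ) - pgX l) ^ 2 + ((pgY (l + 1) : ℝ) - pgY l) ^ 2) * 3250 ^ 2 : ℝ) ≤
      (LgZ l 0 0 : ℝ) ^ 2 := by exact_mod_cast e1
  have h0 : Lg l 0 = (LgZ l 0 0 : ℝ) / 100000000 := by
    rw [← Lg_int]
    congr 1
    apply Complex.ext <;> simp
  have hpos := Lg_zero l
  obtain ⟨ex, hex⟩ : ∃ ex : ℝ, ex = (pgX (l + 1) : ℝ) / 10000 - (pgX l : ℝ) / 10000 := ⟨_, rfl⟩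
  obtain ⟨ey, hey⟩ : ∃ ey : ℝ, ey = (pgY (l + 1) : ℝ) / 10000 - (pgY l : ℝ) / 10000 := ⟨_, rfl⟩
  have h1 : Lg l δ - Lg l 0 = ex * δ.im - ey * δ.re := by
    rw [Lg_eq, Lg_eq, ← hex, ← hey, Complex.zero_re, Complex.zero_im]; ring
  have h2 : (ex ^ 2 + ey ^ 2) * (325 / 1000) ^ 2 ≤ Lg l 0 ^ 2 := by
    rw [h0, hex, hey]
    have : (((pgX (l + 1) : ℝ) / 10000 - (pgX l : ℝ) / 10000) ^ 2
        + ((pgY (l + 1) : ℝ) / 10000 - (pgY l : ℝ) / 10000) ^ 2) * (325 / 1000) ^ 2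
        = ((((pgX (l + 1) : ℝ) - pgX l) ^ 2 + ((pgY (l + 1) : ℝ) - pgY l) ^ 2) * 3250 ^ 2)
          / 100000000 ^ 2 := by ring
    rw [this, div_pow]
    exact div_le_div_of_nonneg_right e2 (by positivity)
  have hk : 0 ≤ κ - 1 := by linarith
  -- Cauchy-Schwarz
  have h3 : (ex * δ.im - ey * δ.re) ^ 2 ≤ ((κ - 1) * Lg l 0) ^ 2 := by
    have c1 : (ex * δ.im - ey * δ.re) ^ 2 ≤ (ex ^ 2 + ey ^ 2) * ‖δ‖ ^ 2 := by
      rw [← normSq_eq_norm_sq, normSq_apply]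
      have : (ex ^ 2 + ey ^ 2) * (δ.re * δ.re + δ.im * δ.im) - (ex * δ.im - ey * δ.re) ^ 2 =
          (ex * δ.re + ey * δ.im) ^ 2 := by ring
      linarith [sq_nonneg (ex * δ.re + ey * δ.im)]
    have c2 : ‖δ‖ ^ 2 ≤ ((κ - 1) * (325 / 1000)) ^ 2 := pow_le_pow_left₀ (norm_nonneg _) hδ 2
    have c3 : 0 ≤ ex ^ 2 + ey ^ 2 := by positivity
    have c4 := mul_le_mul_of_nonneg_left c2 c3
    have c5 := mul_le_mul_of_nonneg_left h2 (sq_nonneg (κ - 1))
    linarith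
  rw [h1]
  have h4 := abs_le_of_sq_le_sq h3 (mul_nonneg hk hpos.le)
  linarith [neg_abs_le (ex * δ.im - ey * δ.re), (abs_le.1 (abs_le_of_sq_le_sq h3 (mul_nonneg hk hpos.le) )).1]

/-- **the sectors of the scaled polygon cover the shifted domain** -/
theorem cover_gen {κ : ℝ} (hκ : 1 ≤ κ) {c δ : ℂ} (hc : CB c) (hδ : ‖δ‖ ≤ (κ - 1) * (325 / 1000))
    {y : ℂ} (hy : Dom y) :
    ∃ l : Fin 12, ∃ r s : ℝ, 0 ≤ r ∧ r ≤ 1 ∧ 0 ≤ s ∧ s ≤ 1 ∧
      y + δ = c + (r : ℂ) * xk κ c l s := by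
  obtain ⟨l, hl1, hl2⟩ := C4_cone hκ hc (y + δ - c)
  have hk0 : 0 < κ := by linarith
  have hLc : ∀ k, 0 < Lk κ k c := fun k => by
    unfold Lk
    have h1 := Lg_CB hc k
    have h2 := mul_nonneg (by linarith : 0 ≤ κ - 1) (Lg_zero k).le
    linarith
  have hL := mul_pos hk0 (hLc l)
  have hLe := C4_cr_eq κ l c
  obtain ⟨A, hA⟩ : ∃ A, A = (κ : ℂ) * pg l - c := ⟨_, rfl⟩
  obtain ⟨B, hB⟩ : ∃ B, B = (κ : ℂ) * pg (l + 1) - c := ⟨_, rfl⟩
  rw [← hA] at hl1 hLe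
  rw [← hB] at hl2 hLe
  obtain ⟨x, hx⟩ : ∃ x, x = y + δ - c := ⟨_, rfl⟩
  rw [← hx] at hl1 hl2
  have hAB : 0 < cr A B := by rw [hLe]; exact hL
  obtain ⟨α, hα⟩ : ∃ α, α = -cr B x / cr A B := ⟨_, rfl⟩
  obtain ⟨β, hβ⟩ : ∃ β, β = cr A x / cr A B := ⟨_, rfl⟩
  have α0 : 0 ≤ α := by rw [hα]; exact div_nonneg (by linarith) hAB.le
  have β0 : 0 ≤ β := by rw [hβ]; exact div_nonneg hl1 hAB.le
  have hxe : x = (α : ℂ) * A + (β : ℂ) * B := by
    have hne : cr A B ≠ 0 := hAB.ne'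
    have e1 : α * cr A B = -cr B x := by rw [hα]; field_simp
    have e2 : β * cr A B = cr A x := by rw [hβ]; field_simp
    apply Complex.ext
    · apply mul_left_cancel₀ hne
      simp only [Complex.add_re, Complex.mul_re, Complex.ofReal_re, Complex.ofReal_im]
      have : cr A B * (α * A.re - 0 * A.im + (β * B.re - 0 * B.im)) =
        (α * cr A B) * A.re + (β * cr A B) * B.re := by ring
      rw [this, e1, e2]
      simp only [cr]; ring
    · apply mul_left_cancel₀ hne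
      simp only [Complex.add_im, Complex.mul_im, Complex.ofReal_re, Complex.ofReal_im]
      have : cr A B * (α * A.im + 0 * A.re + (β * B.im + 0 * B.re)) =
        (α * cr A B) * A.im + (β * cr A B) * B.im := by ring
      rw [this, e1, e2]
      simp only [cr]; ring
  have hye : y + δ = (α : ℂ) * ((κ : ℂ) * pg l) + (β : ℂ) * ((κ : ℂ) * pg (l + 1))
      + ((1 - α - β : ℝ) : ℂ) * c := by
    have : y + δ = x + c := by rw [hx]; ring
    rw [this, hxe, hA, hB]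
    push_cast
    ring
  have hk : ∀ k, Lk κ k (y + δ) = α * Lk κ k ((κ : ℂ) * pg l)
      + β * Lk κ k ((κ : ℂ) * pg (l + 1)) + (1 - α - β) * Lk κ k c := by
    intro k
    conv_lhs => rw [hye]
    exact C4_affine κ k α β (1 - α - β) _ _ _ (by ring)
  have hsc : ∀ (k : Fin 12) (P : ℂ), Lk κ k ((κ : ℂ) * P) = κ * Lg k P := by
    intro k P
    unfold Lk
    simp only [Lg_eq, Complex.mul_re, Complex.mul_im, Complex.ofReal_re, Complex.ofReal_im,
      Complex.zero_re, Complex.zero_im]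
    ring
  have hρ : α + β ≤ 1 := by
    by_contra h
    push Not at h
    obtain ⟨k, hk1, hk2⟩ := dom_side hy (sd l)
    obtain ⟨c1, c2⟩ := Lg_convex hk1.symm
    have hk3 := hLc k
    have hk4 : 0 ≤ Lk κ k (y + δ) := by
      have h5 := C4_shift hκ hδ k
      have h6 : Lg k (y + δ) = Lg k y + (Lg k δ - Lg k 0) := by
        simp only [Lg_eq, Complex.add_re, Complex.add_im, Complex.zero_re, Complex.zero_im]
        ring
      unfold Lk
      rw [h6]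
      linarith
    rw [hk k, hsc, hsc] at hk4
    have p1 : α * (κ * Lg k (pg l)) ≤ 0 :=
      mul_nonpos_of_nonneg_of_nonpos α0 (mul_nonpos_of_nonneg_of_nonpos hk0.le c1)
    have p2 : β * (κ * Lg k (pg (l + 1))) ≤ 0 :=
      mul_nonpos_of_nonneg_of_nonpos β0 (mul_nonpos_of_nonneg_of_nonpos hk0.le c2)
    have p3 : (1 - α - β) * Lk κ k c < 0 := mul_neg_of_neg_of_pos (by linarith) hk3
    linarith
  rcases eq_or_lt_of_le (add_nonneg α0 β0) with h0 | h0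
  · refine ⟨l, 0, 0, le_refl _, zero_le_one, le_refl _, zero_le_one, ?_⟩
    have a0 : α = 0 := by linarith
    have b0 : β = 0 := by linarith
    have : x = 0 := by rw [hxe, a0, b0]; simp
    rw [hx] at this
    rw [Complex.ofReal_zero, zero_mul, add_zero]
    exact sub_eq_zero.1 this
  · refine ⟨l, α + β, β / (α + β), h0.le, hρ, div_nonneg β0 h0.le, ?_, ?_⟩
    · rw [div_le_one h0]; linarith
    · have : y + δ = c + x := by rw [hx]; ring
      rw [this, hxe]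
      unfold xk
      have hne : ((α + β : ℝ) : ℂ) ≠ 0 := by exact_mod_cast h0.ne'
      rw [hA, hB]
      push_cast at hne ⊢
      field_simp
      ring

/-- sectors with a fixed centre -/
theorem cover_const {c : ℂ} (hc : CB c) {y : ℂ} (hy : Dom y) :
    ∃ l : Fin 12, ∃ r s : ℝ, 0 ≤ r ∧ r ≤ 1 ∧ 0 ≤ s ∧ s ≤ 1 ∧ y = c + (r : ℂ) * xk 1 c l s := by
  have h := cover_gen (κ := 1) le_rfl (δ := 0) hc (by simp) hy
  simpa using h

/-- sectors around a moving centre `a` approximated by `c` -/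
theorem cover_move {κ : ℝ} (hκ : 1 ≤ κ) {a c : ℂ} (hc : CB c)
    (hδ : ‖c - a‖ ≤ (κ - 1) * (325 / 1000)) {y : ℂ} (hy : Dom y) :
    ∃ l : Fin 12, ∃ r s : ℝ, 0 ≤ r ∧ r ≤ 1 ∧ 0 ≤ s ∧ s ≤ 1 ∧ y - a = (r : ℂ) * xk κ c l s := by
  obtain ⟨l, r, s, r0, r1, s0, s1, h⟩ := cover_gen hκ (δ := c - a) hc hδ hy
  refine ⟨l, r, s, r0, r1, s0, s1, ?_⟩
  have : y - a = y + (c - a) - c := by ring
  rw [this, h]; ring

end Pool.H61.Rh
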