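import Pool.Agent.H61.Re.C3
import Pool.Agent.H61.Re.C4

/-! # C5: assembly for the sectors `x = r xk κ (yt m) l s` -/

set_option autoImplicit false

namespace Pool.H61.Rh

open Complex

/-- the inequalities at a point without the main one -/
structure Pt.Zn (P : Pt) (z : ZC) (x η : ℂ) (D : ℝ) : Prop where
  hb : normSq (P.ys + x) ≤ z.hb ^ 2
  c0 : 0 ≤ P.ct x η * D
  c1 : 0 ≤ (z.cb * P.f x ^ 3 - P.ct x η) * D
  q : 0 ≤ (z.Qb ^ 2 * P.f x ^ 2 - normSq (P.fq x η)) * D ^ 2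
  p0 : 0 ≤ z.pb * P.f x ^ 2 - dt (P.fp x) (P.ys + x)
  p1 : 0 ≤ z.pb * P.f x ^ 2 + dt (P.fp x) (P.ys + x)
  w : 0 ≤ (4 * z.lam * (6 - z.R - Kz z.hb z.Φ z.cb z.Qb z.pb) * P.f x ^ 6
    + 4 * z.lam * (493 / 1000) * P.f x ^ 4 * dt (P.fp x) (P.ys + x)
    - z.Φ * normSq ((z.lam * P.f x ^ 3 : ℝ) * (P.ys + x) - P.wh x η)) * D ^ 2

lemma Pt.Zn.z {P : Pt} {z : ZC} {x : ℂ} {j : Fin 3}
    (h : P.Zn z x (Vx (P.ys + x) j) (1 - 2 * dt (uu j) (P.ys + x)))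
    (hF : P.FI (z.R - 1 / 8192) x j) :
    P.Z (1 / 8192) z x (Vx (P.ys + x) j) (1 - 2 * dt (uu j) (P.ys + x)) :=
  ⟨h.hb, hF, h.c0, h.c1, h.q, h.p0, h.p1, h.w⟩

lemma Pt.Z.zn {P : Pt} {ν : ℝ} {z : ZC} {x η : ℂ} {D : ℝ} (h : P.Z ν z x η D) : P.Zn z x η D :=
  ⟨h.hb, h.c0, h.c1, h.q, h.p0, h.p1, h.w⟩

/-- bound of the coordinates of `xk κ (yt m) l s` for `3/4 m1 ≤ m ≤ m1` -/
theorem xk_bound {κ m : ℝ} (hκ : 1 ≤ κ) {c : ℂ} (hδ : ‖c - oy m‖ ≤ (κ - 1) * (325 / 1000))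
    (m0 : 3 / 4 * m1 ≤ m) (mm : m ≤ m1) (l : Fin 12) {s : ℝ} (s0 : 0 ≤ s) (s1 : s ≤ 1) :
    |(xk κ c l s).re| ≤ Kx l + (κ - 1) * (5 / 4) ∧ |(xk κ c l s).im| ≤ Kx l + (κ - 1) * (5 / 4) := by
  obtain ⟨h1, h2⟩ := xh_bound m0 mm l s0 s1
  have hk : 0 ≤ κ - 1 := by linarith
  obtain ⟨p, hp⟩ : ∃ p, p = pg l + (s : ℂ) * (pg (l + 1) - pg l) := ⟨_, rfl⟩
  have e : xk κ c l s = xh l m s + ((κ - 1 : ℝ) : ℂ) * p - (c - oy m) := by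
    rw [hp]; unfold xk xh; push_cast; ring
  have hpg : ∀ k : Fin 12, |(pg k).re| ≤ 889 / 1000 ∧ |(pg k).im| ≤ 889 / 1000 := by
    have hd : ∀ k : Fin 12, |pgX k| ≤ 8890 ∧ |pgY k| ≤ 8890 := by decide
    intro k
    obtain ⟨a1, a2⟩ := hd k
    have b1 : |(pgX k : ℝ)| ≤ 8890 := by exact_mod_cast a1
    have b2 : |(pgY k : ℝ)| ≤ 8890 := by exact_mod_cast a2
    have c1 : (pg k).re = (pgX k : ℝ) / 10000 := rfl
    have c2 : (pg k).im = (pgY k : ℝ) / 10000 := rfl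
    rw [c1, c2, abs_div, abs_div, abs_of_pos (by norm_num : (0 : ℝ) < 10000)]
    constructor
    · rw [div_le_div_iff₀ (by norm_num) (by norm_num)]; linarith
    · rw [div_le_div_iff₀ (by norm_num) (by norm_num)]; linarith
  have hpb : |p.re| ≤ 889 / 1000 ∧ |p.im| ≤ 889 / 1000 := by
    obtain ⟨a1, a2⟩ := hpg l
    obtain ⟨b1, b2⟩ := hpg (l + 1)
    rw [abs_le] at a1 a2 b1 b2
    have er : p.re = (1 - s) * (pg l).re + s * (pg (l + 1)).re := by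
      rw [hp]
      simp only [add_re, sub_re, mul_re, ofReal_re, ofReal_im]
      ring
    have ei : p.im = (1 - s) * (pg l).im + s * (pg (l + 1)).im := by
      rw [hp]
      simp only [add_im, sub_im, mul_im, ofReal_re, ofReal_im]
      ring
    have t0 : 0 ≤ 1 - s := by linarith
    rw [er, ei, abs_le, abs_le]
    have q1 := mul_le_mul_of_nonneg_left a1.1 t0
    have q2 := mul_le_mul_of_nonneg_left a1.2 t0
    have q3 := mul_le_mul_of_nonneg_left a2.1 t0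
    have q4 := mul_le_mul_of_nonneg_left a2.2 t0
    have q5 := mul_le_mul_of_nonneg_left b1.1 s0
    have q6 := mul_le_mul_of_nonneg_left b1.2 s0
    have q7 := mul_le_mul_of_nonneg_left b2.1 s0
    have q8 := mul_le_mul_of_nonneg_left b2.2 s0
    refine ⟨⟨?_, ?_⟩, ?_, ?_⟩ <;> linarith
  have hcr := (Complex.abs_re_le_norm (c - oy m)).trans hδ
  have hci := (Complex.abs_im_le_norm (c - oy m)).trans hδ
  have er : (xk κ c l s).re = (xh l m s).re + (κ - 1) * p.re - (c - oy m).re := by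
    rw [e]; simp only [add_re, sub_re, mul_re, ofReal_re, ofReal_im]; ring
  have ei : (xk κ c l s).im = (xh l m s).im + (κ - 1) * p.im - (c - oy m).im := by
    rw [e]; simp only [add_im, sub_im, mul_im, ofReal_re, ofReal_im]; ring
  rw [er, ei]
  have r1 : |(κ - 1) * p.re| ≤ (κ - 1) * (889 / 1000) := by
    rw [abs_mul, abs_of_nonneg hk]; exact mul_le_mul_of_nonneg_left hpb.1 hk
  have r2 : |(κ - 1) * p.im| ≤ (κ - 1) * (889 / 1000) := by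
    rw [abs_mul, abs_of_nonneg hk]; exact mul_le_mul_of_nonneg_left hpb.2 hk
  rw [abs_le] at h1 h2 hcr hci r1 r2 ⊢
  rw [abs_le]
  refine ⟨⟨?_, ?_⟩, ?_, ?_⟩ <;> linarith [h1.1, h1.2, h2.1, h2.2, hcr.1, hcr.2, hci.1, hci.2,
    r1.1, r1.2, r2.1, r2.2]

/-- **assembly for the scaled sectors** -/
theorem Z_of_boxes {d : VD} {κ : ℝ} (hκ : 1 ≤ κ) {yt : ℝ → ℂ}
    (hyt : ∀ m, 0 ≤ m → m ≤ m1 → CB (yt m) ∧ ‖yt m - oy m‖ ≤ (κ - 1) * (325 / 1000))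
    {ρ Rn : ℝ} {r0 : Fin 12 → ℝ} (hr : ∀ l, 0 ≤ r0 l ∧ r0 l * (Kx l + (κ - 1) * (5 / 4)) ≤ ρ)
    (hRn : 0 < Rn)
    (hC : ∀ (j : Fin 3) (l : Fin 12) (m r s : ℝ), 0 ≤ m → m ≤ m1 → 0 ≤ r → r ≤ 1 → 0 ≤ s →
      s ≤ 1 → ∀ x : ℂ, x = (r : ℂ) * xk κ (yt m) l s → Dom (oy m + x) →
      ∃ z : ZC, z.Ok (1 / 8192) ∧
        (d.pt m).Zn z x (Vx (oy m + x) j) (1 - 2 * dt (uu j) (oy m + x)) ∧
        ((j = 2 → m ≤ 3 / 4 * m1 ∨ r0 l ≤ r) → (d.pt m).FI (z.R - 1 / 8192) x j) ∧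
        (j = 2 → 3 / 4 * m1 ≤ m → r ≤ r0 l → Rn ≤ z.R - 1 / 8192))
    (hN : ∀ m x, 3 / 4 * m1 ≤ m → m ≤ m1 → |x.re| ≤ ρ → |x.im| ≤ ρ → (d.pt m).FI Rn x 2) :
    ∀ m, 0 ≤ m → m ≤ m1 → ∀ y : ℂ, Dom y → ∀ j : Fin 3, ∃ z : ZC, z.Ok (1 / 8192) ∧
      (d.pt m).Z (1 / 8192) z (y - oy m) (Vx y j) (1 - 2 * dt (uu j) y) := by
  intro m m0 mm y hy j
  obtain ⟨hc, hδ⟩ := hyt m m0 mm
  obtain ⟨l, r, s, r0', r1, s0, s1, hx⟩ := cover_move hκ hc hδ hy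
  have hyx : y = oy m + (r : ℂ) * xk κ (yt m) l s := by rw [← hx]; ring
  obtain ⟨x, hxe⟩ : ∃ x, x = (r : ℂ) * xk κ (yt m) l s := ⟨_, rfl⟩
  rw [← hxe] at hx hyx
  have hys : (d.pt m).ys = oy m := rfl
  obtain ⟨z, hz, hZ, hF, hR⟩ := hC j l m r s m0 mm r0' r1 s0 s1 x hxe (by rw [← hyx]; exact hy)
  refine ⟨z, hz, ?_⟩
  rw [hx, hyx]
  rw [← hys] at hZ ⊢
  refine hZ.z ?_
  by_cases h : j = 2 → m ≤ 3 / 4 * m1 ∨ r0 l ≤ r
  · exact hF h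
  · push Not at h
    obtain ⟨hj, g1, g2⟩ := h
    have hb := xk_bound hκ hδ g1.le mm l s0 s1
    have hk : 0 ≤ Kx l + (κ - 1) * (5 / 4) := (abs_nonneg _).trans hb.1
    have hrho : r * (Kx l + (κ - 1) * (5 / 4)) ≤ ρ :=
      (mul_le_mul_of_nonneg_right g2.le hk).trans (hr l).2
    have e1 : |x.re| ≤ ρ := by
      rw [hxe, Complex.re_ofReal_mul, abs_mul, abs_of_nonneg r0']
      exact (mul_le_mul_of_nonneg_left hb.1 r0').trans hrho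
    have e2 : |x.im| ≤ ρ := by
      rw [hxe, Complex.im_ofReal_mul, abs_mul, abs_of_nonneg r0']
      exact (mul_le_mul_of_nonneg_left hb.2 r0').trans hrho
    have hn := hN m x g1.le mm e1 e2
    rw [hj]
    exact FI_mono hRn (hR hj g1.le g2.le) hn

end Pool.H61.Rh
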