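import Pool.Agent.H61.Rc.R5a

/-! # D0: the exact costate and the calibration function: definitions

Notation at the parameter `m`: `y* = oy m`, `v* = ov m`, `ρ* = oR m = √(1+|v*|²) = ‖oa m‖`,
`n* = oN m = v*/ρ*`, `f* = oF m = fs y* v*`, `b* = oB m = bp y* v*`, `V* = oV m = Vx y* 0`.
`S = oS m = 2 kp cosh m - 1`, `K = 2√2 - 1 = kp² - 1`.

Exact costate: `q_y = qy m = S/(9 √3 K²) (tk + c (3(4-√2)/4) pk)`, `q_v = -i (1+c) v*`,
`c = oc = (10 + 9√2 - 8 m1 (1+√2))/(√3 (10+√2)) = .980329...`.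
Main facts (other files): `q_y · V* = 1 + c (1 - 2 f* ρ*²)` and
`dq_y/dm = otau' (-(DV_0(y*))ᵀ q_y - 2 c ρ* v*)`.

Calibration: `W = q_y·x + a_e·x + A(m,x) + (-i(1+c) v* + b_e + B(m,x))·u`, `x = y - y*`,
`u = v - v*`; `A + B·u = Im(Σ C_k(θ) mono_k(x,u))`, `θ = m/m1`, for the 9 monomials
`x², |x|², x³, x|x|², x u, x ū, x² u, x² ū, |x|² u`; `a_e·x = Im(C_x x)`, `b_e·u = Im(C_u u)`.
`C_k(θ) = P_k(θ²) + i √3 θ Q_k(θ²)`. -/

set_option autoImplicit false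

namespace Pool.H61.Rh

open Complex

/-- `K = 2√2 - 1 = kp² - 1` -/
noncomputable def oK : ℝ := 2 * Real.sqrt 2 - 1

/-- `S = 2 kp cosh m - 1` -/
noncomputable def oS (m : ℝ) : ℝ := 2 * kp * Real.cosh m - 1

/-- the constant `c` of the exact costate -/
noncomputable def oc : ℝ :=
  (10 + 9 * Real.sqrt 2 - 8 * m1 * (1 + Real.sqrt 2)) / (s3 * (10 + Real.sqrt 2))

/-- first part of the costate -/
noncomputable def tk (m : ℝ) : ℂ :=
  ⟨kp * Real.sinh m * (-15 - 93 / 4 * Real.sqrt 2)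
      + 24 * Real.sqrt 2 * Real.sinh m * Real.cosh m
      + m * (24 * Real.sqrt 2 - 6 * kp * Real.cosh m),
    s3 * (12 * Real.sqrt 2 - 6 - (3 - 3 / 4 * Real.sqrt 2) * kp * Real.cosh m
      + 24 * Real.sqrt 2 * Real.sinh m ^ 2 - 6 * m * kp * Real.sinh m)⟩

/-- second part of the costate -/
noncomputable def pk (m : ℝ) : ℂ :=
  ⟨s3 * (9 * kp - 8 * Real.cosh m) * Real.sinh m,
    3 * (kp * Real.cosh m - 8 * Real.cosh m ^ 2 + 4)⟩

/-- the exact costate, `y` part -/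
noncomputable def qy (m : ℝ) : ℂ :=
  ((oS m / (9 * s3 * oK ^ 2) : ℝ) : ℂ) *
    (tk m + ((oc * (3 * (4 - Real.sqrt 2) / 4) : ℝ) : ℂ) * pk m)

/-- `ρ*` -/
noncomputable def oR (m : ℝ) : ℝ := Real.sqrt (1 + normSq (ov m))

/-- `n*` -/
noncomputable def oN (m : ℝ) : ℂ := ov m / (oR m : ℂ)

/-- `f*` -/
noncomputable def oF (m : ℝ) : ℝ := fs (oy m) (ov m)

/-- `b*` -/
noncomputable def oB (m : ℝ) : ℂ := bp (oy m) (ov m)

/-- `V*` -/
noncomputable def oV (m : ℝ) : ℂ := Vx (oy m) 0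

/-- transpose of the derivative of `Vx · 0` at `y` applied to `q` -/
noncomputable def DVT (y q : ℂ) : ℂ :=
  -2 * y * ((dt q (I * (((2 * (1 - normSq y) / (1 - 2 * y.re) : ℝ) : ℂ) - y))
      + 2 * (1 - normSq y) / (1 - 2 * y.re) * dt q I : ℝ) : ℂ)
    + ((4 * (1 - normSq y) ^ 2 / (1 - 2 * y.re) ^ 2 * dt q I : ℝ) : ℂ)
    + ((1 - normSq y : ℝ) : ℂ) * (I * q)

/-- derivative of `qy` -/
noncomputable def qd (m : ℝ) : ℂ :=
  (otau' m : ℂ) * (-DVT (oy m) (qy m) - ((2 * oc * oR m : ℝ) : ℂ) * ov m)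

/-- derivative of `oy` -/
noncomputable def yd (m : ℝ) : ℂ := (otau' m : ℂ) * oV m

/-- derivative of `ov` -/
noncomputable def vd (m : ℝ) : ℂ := (osd m : ℂ) * (oB m - 2 * I * ov m)

/-- the nine coefficients of `V` at a point -/
structure VC where
  (xx xb x3 x2b xu xc x2u x2c xbu : ℂ)

/-- `A(x)` -/
noncomputable def VA (c : VC) (x : ℂ) : ℝ :=
  (c.xx * x ^ 2 + c.xb * (normSq x : ℂ) + c.x3 * x ^ 3 + c.x2b * ((normSq x : ℂ) * x)).im

/-- `B(x)` -/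
noncomputable def VB (c : VC) (x : ℂ) : ℂ :=
  I * (starRingEnd ℂ) (c.xu * x + c.x2u * x ^ 2 + c.xbu * (normSq x : ℂ))
    - I * (c.xc * x + c.x2c * x ^ 2)

/-- gradient of `A` -/
noncomputable def VAx (c : VC) (x : ℂ) : ℂ :=
  I * (starRingEnd ℂ) (2 * c.xx * x + 3 * c.x3 * x ^ 2 + 2 * c.x2b * (normSq x : ℂ))
    + ((2 * c.xb.im : ℝ) : ℂ) * x - I * (c.x2b * x ^ 2)

/-- derivative of `B` in the direction `h` -/
noncomputable def VBd (c : VC) (x h : ℂ) : ℂ :=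
  I * (starRingEnd ℂ) (c.xu * h + 2 * c.x2u * x * h + c.xbu * ((2 * dt x h : ℝ) : ℂ))
    - I * (c.xc * h + 2 * c.x2c * x * h)

/-- value of a polynomial given by the list of its coefficients -/
def hor : List ℝ → ℝ → ℝ
  | [], _ => 0
  | a :: l, t => a + t * hor l t

/-- its derivative -/
def dhor : List ℝ → ℝ → ℝ
  | [], _ => 0
  | _ :: l, t => hor l t + t * dhor l t

/-- a coefficient function `P(θ²) + i √3 θ Q(θ²)` -/
structure Cf where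
  (p q : List ℝ)

/-- value at the parameter `m`, `θ = m/m1` -/
noncomputable def Cf.ev (c : Cf) (m : ℝ) : ℂ :=
  ⟨hor c.p ((m / m1) ^ 2), s3 * (m / m1) * hor c.q ((m / m1) ^ 2)⟩

/-- derivative in `m` -/
noncomputable def Cf.dv (c : Cf) (m : ℝ) : ℂ :=
  ⟨2 * (m / m1) / m1 * dhor c.p ((m / m1) ^ 2),
    s3 / m1 * (hor c.q ((m / m1) ^ 2) + 2 * (m / m1) ^ 2 * dhor c.q ((m / m1) ^ 2))⟩

/-- the data: nine coefficient functions, and two for the extra costate -/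
structure VD where
  (xx xb x3 x2b xu xc x2u x2c xbu ax bu : Cf)

/-- coefficients at `m` -/
noncomputable def VD.ev (d : VD) (m : ℝ) : VC :=
  ⟨d.xx.ev m, d.xb.ev m, d.x3.ev m, d.x2b.ev m, d.xu.ev m, d.xc.ev m, d.x2u.ev m, d.x2c.ev m,
    d.xbu.ev m⟩

/-- their derivatives in `m` -/
noncomputable def VD.dv (d : VD) (m : ℝ) : VC :=
  ⟨d.xx.dv m, d.xb.dv m, d.x3.dv m, d.x2b.dv m, d.xu.dv m, d.xc.dv m, d.x2u.dv m, d.x2c.dv m,
    d.xbu.dv m⟩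

/-- extra costate, `y` part -/
noncomputable def VD.ae (d : VD) (m : ℝ) : ℂ := I * (starRingEnd ℂ) (d.ax.ev m)

/-- its derivative -/
noncomputable def VD.aed (d : VD) (m : ℝ) : ℂ := I * (starRingEnd ℂ) (d.ax.dv m)

/-- extra costate, `v` part -/
noncomputable def VD.be (d : VD) (m : ℝ) : ℂ := I * (starRingEnd ℂ) (d.bu.ev m)

/-- its derivative -/
noncomputable def VD.bed (d : VD) (m : ℝ) : ℂ := I * (starRingEnd ℂ) (d.bu.dv m)

/-- total costate `β(m, x)` conjugate to `v` -/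
noncomputable def VD.bt (d : VD) (m : ℝ) (x : ℂ) : ℂ :=
  -(((1 + oc : ℝ) : ℂ) * (I * ov m)) + d.be m + VB (d.ev m) x

/-- `∂β/∂m` at fixed `y` (`x = y - y*`) -/
noncomputable def VD.btm (d : VD) (m : ℝ) (x : ℂ) : ℂ :=
  -(((1 + oc : ℝ) : ℂ) * (I * vd m)) + d.bed m + VB (d.dv m) x - VBd (d.ev m) x (yd m)

/-- total costate conjugate to `y` at `v = v*` -/
noncomputable def VD.at (d : VD) (m : ℝ) (x : ℂ) : ℂ := qy m + d.ae m + VAx (d.ev m) x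

/-- `∂A/∂m` at fixed `y` -/
noncomputable def VD.Am (d : VD) (m : ℝ) (x : ℂ) : ℝ :=
  dt (qd m + d.aed m) x - dt (d.at m x) (yd m) + VA (d.dv m) x

/-- the calibration function -/
noncomputable def VD.W (d : VD) (p : ℝ × ℂ × ℂ) : ℝ :=
  dt (qy p.1 + d.ae p.1) (p.2.1 - oy p.1) + VA (d.ev p.1) (p.2.1 - oy p.1)
    + dt (d.bt p.1 (p.2.1 - oy p.1)) (p.2.2 - ov p.1)

/-- junction conditions (`n = 0, 1, 2` mod 3) -/
structure VD.Junc (d : VD) : Prop where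
  xx : hor d.xx.q 1 = -hor d.xx.p 1
  xb : hor d.xb.q 1 = 0
  x3 : hor d.x3.q 1 = 0
  x2b : hor d.x2b.q 1 = hor d.x2b.p 1
  xu : hor d.xu.q 1 = -hor d.xu.p 1
  xc : hor d.xc.q 1 = 0
  x2u : hor d.x2u.q 1 = 0
  x2c : hor d.x2c.q 1 = hor d.x2c.p 1
  xbu : hor d.xbu.q 1 = hor d.xbu.p 1
  ax : hor d.ax.q 1 = hor d.ax.p 1
  bu : hor d.bu.q 1 = hor d.bu.p 1

end Pool.H61.Rh
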