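import Pool.Agent.H61.Re.D0

/-! # D1: elementary facts on the exact costate

`kp² = 2√2` (`kp_sq`), `√2² = 2`, `s3² = 3` (`s3_mul`), `kp cosh m1 = (2+√2)/2`,
`kp sinh m1 = (2-√2)/2` (`kp_mul_cosh_m1`, `kp_mul_sinh_m1`).
`qy_m1`: with `k sinh m1 = (2-√2)/2`, `k cosh m1 = (2+√2)/2`, hence (multiply by `kp²`)
`sinh m1 cosh m1 = √2/8`, `sinh² m1 = 3√2/8 - 1/2`, `cosh² m1 = 3√2/8 + 1/2`:
`(pk m1).re - s3 (pk m1).im = s3 (6 + 2√2)` (here `(pk).im = 3(..)`, `s3·3(..)`), and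
`s3 (tk m1).im - (tk m1).re = 15 + (27/2)√2 - 12 m1 (1+√2)`; so
`(tk + l pk).re = s3 (tk + l pk).im` for `l = oc · 3(4-√2)/4`, as
`l s3 (6+2√2) = 15 + (27/2)√2 - 12 m1 (1+√2)`, because `(4-√2)(6+2√2) = 20 + 2√2`.
`oR_eq`: `normSq (ov m) = normSq (ob m)` (`ov = -(‖a‖ b/a)`), `normSq a - normSq b = 1`
(`oa_normSq`).  All numerical identities checked to 1e-16 (`/team-store/h61_RD_chk.tgz`). -/

set_option autoImplicit false

namespace Pool.H61.Rh

open Complex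

private lemma D1_r2 : Real.sqrt 2 ^ 2 = 2 := Real.sq_sqrt (by norm_num)

private lemma D1_r2_gt : 14 / 10 < Real.sqrt 2 := by
  rw [Real.lt_sqrt (by norm_num)]
  norm_num

private lemma D1_pos {a b : ℂ} (h : normSq a - normSq b = 1) :
    0 < ‖a‖ ∧ a ≠ 0 ∧ ‖a‖ ^ 2 = 1 + normSq b := by
  have h1 : ‖a‖ ^ 2 = normSq a := (normSq_eq_norm_sq a).symm
  have h2 := normSq_nonneg b
  have h3 : 0 < normSq a := by linarith
  have h4 : a ≠ 0 := normSq_pos.1 h3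
  exact ⟨norm_pos_iff.2 h4, h4, by rw [h1]; linarith⟩

theorem oK_eq : oK = kp ^ 2 - 1 := by
  unfold oK
  rw [kp_sq]

theorem oK_pos : 0 < oK := by
  unfold oK
  linarith [D1_r2_gt]

theorem oS_m1 : oS m1 = 1 + Real.sqrt 2 := by
  have hc := kp_mul_cosh_m1
  unfold oS
  linarith

theorem oS_gt (m : ℝ) : 2 < oS m := oS_pos m

theorem otau'_eq (m : ℝ) : otau' m = oS m / (s3 * oK) := by
  unfold otau' oS
  rw [oK_eq]

private lemma D1_qy_re (m : ℝ) : (qy m).re = oS m / (9 * s3 * oK ^ 2) *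
    ((tk m).re + oc * (3 * (4 - Real.sqrt 2) / 4) * (pk m).re) := by
  unfold qy
  rw [re_ofReal_mul, add_re, re_ofReal_mul]

private lemma D1_qy_im (m : ℝ) : (qy m).im = oS m / (9 * s3 * oK ^ 2) *
    ((tk m).im + oc * (3 * (4 - Real.sqrt 2) / 4) * (pk m).im) := by
  unfold qy
  rw [im_ofReal_mul, add_im, im_ofReal_mul]

theorem qy_neg (m : ℝ) : qy (-m) = -(starRingEnd ℂ) (qy m) := by
  have e1 : oS (-m) = oS m := by
    unfold oS
    rw [Real.cosh_neg]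
  have e2 : (tk (-m)).re = -(tk m).re := by
    unfold tk
    simp only [Real.cosh_neg, Real.sinh_neg]
    ring
  have e3 : (tk (-m)).im = (tk m).im := by
    unfold tk
    simp only [Real.cosh_neg, Real.sinh_neg]
    ring
  have e4 : (pk (-m)).re = -(pk m).re := by
    unfold pk
    simp only [Real.cosh_neg, Real.sinh_neg]
    ring
  have e5 : (pk (-m)).im = (pk m).im := by
    unfold pk
    simp only [Real.cosh_neg]
  apply Complex.ext
  · rw [neg_re, conj_re, D1_qy_re, D1_qy_re, e1, e2, e4]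
    ring
  · rw [neg_im, conj_im, D1_qy_im, D1_qy_im, e1, e3, e5]
    ring

theorem qy_m1 : (qy m1).re = s3 * (qy m1).im := by
  have hc := kp_mul_cosh_m1
  have hs := kp_mul_sinh_m1
  have hr := D1_r2
  have hr0 := D1_r2_gt
  have h3 := s3_sq
  have h3p := s3_pos
  have hk := kp_sq
  have e1 : Real.sinh m1 * Real.cosh m1 = Real.sqrt 2 / 8 := by
    have h : 2 * Real.sqrt 2 * (Real.sinh m1 * Real.cosh m1) = 1 / 2 := by
      rw [← hk]
      have : kp ^ 2 * (Real.sinh m1 * Real.cosh m1) = (kp * Real.sinh m1) * (kp * Real.cosh m1) := by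
        ring
      rw [this, hc, hs]
      linear_combination (-1 / 4 : ℝ) * hr
    have h0 : 2 * Real.sqrt 2 ≠ 0 := by linarith
    apply mul_left_cancel₀ h0
    rw [h]
    linear_combination (-1 / 4 : ℝ) * hr
  have e2 : Real.sinh m1 ^ 2 = 3 * Real.sqrt 2 / 8 - 1 / 2 := by
    have h : 2 * Real.sqrt 2 * (Real.sinh m1 ^ 2) = (2 - Real.sqrt 2) ^ 2 / 4 := by
      rw [← hk]
      have : kp ^ 2 * (Real.sinh m1 ^ 2) = (kp * Real.sinh m1) ^ 2 := by
        ring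
      rw [this, hs]
      ring
    have h0 : 2 * Real.sqrt 2 ≠ 0 := by linarith
    apply mul_left_cancel₀ h0
    rw [h]
    linear_combination (-1 / 2 : ℝ) * hr
  have e3 : Real.cosh m1 ^ 2 = 3 * Real.sqrt 2 / 8 + 1 / 2 := by
    have h : 2 * Real.sqrt 2 * (Real.cosh m1 ^ 2) = (2 + Real.sqrt 2) ^ 2 / 4 := by
      rw [← hk]
      have : kp ^ 2 * (Real.cosh m1 ^ 2) = (kp * Real.cosh m1) ^ 2 := by
        ring
      rw [this, hc]
      ring
    have h0 : 2 * Real.sqrt 2 ≠ 0 := by linarith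
    apply mul_left_cancel₀ h0
    rw [h]
    linear_combination (-1 / 2 : ℝ) * hr
  have hl : oc * (3 * (4 - Real.sqrt 2) / 4) * (s3 * (6 + 2 * Real.sqrt 2)) =
      15 + 27 / 2 * Real.sqrt 2 - 12 * m1 * (1 + Real.sqrt 2) := by
    unfold oc
    have h0 : 10 + Real.sqrt 2 ≠ 0 := by linarith
    have h0' : s3 ≠ 0 := h3p.ne'
    rw [div_mul_eq_mul_div, div_mul_eq_mul_div, div_eq_iff (mul_ne_zero h0' h0)]
    linear_combination (-(3 / 2 : ℝ) * s3 *
      (10 + 9 * Real.sqrt 2 - 8 * m1 * (1 + Real.sqrt 2))) * hr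
  have t1 : (tk m1).re = (2 - Real.sqrt 2) / 2 * (-15 - 93 / 4 * Real.sqrt 2)
      + 24 * Real.sqrt 2 * (Real.sqrt 2 / 8)
      + m1 * (24 * Real.sqrt 2 - 6 * ((2 + Real.sqrt 2) / 2)) := by
    rw [← e1, ← hc, ← hs]
    show kp * Real.sinh m1 * (-15 - 93 / 4 * Real.sqrt 2)
      + 24 * Real.sqrt 2 * Real.sinh m1 * Real.cosh m1
      + m1 * (24 * Real.sqrt 2 - 6 * kp * Real.cosh m1) = _
    ring
  have t2 : (tk m1).im = s3 * (12 * Real.sqrt 2 - 6 - (3 - 3 / 4 * Real.sqrt 2) *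
      ((2 + Real.sqrt 2) / 2) + 24 * Real.sqrt 2 * (3 * Real.sqrt 2 / 8 - 1 / 2)
      - 6 * m1 * ((2 - Real.sqrt 2) / 2)) := by
    rw [← e2, ← hc, ← hs]
    show s3 * (12 * Real.sqrt 2 - 6 - (3 - 3 / 4 * Real.sqrt 2) * kp * Real.cosh m1
      + 24 * Real.sqrt 2 * Real.sinh m1 ^ 2 - 6 * m1 * kp * Real.sinh m1) = _
    ring
  have t3 : (pk m1).re = s3 * (9 * ((2 - Real.sqrt 2) / 2) - 8 * (Real.sqrt 2 / 8)) := by
    rw [← e1, ← hs]
    show s3 * (9 * kp - 8 * Real.cosh m1) * Real.sinh m1 = _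
    ring
  have t4 : (pk m1).im = 3 * ((2 + Real.sqrt 2) / 2 - 8 * (3 * Real.sqrt 2 / 8 + 1 / 2) + 4) := by
    rw [← e3, ← hc]
    rfl
  rw [D1_qy_re, D1_qy_im]
  have key : (tk m1).re + oc * (3 * (4 - Real.sqrt 2) / 4) * (pk m1).re =
      s3 * ((tk m1).im + oc * (3 * (4 - Real.sqrt 2) / 4) * (pk m1).im) := by
    rw [t1, t2, t3, t4]
    linear_combination hl - (27 / 2 : ℝ) * hr + (-3 * Real.sqrt 2 * m1 + 3 / 4 * Real.sqrt 2
      - 75 / 8 * Real.sqrt 2 ^ 2 + 6 * m1 + 9) * h3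
  rw [key]
  ring

private lemma D1_normSq_ov (m : ℝ) : normSq (ov m) = normSq (ob m) := by
  obtain ⟨-, h2, -⟩ := D1_pos (oa_normSq m)
  have h4 : normSq (oa m) ≠ 0 := (normSq_pos.2 h2).ne'
  unfold ov vf
  rw [normSq_neg, normSq_div, normSq_mul, normSq_ofReal, ← pow_two, ← normSq_eq_norm_sq]
  field_simp

theorem oR_eq (m : ℝ) : oR m = ‖oa m‖ := by
  obtain ⟨h1, h2, h3⟩ := D1_pos (oa_normSq m)
  unfold oR
  rw [D1_normSq_ov, ← h3]
  exact Real.sqrt_sq h1.le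

theorem oR_sq (m : ℝ) : oR m ^ 2 = 1 + normSq (ov m) := by
  unfold oR
  exact Real.sq_sqrt (by have := normSq_nonneg (ov m); linarith)

theorem oR_ge (m : ℝ) : 1 ≤ oR m := by
  unfold oR
  rw [Real.le_sqrt' one_pos]
  have := normSq_nonneg (ov m)
  linarith

/-- `ρ* v* = - b ā` -/
theorem oR_mul_ov (m : ℝ) : (oR m : ℂ) * ov m = -(ob m * (starRingEnd ℂ) (oa m)) := by
  obtain ⟨h1, h2, h3⟩ := D1_pos (oa_normSq m)
  rw [oR_eq]
  have h4 : oa m * (starRingEnd ℂ) (oa m) = ((‖oa m‖ : ℝ) : ℂ) ^ 2 := by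
    rw [mul_conj, normSq_eq_norm_sq]
    push_cast
    rfl
  unfold ov vf
  field_simp
  linear_combination (ob m) * h4

private lemma D1_dt_smul (y z : ℂ) (t : ℝ) : dt y ((t : ℂ) * z) = t * dt y z := by
  unfold dt
  rw [re_ofReal_mul, im_ofReal_mul]
  ring

/-- `f* = 1 + y* · n*` -/
theorem oF_eq (m : ℝ) : oF m = 1 + dt (oy m) (oN m) := by
  have e : oN m = ((1 / oR m : ℝ) : ℂ) * ov m := by
    unfold oN
    push_cast
    ring
  rw [e, D1_dt_smul]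
  unfold oF fs oR
  ring

/-- `f* ρ*² = |a|² - Re (conj (y a) b)` -/
theorem oF_mul (m : ℝ) : oF m * oR m ^ 2 = normSq (oa m) - dt (oy m * oa m) (ob m) := by
  obtain ⟨h1, h2, h3⟩ := D1_pos (oa_normSq m)
  have hF : oF m = 1 - dt (oy m * oa m) (ob m) / normSq (oa m) :=
    (fq_eq_fs (oy m) (oa_normSq m)).symm
  have h4 : normSq (oa m) ≠ 0 := (normSq_pos.2 h2).ne'
  rw [hF, oR_eq, ← normSq_eq_norm_sq]
  field_simp

theorem osd_eq (m : ℝ) : osd m = oF m * otau' m := by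
  have hF : fq (oa m) (ob m) (oy m) = oF m := fq_eq_fs (oy m) (oa_normSq m)
  unfold osd
  rw [hF]

/-- `1 - 2 Re y* = 3 / S` -/
theorem oy_d0 (m : ℝ) : 1 - 2 * (oy m).re = 3 / oS m := by
  have hS : oS m ≠ 0 := by linarith [oS_gt m]
  have e : (oy m).re = (kp * Real.cosh m - 2) / oS m := rfl
  rw [e]
  have hSd : oS m = 2 * kp * Real.cosh m - 1 := rfl
  field_simp
  rw [hSd]
  ring

/-- `1 - |y*|² = 3 K / S²` -/
theorem oy_w (m : ℝ) : 1 - normSq (oy m) = 3 * oK / oS m ^ 2 := by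
  rw [oy_normSq, oK_eq]
  rfl

/-- `V* = (3K/S³) (√3 k sinh m + i (4√2 - k cosh m))` -/
theorem oV_eq (m : ℝ) : oV m = ((3 * oK / oS m ^ 3 : ℝ) : ℂ) *
    ⟨s3 * kp * Real.sinh m, 4 * Real.sqrt 2 - kp * Real.cosh m⟩ := by
  have hS : oS m ≠ 0 := by linarith [oS_gt m]
  have h1 : dt (uu 0) (oy m) = (oy m).re := by
    unfold dt
    show (1 : ℂ).re * (oy m).re + (1 : ℂ).im * (oy m).im = (oy m).re
    rw [one_re, one_im]
    ring
  have hu : uu 0 = 1 := rfl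
  unfold oV Vx
  rw [h1, oy_d0, oy_w, hu, mul_one]
  have e1 : 2 * (3 * oK / oS m ^ 2) / (3 / oS m) = 2 * oK / oS m := by
    field_simp
  rw [e1]
  have hK : 2 * oK = 4 * Real.sqrt 2 - 2 := by
    unfold oK
    ring
  have hre : (oy m).re = (kp * Real.cosh m - 2) / oS m := rfl
  have him : (oy m).im = s3 * kp * Real.sinh m / oS m := rfl
  have e2 : I * ((3 * oK / oS m ^ 2 : ℝ) : ℂ) * (((2 * oK / oS m : ℝ) : ℂ) - oy m) =
      ((3 * oK / oS m ^ 2 : ℝ) : ℂ) * (I * (((2 * oK / oS m : ℝ) : ℂ) - oy m)) := by ring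
  rw [e2]
  have e3 : I * (((2 * oK / oS m : ℝ) : ℂ) - oy m) = ((1 / oS m : ℝ) : ℂ) *
      ⟨s3 * kp * Real.sinh m, 4 * Real.sqrt 2 - kp * Real.cosh m⟩ := by
    apply Complex.ext
    · rw [re_ofReal_mul, I_mul_re, sub_im, ofReal_im, him]
      show -(0 - s3 * kp * Real.sinh m / oS m) = 1 / oS m * (s3 * kp * Real.sinh m)
      ring
    · rw [im_ofReal_mul, I_mul_im, sub_re, ofReal_re, hre]
      show 2 * oK / oS m - (kp * Real.cosh m - 2) / oS m =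
        1 / oS m * (4 * Real.sqrt 2 - kp * Real.cosh m)
      rw [hK]
      ring
  rw [e3, ← mul_assoc, ← ofReal_mul]
  congr 2
  field_simp

theorem oy_neg (m : ℝ) : oy (-m) = (starRingEnd ℂ) (oy m) := by
  unfold oy
  rw [Real.cosh_neg, Real.sinh_neg]
  apply Complex.ext
  · rw [conj_re]
  · rw [conj_im]
    show s3 * kp * -Real.sinh m / (2 * kp * Real.cosh m - 1) =
      -(s3 * kp * Real.sinh m / (2 * kp * Real.cosh m - 1))
    ring

theorem oR_neg (m : ℝ) : oR (-m) = oR m := by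
  unfold oR
  rw [ov_neg, normSq_conj]

theorem oN_neg (m : ℝ) : oN (-m) = (starRingEnd ℂ) (oN m) := by
  unfold oN
  rw [oR_neg, ov_neg, map_div₀, conj_ofReal]

end Pool.H61.Rh
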