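import Pool.Agent.H61.Re.D1

/-! # D2: the Hamiltonian identity of the exact costate

`dt (qy m) (oV m) = 1 + c (1 - 2 f* ρ*²)`.

Write `k = kp`, `r = √2`, `C = cosh m`, `h = sinh m`, `K = 2r - 1`, `S = 2kC - 1`;
`k² = 2r`, `r² = 2`, `s3² = 3`, `C² - h² = 1`.
By `oV_eq` and the definition of `qy`:
`dt (qy m) (oV m) = (3K/S³) · S/(9 s3 K²) · [T.re s3 k h + T.im (4r - k C)]`, `T = tk + l pk`,
`l = c · 3(4-r)/4`.
(1) `tk` part: `(tk.re s3 k h + tk.im (4r - kC)) = 3 s3 K S²`: the terms with `m` cancel, the rest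
is a polynomial identity.
(2) `pk` part: `pk.re s3 k h + pk.im (4r - kC) =
3[(9k-8C) k h² + (kC - 8C² + 4)(4r - kC)]`, and the claim is
`(3(4-r)/4) · 3[...] = 3 s3 K S² (1 - 2 f* ρ*²)`,
where `f* ρ*² = |a|² - Re(conj(y a) b)` (`oF_mul`), `a = oa m`, `b = ob m`, `y = oy m` explicit,
`oC² = 2√6/(3K)` (`oC_sq : oC² ((kp²-1)(√2 s3/4)) = 1`), and the products of `sA, cA, sB, cB`:
`sA cB + cA sB = r/2`, `sA cB - cA sB = 1/2`, `cA cB - sA sB = r/2`, `cA cB + sA sB = s3/2`,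
`sA² = 1/2 - (s3 r - r)/8`, `cA² = 1/2 + (s3 r - r)/8`, `sB² = 1/2 - (s3 r + r)/8`,
`cB² = 1/2 + (s3 r + r)/8` (angles `5π/24`, `π/24`; sum `π/4`, difference `π/6`; or use
`cA_eq`, `sA_eq`, `cB_sB`, `cB_sq_sub` of `R1.lean`). -/

set_option autoImplicit false

namespace Pool.H61.Rh

open Complex

private lemma D2_r : Real.sqrt 2 * Real.sqrt 2 = 2 := Real.mul_self_sqrt (by norm_num)

private lemma D2_s : s3 * s3 = 3 := Real.mul_self_sqrt (by norm_num)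

private lemma D2_r_pos : 0 < Real.sqrt 2 := by positivity

private lemma D2_s_pos : 0 < s3 := Real.sqrt_pos.mpr (by norm_num)

private lemma D2_AB : sA * cB + cA * sB = Real.sqrt 2 / 2 := by
  have h := Real.sin_add (5 * Real.pi / 24) (Real.pi / 24)
  rw [show 5 * Real.pi / 24 + Real.pi / 24 = Real.pi / 4 by ring, Real.sin_pi_div_four] at h
  exact h.symm

private lemma D2_AB' : sA * cB - cA * sB = 1 / 2 := by
  have h := Real.sin_sub (5 * Real.pi / 24) (Real.pi / 24)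
  rw [show 5 * Real.pi / 24 - Real.pi / 24 = Real.pi / 6 by ring, Real.sin_pi_div_six] at h
  exact h.symm

private lemma D2_CC : cA * cB - sA * sB = Real.sqrt 2 / 2 := by
  have h := Real.cos_add (5 * Real.pi / 24) (Real.pi / 24)
  rw [show 5 * Real.pi / 24 + Real.pi / 24 = Real.pi / 4 by ring, Real.cos_pi_div_four] at h
  exact h.symm

private lemma D2_CC' : cA * cB + sA * sB = s3 / 2 := by
  have h := Real.cos_sub (5 * Real.pi / 24) (Real.pi / 24)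
  rw [show 5 * Real.pi / 24 - Real.pi / 24 = Real.pi / 6 by ring, Real.cos_pi_div_six] at h
  exact h.symm

private lemma D2_p1 : sA * cB = (Real.sqrt 2 + 1) / 4 := by
  linarith [D2_AB, D2_AB']

private lemma D2_p2 : cA * sB = (Real.sqrt 2 - 1) / 4 := by
  linarith [D2_AB, D2_AB']

private lemma D2_p3 : cA * cB = (Real.sqrt 2 + s3) / 4 := by
  linarith [D2_CC, D2_CC']

private lemma D2_p4 : sA * sB = (s3 - Real.sqrt 2) / 4 := by
  linarith [D2_CC, D2_CC']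

private lemma D2_A : sA ^ 2 + cA ^ 2 = 1 := Real.sin_sq_add_cos_sq _

private lemma D2_B : sB ^ 2 + cB ^ 2 = 1 := Real.sin_sq_add_cos_sq _

private lemma D2_cA : cA ^ 2 = 1 / 2 + Real.sqrt 2 * (s3 - 1) / 8 := by
  have h1 := D2_p2
  have h2 := D2_p3
  have h3 := D2_B
  have h4 := D2_r
  have h5 := D2_s
  have e : cA ^ 2 = (cA * sB) ^ 2 + (cA * cB) ^ 2 := by
    linear_combination (-cA ^ 2) * h3
  rw [e, h1, h2]
  linear_combination (1 / 8) * h4 + (1 / 16) * h5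

private lemma D2_sA : sA ^ 2 = 1 / 2 - Real.sqrt 2 * (s3 - 1) / 8 := by
  linarith [D2_A, D2_cA]

private lemma D2_cB : cB ^ 2 = 1 / 2 + Real.sqrt 2 * (s3 + 1) / 8 := by
  have h1 := D2_p1
  have h2 := D2_p3
  have h3 := D2_A
  have h4 := D2_r
  have h5 := D2_s
  have e : cB ^ 2 = (sA * cB) ^ 2 + (cA * cB) ^ 2 := by
    linear_combination (-cB ^ 2) * h3
  rw [e, h1, h2]
  linear_combination (1 / 8) * h4 + (1 / 16) * h5

private lemma D2_cs : cB * sB = Real.sqrt 2 * (s3 - 1) / 8 := by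
  have h1 := D2_p1
  have h2 := D2_p2
  have h3 := D2_p3
  have h4 := D2_p4
  have h5 := D2_A
  have e : cB * sB = (sA * cB) * (sA * sB) + (cA * cB) * (cA * sB) := by
    linear_combination (-(cB * sB)) * h5
  rw [e, h1, h2, h3, h4]
  ring

private lemma D2_sc : sA * cA = Real.sqrt 2 * (s3 + 1) / 8 := by
  have h1 := D2_p1
  have h2 := D2_p2
  have h3 := D2_p3
  have h4 := D2_p4
  have h5 := D2_B
  have e : sA * cA = (sA * cB) * (cA * cB) + (sA * sB) * (cA * sB) := by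
    linear_combination (-(sA * cA)) * h5
  rw [e, h1, h2, h3, h4]
  ring

private lemma D2_a (m : ℝ) : normSq (oa m) = oC ^ 2 * (Real.cosh m ^ 2
    - kp * Real.cosh m * (Real.sqrt 2 + 1) / 2 + Real.sqrt 2 + s3 / 2
    - Real.sqrt 2 * (s3 - 1) / 8) := by
  have hh : Real.sinh m ^ 2 = Real.cosh m ^ 2 - 1 := Real.sinh_sq m
  have hk := kp_sq
  have hr := D2_r
  have e1 := D2_cA
  have e2 := D2_sA
  have e3 := D2_cB
  have e4 := D2_p1
  rw [normSq_apply]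
  unfold oa
  simp only
  linear_combination oC ^ 2 * Real.sinh m ^ 2 * e1 + oC ^ 2 * Real.cosh m ^ 2 * e2
    - 2 * oC ^ 2 * kp * Real.cosh m * e4 + oC ^ 2 * kp ^ 2 * e3
    + oC ^ 2 * (1 / 2 + Real.sqrt 2 * (s3 - 1) / 8) * hh
    + oC ^ 2 * (1 / 2 + Real.sqrt 2 * (s3 + 1) / 8) * hk
    + oC ^ 2 * ((s3 + 1) / 4) * hr

private lemma D2_gen (n1 n2 S A B X Y : ℝ) (hS : S ≠ 0) :
    ((n1 / S * A - n2 / S * B) * X + (n1 / S * B + n2 / S * A) * Y) * S =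
      (n1 * A - n2 * B) * X + (n1 * B + n2 * A) * Y := by
  field_simp

private lemma D2_b (m : ℝ) : dt (oy m * oa m) (ob m) * (2 * kp * Real.cosh m - 1) =
    oC ^ 2 * ((kp * Real.cosh m - 2) / 4 * (8 * Real.cosh m ^ 2 - 3 + 3 * Real.sqrt 2
      - (4 + Real.sqrt 2) * (kp * Real.cosh m))) := by
  have hh : Real.sinh m ^ 2 = Real.cosh m ^ 2 - 1 := Real.sinh_sq m
  have hk := kp_sq
  have hr := D2_r
  have hs := D2_s
  have p1 := D2_p1
  have p2 := D2_p2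
  have p3 := D2_p3
  have p4 := D2_p4
  have cs := D2_cs
  have sc := D2_sc
  have e2 := D2_sA
  have e3 := D2_cB
  have hS : (2 * kp * Real.cosh m - 1) ≠ 0 := (by linarith [oS_pos m] : (0:ℝ) < _).ne'
  unfold dt oa ob oy
  simp only [mul_re, mul_im]
  set k := kp
  set C := Real.cosh m
  set h := Real.sinh m
  set r := Real.sqrt 2
  have key : -(h ^ 2) * ((k * C - 2) * (cA * sB) - s3 * k * C * (sA * sB) + s3 * k ^ 2 * (cB * sB))
      + (k * C - 2) * (C ^ 2 * (sA * cB) - k * C * cB ^ 2 - k * C * sA ^ 2 + k ^ 2 * (sA * cB))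
      + s3 * k * h ^ 2 * (C * (cA * cB) - k * (sA * cA)) =
      (k * C - 2) / 4 * (8 * C ^ 2 - 3 + 3 * r - (4 + r) * (k * C)) := by
    rw [p1, p2, p3, p4, cs, sc, e2, e3, hh]
    linear_combination (-(C * k) / 2 - C ^ 2 * k ^ 2 * r / 4 + C ^ 3 * k / 2 + k ^ 2 * r / 4) * hs
      + (C * k * (1 + r) / 4 - 3 / 4 * C ^ 2 * r - 1 / 2 + r / 4) * hk
      + (C * k / 2 - 3 / 2 * C ^ 2 + 1 / 2) * hr
  rw [D2_gen (k * C - 2) (s3 * k * h) (2 * k * C - 1) (oC * (h * cA)) (oC * (C * sA - k * cB))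
    (-(oC * (h * sB))) (oC * (C * cB - k * sA)) hS, ← key]
  ring

private lemma D2_A1 (m : ℝ) : (tk m).re * (s3 * kp * Real.sinh m)
    + (tk m).im * (4 * Real.sqrt 2 - kp * Real.cosh m)
    = 3 * s3 * (2 * Real.sqrt 2 - 1) * (2 * kp * Real.cosh m - 1) ^ 2 := by
  have hh : Real.sinh m ^ 2 = Real.cosh m ^ 2 - 1 := Real.sinh_sq m
  have hk := kp_sq
  have hr := D2_r
  unfold tk
  simp only
  set k := kp
  set C := Real.cosh m
  set h := Real.sinh m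
  set r := Real.sqrt 2
  linear_combination (-(99 / 4) * C ^ 2 * r * s3 + 15 * C ^ 2 * s3 - (93 / 4) * r * s3 * h ^ 2
      - 15 * s3 * h ^ 2) * hk
    + (3 * k * C * s3 - (99 / 2) * C ^ 2 * s3 + (99 / 2) * s3 * h ^ 2 + 48 * s3) * hr
    + (-30 * r * s3 + 99 * s3) * hh

private lemma D2_B1 (m : ℝ) : (3 * (4 - Real.sqrt 2) / 4) * ((pk m).re * (s3 * kp * Real.sinh m)
    + (pk m).im * (4 * Real.sqrt 2 - kp * Real.cosh m))
    = 3 * s3 * (2 * Real.sqrt 2 - 1) * (2 * kp * Real.cosh m - 1) ^ 2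
      - 12 * Real.sqrt 2 * (2 * kp * Real.cosh m - 1) * ((Real.cosh m ^ 2
    - kp * Real.cosh m * (Real.sqrt 2 + 1) / 2 + Real.sqrt 2 + s3 / 2
    - Real.sqrt 2 * (s3 - 1) / 8) * (2 * kp * Real.cosh m - 1) -
      (kp * Real.cosh m - 2) / 4 * (8 * Real.cosh m ^ 2 - 3 + 3 * Real.sqrt 2
      - (4 + Real.sqrt 2) * (kp * Real.cosh m))) := by
  have hh : Real.sinh m ^ 2 = Real.cosh m ^ 2 - 1 := Real.sinh_sq m
  have hk := kp_sq
  have hr := D2_r
  have hs := D2_s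
  unfold pk
  simp only
  set k := kp
  set C := Real.cosh m
  set h := Real.sinh m
  set r := Real.sqrt 2
  linear_combination (-18 * k * C ^ 3 * r ^ 2 - 6 * C ^ 2 * r ^ 2 * s3 + 45 * C ^ 2 * r ^ 2
      - (63 / 4) * C ^ 2 * r + 12 * C ^ 2 * s3 - 9 * C ^ 2 - (27 / 4) * r * s3 ^ 2 * h ^ 2
      + 27 * s3 ^ 2 * h ^ 2) * hk
    + (-36 * k * C ^ 3 * r + 6 * k * C * s3 - 18 * k * C - 12 * C ^ 2 * r * s3 + 90 * C ^ 2 * r
      + (81 / 2) * C ^ 2 - (27 / 2) * s3 ^ 2 * h ^ 2 - (3 / 2) * s3 - (81 / 2)) * hr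
    + (6 * k * C * r * h ^ 2 - 24 * k * C * h ^ 2 + 54 * r * h ^ 2 - 27 * h ^ 2) * hs
    + (18 * k * C * r - 72 * k * C + 162 * r - 81) * hh

theorem qy_ham (m : ℝ) : dt (qy m) (oV m) = 1 + oc * (1 - 2 * oF m * oR m ^ 2) := by
  have hA := D2_A1 m
  have hB := D2_B1 m
  have ha := D2_a m
  have hb := D2_b m
  have hF := oF_mul m
  have hr := D2_r
  have hSp : (0 : ℝ) < 2 * kp * Real.cosh m - 1 := by linarith [oS_pos m]
  have hK : (0 : ℝ) < 2 * Real.sqrt 2 - 1 := oK_pos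
  have hs := D2_s_pos
  have hoC := oC_sq
  rw [kp_sq] at hoC
  have hkey : s3 * (2 * Real.sqrt 2 - 1) * oC ^ 2 = 2 * Real.sqrt 2 := by
    linear_combination (4 * Real.sqrt 2 / 2) * hoC
      - (s3 * (2 * Real.sqrt 2 - 1) * oC ^ 2 / 2) * hr
  rw [oV_eq]
  unfold qy
  set a1 : ℝ := Real.cosh m ^ 2 - kp * Real.cosh m * (Real.sqrt 2 + 1) / 2 + Real.sqrt 2 + s3 / 2
    - Real.sqrt 2 * (s3 - 1) / 8 with ha1
  set b1 : ℝ := (kp * Real.cosh m - 2) / 4 * (8 * Real.cosh m ^ 2 - 3 + 3 * Real.sqrt 2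
      - (4 + Real.sqrt 2) * (kp * Real.cosh m)) with hb1
  set A := (tk m).re * (s3 * kp * Real.sinh m)
    + (tk m).im * (4 * Real.sqrt 2 - kp * Real.cosh m) with hAdef
  set B := (pk m).re * (s3 * kp * Real.sinh m)
    + (pk m).im * (4 * Real.sqrt 2 - kp * Real.cosh m) with hBdef
  have hdt : dt (((oS m / (9 * s3 * oK ^ 2) : ℝ) : ℂ) *
      (tk m + ((oc * (3 * (4 - Real.sqrt 2) / 4) : ℝ) : ℂ) * pk m))
      (((3 * oK / oS m ^ 3 : ℝ) : ℂ) *
        (⟨s3 * kp * Real.sinh m, 4 * Real.sqrt 2 - kp * Real.cosh m⟩ : ℂ)) =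
      (oS m / (9 * s3 * oK ^ 2)) * (3 * oK / oS m ^ 3) *
        (A + oc * (3 * (4 - Real.sqrt 2) / 4) * B) := by
    unfold dt
    simp only [mul_re, mul_im, add_re, add_im, ofReal_re, ofReal_im, zero_mul, sub_zero, add_zero]
    rw [hAdef, hBdef]
    ring
  rw [hdt]
  have hoS : oS m = 2 * kp * Real.cosh m - 1 := rfl
  have hoK : oK = 2 * Real.sqrt 2 - 1 := rfl
  rw [hoS, hoK]
  set S : ℝ := 2 * kp * Real.cosh m - 1 with hS
  set K : ℝ := 2 * Real.sqrt 2 - 1 with hKd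
  have hP : oF m * oR m ^ 2 * S = oC ^ 2 * (a1 * S - b1) := by
    rw [hF, ha]
    linear_combination (-1 : ℝ) * hb
  have hB' : (3 * (4 - Real.sqrt 2) / 4) * B = 3 * s3 * K * S ^ 2 * (1 - 2 * (oF m * oR m ^ 2)) := by
    rw [hB]
    linear_combination (6 * s3 * K * S) * hP + 6 * S * (a1 * S - b1) * hkey
  have hsum : A + oc * (3 * (4 - Real.sqrt 2) / 4) * B =
      3 * s3 * K * S ^ 2 * (1 + oc * (1 - 2 * oF m * oR m ^ 2)) := by
    rw [hA]
    linear_combination oc * hB'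
  rw [hsum]
  field_simp
  ring

end Pool.H61.Rh
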