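import Pool.Agent.H61.Re.D1

/-! # D4: derivatives and smoothness of the arc

`oy_hasDerivAt`, `oa_hasDerivAt`, `ob_hasDerivAt` are in `R1.lean`.
`ov = -(‖a‖ b / a)`, `a = oa m ≠ 0` (`normSq a = 1 + normSq b`); smoothness: `oa`, `ob`, `oy` are
explicit in `Real.sinh`, `Real.cosh`; `‖a‖ = √(normSq a)`, `Real.sqrt` is smooth on positive
numbers (`ContDiff.sqrt`) .
`ov_hasDerivAt`: `vd m = osd m (b* - 2 i v*)`.  The derivative along the solution of the system:
either directly (`a' = otau' i (a - ȳ b)`, `b' = otau' i (y a - b)`, `‖a‖' = Re(ā a')/‖a‖`), with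
`Bd_eq`, `Bf_eq` of `R5a.lean`, or see `R5.lean`/`N8a.lean` where the same computation was done for
`vf (a τ) (b τ)` (`vt`, lemma on the derivative of `vf`); `osd = fs y* v* · otau'` (`osd_eq`). -/

set_option autoImplicit false

namespace Pool.H61.Rh

open Complex

private lemma D4_mk {f g : ℝ → ℝ} {f' g' m : ℝ} (hf : HasDerivAt f f' m)
    (hg : HasDerivAt g g' m) : HasDerivAt (fun x => (⟨f x, g x⟩ : ℂ)) ⟨f', g'⟩ m := by
  have h := hf.ofReal_comp.add (hg.ofReal_comp.mul_const I)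
  have e1 : (fun x => (⟨f x, g x⟩ : ℂ)) = fun x => ((f x : ℝ) : ℂ) + ((g x : ℝ) : ℂ) * I := by
    funext x
    exact (Complex.mk_eq_add_mul_I (f x) (g x))
  have e2 : (⟨f', g'⟩ : ℂ) = (f' : ℂ) + (g' : ℂ) * I := Complex.mk_eq_add_mul_I f' g'
  rw [e1, e2]
  exact h

private lemma D4_ofReal {f : ℝ → ℝ} (hf : ContDiff ℝ 1 f) : ContDiff ℝ 1 (fun x => (f x : ℂ)) :=
  ofRealCLM.contDiff.comp hf

private lemma D4_cmk {f g : ℝ → ℝ} (hf : ContDiff ℝ 1 f)
    (hg : ContDiff ℝ 1 g) : ContDiff ℝ 1 (fun x => (⟨f x, g x⟩ : ℂ)) := by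
  have e1 : (fun x => (⟨f x, g x⟩ : ℂ)) = fun x => ((f x : ℝ) : ℂ) + ((g x : ℝ) : ℂ) * I := by
    funext x
    exact (Complex.mk_eq_add_mul_I (f x) (g x))
  rw [e1]
  exact (D4_ofReal hf).add ((D4_ofReal hg).mul contDiff_const)

private lemma D4_norm_pos {a b : ℂ} (h : normSq a - normSq b = 1) : 0 < ‖a‖ := by
  rw [norm_pos_iff]
  intro h0
  rw [h0, map_zero] at h
  have := normSq_nonneg b
  linarith

private lemma D4_norm_deriv {a : ℝ → ℂ} {a' : ℂ} {τ : ℝ} (ha : HasDerivAt a a' τ)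
    (h : 0 < ‖a τ‖) : HasDerivAt (fun t => ‖a t‖) (dt (a τ) a' / ‖a τ‖) τ := by
  have hre : HasDerivAt (fun t => (a t).re) a'.re τ :=
    (reCLM.hasFDerivAt (x := a τ)).comp_hasDerivAt τ ha
  have him : HasDerivAt (fun t => (a t).im) a'.im τ :=
    (imCLM.hasFDerivAt (x := a τ)).comp_hasDerivAt τ ha
  have hN : HasDerivAt (fun t => (a t).re * (a t).re + (a t).im * (a t).im)
      ((a'.re * (a τ).re + (a τ).re * a'.re) + (a'.im * (a τ).im + (a τ).im * a'.im)) τ :=
    (hre.mul hre).add (him.mul him)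
  have h0 : (a τ).re * (a τ).re + (a τ).im * (a τ).im ≠ 0 := by
    rw [← normSq_apply, normSq_eq_norm_sq]
    positivity
  have hs := hN.sqrt h0
  have e : (fun t => ‖a t‖) = fun t => √((a t).re * (a t).re + (a t).im * (a t).im) := by
    funext t
    rw [norm_def, normSq_apply]
  rw [e]
  have e2 : √((a τ).re * (a τ).re + (a τ).im * (a τ).im) = ‖a τ‖ := by
    rw [norm_def, normSq_apply]
  rw [e2] at hs
  refine hs.congr_deriv ?_
  unfold dt
  field_simp
  ring

private lemma D4_vf_norm {a b : ℂ} (h : normSq a - normSq b = 1) : ‖vf a b‖ = ‖b‖ := by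
  have hpos := D4_norm_pos h
  unfold vf
  rw [norm_neg, norm_div, norm_mul, norm_real, norm_norm, mul_comm, mul_div_assoc,
    div_self hpos.ne', mul_one]

private lemma D4_abs_dt (x y : ℂ) : |dt x y| ≤ ‖x‖ * ‖y‖ := by
  rw [dt_eq_re]
  calc |((starRingEnd ℂ) x * y).re| ≤ ‖(starRingEnd ℂ) x * y‖ := abs_re_le_norm _
    _ = ‖x‖ * ‖y‖ := by rw [norm_mul, norm_conj]

private lemma D4_vt_eq {y v : ℂ} (hy : ‖y‖ < 1) :
    vt y v = -I * (Real.sqrt (1 + normSq v) : ℂ) * y - 2 * I * v -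
      I * v * ((dt y v / Real.sqrt (1 + normSq v) : ℝ) : ℂ) := by
  have hv := normSq_nonneg v
  have hr : 0 < Real.sqrt (1 + normSq v) := Real.sqrt_pos.2 (by linarith)
  have hsq : Real.sqrt (1 + normSq v) ^ 2 = 1 + normSq v := Real.sq_sqrt (by linarith)
  have hvr : ‖v‖ < Real.sqrt (1 + normSq v) := by
    refine Real.lt_sqrt_of_sq_lt ?_
    rw [normSq_eq_norm_sq]
    linarith
  have hd : 0 < Real.sqrt (1 + normSq v) + dt y v := by
    have h1 := D4_abs_dt y v
    have h2 := (abs_le.1 h1).1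
    have h3 : ‖y‖ * ‖v‖ ≤ 1 * ‖v‖ := mul_le_mul_of_nonneg_right hy.le (norm_nonneg v)
    linarith
  unfold vt bp fs
  generalize Real.sqrt (1 + normSq v) = r at hr hsq hd
  generalize hD : dt y v = D at hd
  rw [← hsq]
  have hrc : (r : ℂ) ≠ 0 := by exact_mod_cast hr.ne'
  have hdc : ((r : ℂ) + (D : ℂ)) ≠ 0 := by exact_mod_cast hd.ne'
  push_cast
  field_simp
  ring

private theorem D4_vf_hasDerivAt {a b : ℝ → ℂ} {y : ℂ} {τ c : ℝ}
    (ha : HasDerivAt a ((c : ℂ) * (I * (a τ - (starRingEnd ℂ) y * b τ))) τ)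
    (hb : HasDerivAt b ((c : ℂ) * (I * (y * a τ - b τ))) τ) (h : normSq (a τ) - normSq (b τ) = 1)
    (hy : ‖y‖ < 1) :
    HasDerivAt (fun t => vf (a t) (b t)) ((c : ℂ) * vt y (vf (a τ) (b τ))) τ := by
  have hpos := D4_norm_pos h
  have ha0 : a τ ≠ 0 := norm_pos_iff.1 hpos
  have hn := (D4_norm_deriv ha hpos).ofReal_comp
  have hc : ((‖a τ‖ : ℝ) : ℂ) ≠ 0 := by exact_mod_cast hpos.ne'
  have hd := ((hn.mul hb).div ha ha0).neg
  have hfun : (fun t => vf (a t) (b t)) = fun t => -((‖a t‖ : ℂ) * b t / a t) := rfl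
  rw [hfun]
  refine hd.congr_deriv ?_
  rw [D4_vt_eq hy]
  have hns : normSq (vf (a τ) (b τ)) = normSq (b τ) := by
    rw [normSq_eq_norm_sq, normSq_eq_norm_sq, D4_vf_norm h]
  have hr : Real.sqrt (1 + normSq (vf (a τ) (b τ))) = ‖a τ‖ := by
    rw [hns]
    have : 1 + normSq (b τ) = ‖a τ‖ ^ 2 := by
      rw [← normSq_eq_norm_sq]
      linarith
    rw [this, Real.sqrt_sq hpos.le]
  rw [hr]
  have hsq : (‖a τ‖ : ℂ) ^ 2 = (starRingEnd ℂ) (a τ) * a τ := by
    rw [← normSq_eq_conj_mul_self, normSq_eq_norm_sq]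
    push_cast
    ring
  have e1 : ((dt (a τ) ((c : ℂ) * (I * (a τ - (starRingEnd ℂ) y * b τ))) : ℝ) : ℂ) =
      (c : ℂ) * (((starRingEnd ℂ) (a τ) * (I * (a τ - (starRingEnd ℂ) y * b τ)) +
        a τ * (-I * ((starRingEnd ℂ) (a τ) - y * (starRingEnd ℂ) (b τ)))) / 2) := by
    apply Complex.ext
    · simp [dt]
      ring
    · simp [dt]
      right
      ring
  have e2 : ((dt y (vf (a τ) (b τ)) : ℝ) : ℂ) =
      -((starRingEnd ℂ) y * ((‖a τ‖ : ℂ) * b τ / a τ) +
        y * ((‖a τ‖ : ℂ) * (starRingEnd ℂ) (b τ) / (starRingEnd ℂ) (a τ))) / 2 := by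
    have e3 : ((dt y (vf (a τ) (b τ)) : ℝ) : ℂ) =
        ((starRingEnd ℂ) y * vf (a τ) (b τ) + y * (starRingEnd ℂ) (vf (a τ) (b τ))) / 2 := by
      apply Complex.ext
      · simp [dt]
      · simp [dt]
        ring
    rw [e3]
    unfold vf
    rw [map_neg, map_div₀, map_mul, conj_ofReal]
    ring
  have hca : (starRingEnd ℂ) (a τ) ≠ 0 := by
    rw [Ne, map_eq_zero]
    exact ha0
  rw [ofReal_div, ofReal_div, e1, e2]
  unfold vf
  simp only [Pi.mul_apply]
  generalize hA : (starRingEnd ℂ) (a τ) = A at *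
  generalize hB : (starRingEnd ℂ) (b τ) = B at *
  generalize hY : (starRingEnd ℂ) y = Y at *
  generalize hR : ((‖a τ‖ : ℝ) : ℂ) = R at *
  generalize a τ = α at *
  generalize b τ = β at *
  generalize (c : ℂ) = γ at *
  field_simp
  linear_combination (γ * (α * β * y * B - A * β ^ 2 * Y)) * hsq

theorem oy_hasDerivAt' (m : ℝ) : HasDerivAt oy (yd m) m := oy_hasDerivAt m

private lemma D4_oy_norm (m : ℝ) : ‖oy m‖ < 1 := by
  have h1 := oy_w m
  have h2 := oS_gt m
  have h3 := oK_pos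
  have h4 : 0 < 3 * oK / oS m ^ 2 := by
    have : 0 < oS m := by linarith
    positivity
  have h5 : ‖oy m‖ ^ 2 < 1 := by
    rw [← normSq_eq_norm_sq]
    linarith
  nlinarith [norm_nonneg (oy m)]

theorem ov_hasDerivAt (m : ℝ) : HasDerivAt ov (vd m) m := by
  have h := D4_vf_hasDerivAt (oa_hasDerivAt m) (ob_hasDerivAt m) (oa_normSq m) (D4_oy_norm m)
  refine h.congr_deriv ?_
  unfold vd oB vt
  rw [osd_eq]
  show (otau' m : ℂ) * (((fs (oy m) (ov m) : ℝ) : ℂ) * (bp (oy m) (ov m) - 2 * I * ov m)) =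
    ((fs (oy m) (ov m) * otau' m : ℝ) : ℂ) * (bp (oy m) (ov m) - 2 * I * ov m)
  push_cast
  ring

private lemma D4_cosh : ContDiff ℝ 1 Real.cosh := Real.contDiff_cosh

private lemma D4_sinh : ContDiff ℝ 1 Real.sinh := Real.contDiff_sinh

theorem oy_contDiff : ContDiff ℝ 1 oy := by
  have h0 : ∀ m : ℝ, 2 * kp * Real.cosh m - 1 ≠ 0 := fun m => by linarith [oS_pos m]
  have hd : ContDiff ℝ 1 (fun m : ℝ => 2 * kp * Real.cosh m - 1) :=
    (contDiff_const.mul D4_cosh).sub contDiff_const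
  exact D4_cmk (((contDiff_const.mul D4_cosh).sub contDiff_const).div hd h0)
    ((contDiff_const.mul D4_sinh).div hd h0)

private lemma D4_oa : ContDiff ℝ 1 oa :=
  D4_cmk (contDiff_const.mul (D4_sinh.mul contDiff_const))
    (contDiff_const.mul ((D4_cosh.mul contDiff_const).sub contDiff_const))

private lemma D4_ob : ContDiff ℝ 1 ob :=
  D4_cmk (contDiff_const.mul (D4_sinh.mul contDiff_const)).neg
    (contDiff_const.mul ((D4_cosh.mul contDiff_const).sub contDiff_const))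

theorem ov_contDiff : ContDiff ℝ 1 ov := by
  have ha0 : ∀ m, oa m ≠ 0 := fun m => norm_pos_iff.1 (D4_norm_pos (oa_normSq m))
  have hn : ContDiff ℝ 1 (fun m => ‖oa m‖) := D4_oa.norm ℝ ha0
  exact (((D4_ofReal hn).mul D4_ob).mul (D4_oa.inv ha0)).neg

theorem qy_contDiff : ContDiff ℝ 1 qy := by
  have hc := D4_cosh
  have hs := D4_sinh
  have hi : ContDiff ℝ 1 (fun m : ℝ => m) := contDiff_id
  have hS : ContDiff ℝ 1 oS := (contDiff_const.mul hc).sub contDiff_const
  have ht : ContDiff ℝ 1 tk := by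
    apply D4_cmk
    · fun_prop
    · fun_prop
  have hp : ContDiff ℝ 1 pk := by
    apply D4_cmk
    · fun_prop
    · fun_prop
  exact (D4_ofReal (hS.div_const _)).mul (ht.add (contDiff_const.mul hp))

private lemma D4_hor (l : List ℝ) (t : ℝ) : HasDerivAt (hor l) (dhor l t) t := by
  induction l with
  | nil =>
    have e : hor [] = fun _ => 0 := by
      funext x
      rfl
    rw [e]
    exact hasDerivAt_const _ _
  | cons a l ih =>
    have e : hor (a :: l) = fun t => a + t * hor l t := by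
      funext x
      rfl
    rw [e]
    have h := ((hasDerivAt_id t).mul ih).const_add a
    refine h.congr_deriv ?_
    show 1 * hor l t + t * dhor l t = dhor (a :: l) t
    rw [one_mul]
    rfl

private lemma D4_hor_contDiff (l : List ℝ) : ContDiff ℝ 1 (hor l) := by
  induction l with
  | nil =>
    have e : hor [] = fun _ => 0 := by
      funext x
      rfl
    rw [e]
    exact contDiff_const
  | cons a l ih =>
    have e : hor (a :: l) = fun t => a + t * hor l t := by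
      funext x
      rfl
    rw [e]
    exact contDiff_const.add (contDiff_id.mul ih)

theorem Cf.hasDerivAt (c : Cf) (m : ℝ) : HasDerivAt c.ev (c.dv m) m := by
  have h0 : HasDerivAt (fun m : ℝ => m / m1) (1 / m1) m := (hasDerivAt_id m).div_const m1
  have h1 : HasDerivAt (fun m : ℝ => (m / m1) ^ 2) (2 * (m / m1) / m1) m := by
    refine (h0.pow 2).congr_deriv ?_
    push_cast
    ring
  have hp : HasDerivAt (fun m : ℝ => hor c.p ((m / m1) ^ 2))
      (dhor c.p ((m / m1) ^ 2) * (2 * (m / m1) / m1)) m :=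
    HasDerivAt.comp m (D4_hor c.p ((m / m1) ^ 2)) h1
  have hq : HasDerivAt (fun m : ℝ => hor c.q ((m / m1) ^ 2))
      (dhor c.q ((m / m1) ^ 2) * (2 * (m / m1) / m1)) m :=
    HasDerivAt.comp m (D4_hor c.q ((m / m1) ^ 2)) h1
  have hq2 : HasDerivAt (fun m : ℝ => s3 * (m / m1) * hor c.q ((m / m1) ^ 2)) _ m :=
    (h0.const_mul s3).mul hq
  have h := D4_mk hp hq2
  refine h.congr_deriv ?_
  unfold Cf.dv
  apply Complex.ext
  · show dhor c.p ((m / m1) ^ 2) * (2 * (m / m1) / m1) =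
      2 * (m / m1) / m1 * dhor c.p ((m / m1) ^ 2)
    ring
  · show s3 * (1 / m1) * hor c.q ((m / m1) ^ 2) +
      s3 * (m / m1) * (dhor c.q ((m / m1) ^ 2) * (2 * (m / m1) / m1)) =
      s3 / m1 * (hor c.q ((m / m1) ^ 2) + 2 * (m / m1) ^ 2 * dhor c.q ((m / m1) ^ 2))
    ring

theorem Cf.contDiff (c : Cf) : ContDiff ℝ 1 c.ev := by
  have h0 : ContDiff ℝ 1 (fun m : ℝ => m / m1) := contDiff_id.div_const m1
  have h1 : ContDiff ℝ 1 (fun m : ℝ => (m / m1) ^ 2) := h0.pow 2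
  exact D4_cmk ((D4_hor_contDiff c.p).comp h1)
    ((contDiff_const.mul h0).mul ((D4_hor_contDiff c.q).comp h1))

end Pool.H61.Rh
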