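import Pool.Agent.H61.Re.D0

/-! # F0: the flat formulas at `v = v*`: definitions

A point `P : Pt` collects the values at a parameter `m`: `ys = y*`, `vs = v*`, `ns = n*`, `bs = b*`,
`V0 = V*`, `a = q_y + a_e`, `b = b_e`, `sa = a_s` (flat), `kap`, `fvs`, `rs = ρ*`, `fs = f*`,
`aeV = a_e·V*/f*`, `c` the coefficients of `V`, `cs` their derivatives per unit of `s`.
`x = y - y*`, `η` any vector (`V_j(y)`).
`Eh = f² E_0 + f² res_x·x`, `Gh = f³ (g + res_u)`. -/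

set_option autoImplicit false

namespace Pool.H61.Rh

open Complex

/-- scaling of the coefficients -/
noncomputable def VC.sm (t : ℝ) (c : VC) : VC :=
  ⟨(t : ℂ) * c.xx, (t : ℂ) * c.xb, (t : ℂ) * c.x3, (t : ℂ) * c.x2b, (t : ℂ) * c.xu, (t : ℂ) * c.xc,
    (t : ℂ) * c.x2u, (t : ℂ) * c.x2c, (t : ℂ) * c.xbu⟩

/-- the data at a point of the arc -/
structure Pt where
  (ys vs ns bs V0 a b sa kap fvs : ℂ) (rs fs aeV : ℝ) (c cs : VC)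

/-- `e1 = n*·x` -/
noncomputable def Pt.e1 (P : Pt) (x : ℂ) : ℝ := dt P.ns x

/-- `f = f* + n*·x` -/
noncomputable def Pt.f (P : Pt) (x : ℂ) : ℝ := P.fs + dt P.ns x

/-- `f_v` at `y` -/
noncomputable def Pt.fv (P : Pt) (y : ℂ) : ℂ := (y - (dt y P.ns : ℂ) * P.ns) / (P.rs : ℂ)

/-- `M = ρ* (x - e1 n*) - i e1 b*` -/
noncomputable def Pt.M (P : Pt) (x : ℂ) : ℂ :=
  (P.rs : ℂ) * (x - (dt P.ns x : ℂ) * P.ns) - (dt P.ns x : ℂ) * (I * P.bs)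

/-- `Z(y)ᵀ w` -/
noncomputable def Pt.ZT (P : Pt) (y w : ℂ) : ℂ :=
  (dt w (-(I * y)) : ℂ) * P.ns + (dt w (I * P.vs - P.bs) : ℂ) * P.fv y - (dt y P.ns : ℂ) * (I * w)

/-- derivative of `V_0` at `y*` in the direction `x` -/
noncomputable def Pt.DV (P : Pt) (x : ℂ) : ℂ :=
  I * ((-2 * dt P.ys x : ℝ) : ℂ) *
      (((2 * (1 - normSq P.ys) / (1 - 2 * P.ys.re) : ℝ) : ℂ) - P.ys)
    + I * ((1 - normSq P.ys : ℝ) : ℂ) *
      (((-4 * dt P.ys x / (1 - 2 * P.ys.re)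
        + 4 * (1 - normSq P.ys) * x.re / (1 - 2 * P.ys.re) ^ 2 : ℝ) : ℂ) - x)

/-- the second order part of `D_0` -/
noncomputable def Pt.X (P : Pt) (x η : ℂ) : ℝ :=
  -dt P.a (η - P.V0 - P.DV x) - dt P.ns x * dt P.sa x - P.f x * VA P.cs x
    - dt (VAx P.c x) (η - ((P.f x / P.fs : ℝ) : ℂ) * P.V0) + dt (VB P.c x) (I * P.M x)

/-- auxiliary part of the gradient -/
noncomputable def Pt.G (P : Pt) (x η : ℂ) : ℂ :=
  ((1 / 2 - oc : ℝ) : ℂ) * P.M x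
    - ((dt P.sa x + VA P.cs x - dt (VAx P.c x) P.V0 / P.fs : ℝ) : ℂ) * P.fv (P.ys + x)
    - (P.f x : ℂ) * VB P.cs x - VBd P.c x (η - ((P.f x / P.fs : ℝ) : ℂ) * P.V0)
    - P.ZT (P.ys + x) (VB P.c x) - ((2 * P.f x : ℝ) : ℂ) * (I * VB P.c x)
    + (dt P.ns x : ℂ) * P.kap - (P.ZT (P.ys + x) P.b - P.ZT P.ys P.b)
    + (P.aeV : ℂ) * (P.fv (P.ys + x) - P.fvs)

/-- `f² E_0`, flat -/
noncomputable def Pt.Eh (P : Pt) (x η : ℂ) : ℝ := -(normSq (P.M x)) / 12 + P.f x * P.X x η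

/-- `f³ g`, flat -/
noncomputable def Pt.Gh (P : Pt) (x η : ℂ) : ℂ :=
  ((P.f x / 6 : ℝ) : ℂ) * P.ZT (P.ys + x) (I * P.M x)
    + ((normSq (P.M x) / 6 - P.f x * P.X x η : ℝ) : ℂ) * P.fv (P.ys + x)
    + ((P.f x ^ 2 : ℝ) : ℂ) * P.G x η

/-- the point of the arc at `m` -/
noncomputable def VD.pt (d : VD) (m : ℝ) : Pt where
  ys := oy m
  vs := ov m
  ns := oN m
  bs := oB m
  V0 := oV m
  a := qy m + d.ae m
  b := d.be m
  sa := (-DVT (oy m) (qy m + d.ae m)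
      + ((dt (d.ae m) (oV m) / oF m - 2 * oc * oR m ^ 2
          + dt (d.be m) (oB m - (oR m : ℂ) * (I * oN m)) : ℝ) : ℂ) * oN m
      - (oR m : ℂ) * (I * d.be m)) / (oF m : ℂ)
  kap := ((dt (d.be m) (-(I * oy m)) : ℂ) * oN m
      + ((dt (d.be m) (I * ov m - oB m) - dt (d.ae m) (oV m) / oF m : ℝ) : ℂ) *
        ((oy m - (dt (oy m) (oN m) : ℂ) * oN m) / (oR m : ℂ))
      - (dt (oy m) (oN m) : ℂ) * (I * d.be m)) / (oF m : ℂ)
  fvs := (oy m - (dt (oy m) (oN m) : ℂ) * oN m) / (oR m : ℂ)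
  rs := oR m
  fs := oF m
  aeV := dt (d.ae m) (oV m) / oF m
  c := d.ev m
  cs := VC.sm (1 / osd m) (d.dv m)

/-- residual of the costate equation, `y` part -/
noncomputable def VD.resx (d : VD) (m : ℝ) : ℂ := (qd m + d.aed m) / (osd m : ℂ) - (d.pt m).sa

/-- residual of the costate equation, `v` part -/
noncomputable def VD.resu (d : VD) (μ m : ℝ) : ℂ :=
  d.bed m / (osd m : ℂ) - ((μ : ℂ) * (starRingEnd ℂ) (es (oa m) ^ 8) - 2 * I * d.be m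
    - (d.pt m).kap)

/-- value of `E = Lag - DW[1/osd, η/fs, vt/fs]` at `v = v*` -/
noncomputable def VD.E0 (d : VD) (m : ℝ) (x η : ℂ) : ℝ :=
  -(normSq (bp (oy m + x) (ov m) - oB m)) / 12 - d.Am m x / osd m
    - dt (d.at m x) η / fs (oy m + x) (ov m) - dt (d.bt m x) (bp (oy m + x) (ov m) - oB m)

/-- transpose of the `v`-derivative of `bp` at `(y* + x, v*)` -/
noncomputable def VD.DbT (m : ℝ) (x X : ℂ) : ℂ :=
  (((dt (I * X) (oy m + x) : ℝ) : ℂ) * oN m - ((dt (oy m + x) (oN m) : ℝ) : ℂ) * (I * X)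
    - ((dt (I * X) (ov m + ((oR m : ℂ) * (oy m + x) - ((dt (oy m + x) (oN m) : ℝ) : ℂ) * ov m)
        / ((fs (oy m + x) (ov m) : ℝ) : ℂ)) : ℝ) : ℂ) *
      ((oy m + x - ((dt (oy m + x) (oN m) : ℝ) : ℂ) * oN m) / (oR m : ℂ)))
    / ((fs (oy m + x) (ov m) : ℝ) : ℂ)

/-- gradient of `E` in `v` at `v = v*` -/
noncomputable def VD.gj (d : VD) (μ m : ℝ) (x η : ℂ) : ℂ :=
  -(2 * I * oB m) - I / 2 * (bp (oy m + x) (ov m) - oB m) + (μ : ℂ) * (starRingEnd ℂ) (es (oa m) ^ 8)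
    - d.btm m x / (osd m : ℂ) - VBd (d.ev m) x η / ((fs (oy m + x) (ov m) : ℝ) : ℂ)
    + ((dt (d.at m x) η / fs (oy m + x) (ov m) ^ 2 : ℝ) : ℂ) *
      ((oy m + x - ((dt (oy m + x) (oN m) : ℝ) : ℂ) * oN m) / (oR m : ℂ))
    - VD.DbT m x (d.bt m x + (bp (oy m + x) (ov m) - oB m) / 6) - 2 * I * d.bt m x

end Pool.H61.Rh
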