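import Pool.Agent.H61.Re.F0
import Pool.Agent.H61.Re.D2

/-! # F1: the flat formula for the value at `v*`

`y = y* + x`, `f = fs y v* = f* + n*·x` (`fs y v = 1 + y·v/ρ`), `e1 = n*·x`.
(1) `f (bp y v* - b*) = -i M`: `bp y v = -i (ρ² y - (y·v) v)/(ρ f)·`, i.e.
`f bp y v* = -i (ρ* y - (y·n*) v*)` and `f b* = f* b* + e1 b* = -i(ρ* y* - (y*·n*) v*) + e1 b*`.
(2) `Am/osd`: `qd/osd`: `otau'/osd = 1/f*` (`osd_eq`), so
`qd/osd = (-DVT y* q_y - 2 c ρ*² n*)/f*`, `yd/osd = V*/f*`.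
(3) hence `f² E_0 = -|M|²/12 - f² (qd + aed)·x/osd + f² (at·V*)/f* - f² VA cs x - f at·η
  - f² β·(bp - b*)`, and `f β·(bp - b*) = -β·(iM)`, `β = -(1+c) i v* + b + B`:
`-i v*·(iM) = - v*·M`, `v*·M = e1/f*` (use `i b* f* = ρ* y* - (y*·n*) v*`,
`|v*|² = ρ*² - 1`, `y*·v* = ρ* (f* - 1)`), so `- f β·(bp-b*) = β·(iM) = -(1+c) e1/f* + (b+B)·(iM)`.
(4) put `a = q_y + a_e`, `at = a + VAx`.  The claim `f² E_0 = Eh - f² resx·x` with
`resx = (qd + aed)/osd - sa` reduces (divide by `f`) to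
`-f sa·x + (f/f*) a·V* - a·η - (1+c) e1/f* + b·(iM) = -a·(η - V* - DV x) - e1 sa·x`, i.e.
`f* sa·x = e1 (a·V*)/f* - a·DV x - (1+c) e1/f* + b·(iM)`.
Here `a·(DV x) = (DVT y* a)·x`, `b·(iM) = (-(i ρ* b) + (b·(b* - i ρ* n*)) n*)·x`,
`a·V* = q_y·V* + a_e·V*`, and `q_y·V* = 1 + c(1 - 2 f* ρ*²)` (`qy_ham`) gives
`e1 (q_y·V* - 1 - c)/f* = -2 c ρ*² e1`: this is the definition of `sa`.
Checked numerically to 1e-16 (`/team-store/h61_RE_chk.tgz`, `flat.py`). -/

set_option autoImplicit false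

namespace Pool.H61.Rh

open Complex

private lemma F1_ext {z w : ℂ} (h1 : z.re = w.re) (h2 : z.im = w.im) : z = w := Complex.ext h1 h2

private lemma F1_R_pos (m : ℝ) : 0 < oR m := lt_of_lt_of_le one_pos (oR_ge m)

private lemma F1_sqrt (m : ℝ) : Real.sqrt (1 + normSq (ov m)) = oR m := rfl

private lemma F1_n_re (m : ℝ) : (oN m).re = (ov m).re / oR m := by
  unfold oN
  exact Complex.div_ofReal_re _ _

private lemma F1_n_im (m : ℝ) : (oN m).im = (ov m).im / oR m := by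
  unfold oN
  exact Complex.div_ofReal_im _ _

private lemma F1_v_re (m : ℝ) : (ov m).re = oR m * (oN m).re := by
  have := (F1_R_pos m).ne'
  rw [F1_n_re]
  field_simp

private lemma F1_v_im (m : ℝ) : (ov m).im = oR m * (oN m).im := by
  have := (F1_R_pos m).ne'
  rw [F1_n_im]
  field_simp

private lemma F1_fs (y : ℂ) (m : ℝ) : fs y (ov m) = 1 + dt y (oN m) := by
  have := (F1_R_pos m).ne'
  unfold fs dt
  rw [F1_sqrt, F1_v_re, F1_v_im]
  field_simp

theorem pt_f_eq (d : VD) (m : ℝ) (x : ℂ) : (d.pt m).f x = fs (oy m + x) (ov m) := by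
  rw [F1_fs]
  unfold Pt.f VD.pt
  simp only
  rw [oF_eq]
  unfold dt
  simp only [add_re, add_im]
  ring

/-- `|n*|² ρ*² = ρ*² - 1` -/
private lemma F1_nn (m : ℝ) : oR m ^ 2 * ((oN m).re ^ 2 + (oN m).im ^ 2) = oR m ^ 2 - 1 := by
  have h := oR_sq m
  rw [normSq_apply, F1_v_re, F1_v_im] at h
  linarith

/-- `f bp = - i (ρ y - (y·n) v)` -/
private lemma F1_bp (y : ℂ) (m : ℝ) (hf : fs y (ov m) ≠ 0) :
    ((fs y (ov m) : ℝ) : ℂ) * bp y (ov m) =
      -I * ((oR m : ℂ) * y - ((dt y (oN m) : ℝ) : ℂ) * ov m) := by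
  have hR := (F1_R_pos m).ne'
  have hsq := oR_sq m
  have e1 : Real.sqrt (1 + normSq (ov m)) + dt y (ov m) = oR m * fs y (ov m) := by
    rw [F1_sqrt, F1_fs]
    unfold dt
    rw [F1_v_re, F1_v_im]
    ring
  have e2 : dt y (ov m) = oR m * dt y (oN m) := by
    unfold dt
    rw [F1_v_re, F1_v_im]
    ring
  unfold bp
  rw [e1, ← hsq, e2]
  have hRc : ((oR m : ℝ) : ℂ) ≠ 0 := by exact_mod_cast hR
  have hfc : ((fs y (ov m) : ℝ) : ℂ) ≠ 0 := by exact_mod_cast hf
  push_cast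
  field_simp

/-- `f (bp y v* - b*) = - i M` -/
theorem pt_M_eq (d : VD) {m : ℝ} (x : ℂ) (hf : 0 < fs (oy m + x) (ov m)) (hs : 0 < oF m) :
    ((fs (oy m + x) (ov m) : ℝ) : ℂ) * (bp (oy m + x) (ov m) - oB m) = -(I * (d.pt m).M x) := by
  have h1 := F1_bp (oy m + x) m hf.ne'
  have h2 := F1_bp (oy m) m (by exact hs.ne')
  have h3 : fs (oy m + x) (ov m) = oF m + dt (oN m) x := (pt_f_eq d m x).symm
  have h4 : dt (oy m + x) (oN m) = dt (oy m) (oN m) + dt (oN m) x := by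
    unfold dt
    simp only [add_re, add_im]
    ring
  have h5 : ov m = (oR m : ℂ) * oN m := by
    apply Complex.ext
    · rw [F1_v_re]
      simp
    · rw [F1_v_im]
      simp
  have h6 : ((fs (oy m) (ov m) : ℝ) : ℂ) * bp (oy m) (ov m) = (oF m : ℂ) * oB m := rfl
  rw [h6] at h2
  rw [mul_sub, h1, h3, h4]
  push_cast
  unfold Pt.M VD.pt
  simp only
  linear_combination (-1 : ℂ) * h2 + (I * ((dt (oN m) x : ℝ) : ℂ)) * h5
    - (((dt (oN m) x : ℝ) : ℂ) * oB m) * I_sq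

private lemma F1_dt_add_left (z w u : ℂ) : dt (z + w) u = dt z u + dt w u := by
  unfold dt
  simp only [add_re, add_im]
  ring

private lemma F1_dt_add_right (z w u : ℂ) : dt z (w + u) = dt z w + dt z u := by
  unfold dt
  simp only [add_re, add_im]
  ring

private lemma F1_dt_sub_right (z w u : ℂ) : dt z (w - u) = dt z w - dt z u := by
  unfold dt
  simp only [sub_re, sub_im]
  ring

private lemma F1_dt_sub_left (z w u : ℂ) : dt (z - w) u = dt z u - dt w u := by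
  unfold dt
  simp only [sub_re, sub_im]
  ring

private lemma F1_dt_neg_left (z w : ℂ) : dt (-z) w = -dt z w := by
  unfold dt
  simp only [neg_re, neg_im]
  ring

private lemma F1_dt_neg_right (z w : ℂ) : dt z (-w) = -dt z w := by
  unfold dt
  simp only [neg_re, neg_im]
  ring

private lemma F1_dt_smul_left (t : ℝ) (z w : ℂ) : dt ((t : ℂ) * z) w = t * dt z w := by
  unfold dt
  rw [re_ofReal_mul, im_ofReal_mul]
  ring

private lemma F1_dt_smul_right (t : ℝ) (z w : ℂ) : dt z ((t : ℂ) * w) = t * dt z w := by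
  unfold dt
  rw [re_ofReal_mul, im_ofReal_mul]
  ring

private lemma F1_dt_div_left (t : ℝ) (z w : ℂ) : dt (z / (t : ℂ)) w = dt z w / t := by
  unfold dt
  rw [div_ofReal_re, div_ofReal_im]
  ring

private lemma F1_dt_I (z w : ℂ) : dt (I * z) w = -dt z (I * w) := by
  unfold dt
  simp only [mul_re, mul_im, I_re, I_im]
  ring

private lemma F1_dt_II (z w : ℂ) : dt (I * z) (I * w) = dt z w := by
  unfold dt
  simp only [mul_re, mul_im, I_re, I_im]
  ring

/-- adjoint of the derivative -/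
private lemma F1_DV (P : Pt) (q x : ℂ) : dt q (P.DV x) = dt (DVT P.ys q) x := by
  unfold Pt.DV DVT dt
  simp only [mul_re, mul_im, add_re, add_im, sub_re, sub_im, neg_re, neg_im, ofReal_re, ofReal_im,
    I_re, I_im, re_ofNat, im_ofNat]
  ring

/-- scaling of `VA` -/
private lemma F1_VA_sm (t : ℝ) (c : VC) (x : ℂ) : VA (VC.sm t c) x = t * VA c x := by
  unfold VA VC.sm
  simp only
  have h : (t : ℂ) * c.xx * x ^ 2 + (t : ℂ) * c.xb * (normSq x : ℂ) + (t : ℂ) * c.x3 * x ^ 3 +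
      (t : ℂ) * c.x2b * ((normSq x : ℂ) * x) = (t : ℂ) * (c.xx * x ^ 2 + c.xb * (normSq x : ℂ) +
      c.x3 * x ^ 3 + c.x2b * ((normSq x : ℂ) * x)) := by ring
  rw [h, im_ofReal_mul]

/-- `i b* f* = ρ y* - (y*·n) v*` -/
private lemma F1_Ib {m : ℝ} (hs : 0 < oF m) : ((oF m : ℝ) : ℂ) * (I * oB m) =
    (oR m : ℂ) * oy m - ((dt (oy m) (oN m) : ℝ) : ℂ) * ov m := by
  have h2 := F1_bp (oy m) m (by exact hs.ne')
  have h6 : ((fs (oy m) (ov m) : ℝ) : ℂ) * bp (oy m) (ov m) = (oF m : ℂ) * oB m := rfl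
  rw [h6] at h2
  linear_combination I * h2 - ((oR m : ℂ) * oy m - ((dt (oy m) (oN m) : ℝ) : ℂ) * ov m) * I_sq

private lemma F1_v_eq (m : ℝ) : ov m = (oR m : ℂ) * oN m := by
  apply Complex.ext
  · rw [F1_v_re]
    simp
  · rw [F1_v_im]
    simp

/-- `v*·M = e1 / f*` -/
private lemma F1_vM (d : VD) {m : ℝ} (x : ℂ) (hs : 0 < oF m) :
    dt (ov m) ((d.pt m).M x) * oF m = dt (oN m) x := by
  have h1 := congrArg (dt (oN m)) (F1_Ib hs)
  rw [F1_dt_smul_right, F1_dt_sub_right, F1_dt_smul_right, F1_dt_smul_right] at h1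
  have hF := oF_eq m
  have hnn := F1_nn m
  have hM : (d.pt m).M x = (oR m : ℂ) * (x - (dt (oN m) x : ℂ) * oN m)
    - (dt (oN m) x : ℂ) * (I * oB m) := rfl
  have hcomm : dt (oN m) (oy m) = dt (oy m) (oN m) := by
    unfold dt
    ring
  have hnv : dt (oN m) (ov m) = oR m * ((oN m).re ^ 2 + (oN m).im ^ 2) := by
    unfold dt
    rw [F1_v_re, F1_v_im]
    ring
  have hnn' : dt (oN m) (oN m) = (oN m).re ^ 2 + (oN m).im ^ 2 := by
    unfold dt
    ring
  have hvM : dt (ov m) ((d.pt m).M x) = oR m * (oR m * (dt (oN m) x - dt (oN m) x *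
      ((oN m).re ^ 2 + (oN m).im ^ 2)) - dt (oN m) x * dt (oN m) (I * oB m)) := by
    rw [F1_v_eq, F1_dt_smul_left, hM, F1_dt_sub_right, F1_dt_smul_right, F1_dt_sub_right,
      F1_dt_smul_right, F1_dt_smul_right, hnn']
  rw [hcomm, hnv] at h1
  rw [hvM]
  set n2 := (oN m).re ^ 2 + (oN m).im ^ 2 with hn2
  linear_combination (-(oR m) * dt (oN m) x) * h1 - (dt (oN m) x * (oF m - dt (oy m) (oN m))) * hnn
    + dt (oN m) x * hF

theorem VD.E0_flat (d : VD) {m : ℝ} (hm : |m| ≤ 1 / 4) (x η : ℂ)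
    (hf : 0 < fs (oy m + x) (ov m)) :
    d.E0 m x η = (d.pt m).Eh x η / fs (oy m + x) (ov m) ^ 2 - dt (d.resx m) x := by
  have hosd : 0 < osd m := by linarith [(osd_bounds hm).1]
  have hoe := osd_eq m
  have htau : 0 < otau' m := by
    rw [otau'_eq]
    exact div_pos (by linarith [oS_gt m]) (mul_pos (Real.sqrt_pos.mpr (by norm_num)) oK_pos)
  have hF : 0 < oF m := by
    rw [hoe] at hosd
    exact (pos_iff_pos_of_mul_pos hosd).2 htau
  have hF0 := hF.ne'
  have hosd0 := hosd.ne'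
  have hf0 := hf.ne'
  have hfF : fs (oy m + x) (ov m) = oF m + dt (oN m) x := (pt_f_eq d m x).symm
  have hPf : (d.pt m).f x = fs (oy m + x) (ov m) := pt_f_eq d m x
  have hM := pt_M_eq d x hf hF
  have hham := qy_ham m
  have hvM := F1_vM d x hF
  set f := fs (oy m + x) (ov m) with hfd
  set D := bp (oy m + x) (ov m) - oB m with hD
  set M := (d.pt m).M x with hMd
  set e1 := dt (oN m) x with he1
  -- norms
  have hN : f ^ 2 * normSq D = normSq M := by
    have h1 := congrArg normSq hM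
    rw [normSq_mul, normSq_ofReal, normSq_neg, normSq_mul, normSq_I, one_mul] at h1
    rw [← h1]
    ring
  -- the term with `β`
  have hbt : f * dt (d.bt m x) D = (1 + oc) * dt (ov m) M - dt (d.be m) (I * M)
      - dt (VB (d.ev m) x) (I * M) := by
    have h1 : f * dt (d.bt m x) D = dt (d.bt m x) ((f : ℂ) * D) := (F1_dt_smul_right _ _ _).symm
    rw [h1, hM, F1_dt_neg_right]
    unfold VD.bt
    rw [F1_dt_add_left, F1_dt_add_left, F1_dt_neg_left, F1_dt_smul_left, F1_dt_II]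
    ring
  -- the term with `A`
  have hAm : d.Am m x / osd m = dt (qd m + d.aed m) x / osd m
      - (dt (qy m) (oV m) + dt (d.ae m) (oV m) + dt (VAx (d.ev m) x) (oV m)) / oF m
      + VA (d.dv m) x / osd m := by
    unfold VD.Am
    have h1 : dt (d.at m x) (yd m) = otau' m * (dt (qy m) (oV m) + dt (d.ae m) (oV m)
        + dt (VAx (d.ev m) x) (oV m)) := by
      unfold yd VD.at
      rw [F1_dt_smul_right, F1_dt_add_left, F1_dt_add_left]
    rw [h1]
    have h2 : otau' m * (dt (qy m) (oV m) + dt (d.ae m) (oV m)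
        + dt (VAx (d.ev m) x) (oV m)) / osd m = (dt (qy m) (oV m) + dt (d.ae m) (oV m)
        + dt (VAx (d.ev m) x) (oV m)) / oF m := by
      rw [hoe]
      have := htau.ne'
      field_simp
    rw [← h2]
    ring
  have hat : dt (d.at m x) η = dt (qy m) η + dt (d.ae m) η + dt (VAx (d.ev m) x) η := by
    unfold VD.at
    rw [F1_dt_add_left, F1_dt_add_left]
  -- residual
  have hres : dt (d.resx m) x = dt (qd m + d.aed m) x / osd m - dt ((d.pt m).sa) x := by
    unfold VD.resx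
    rw [F1_dt_sub_left, F1_dt_div_left]
  set sx := dt ((d.pt m).sa) x with hsx
  set Dv := dt (DVT (oy m) (qy m + d.ae m)) x with hDv
  set Ibx := dt (I * d.be m) x with hIbx
  set bb := dt (d.be m) (oB m - (oR m : ℂ) * (I * oN m)) with hbb
  have hsx' : oF m * sx = -Dv + (dt (d.ae m) (oV m) / oF m - 2 * oc * oR m ^ 2 + bb) * e1
      - oR m * Ibx := by
    have h1 : (d.pt m).sa = (-DVT (oy m) (qy m + d.ae m)
      + ((dt (d.ae m) (oV m) / oF m - 2 * oc * oR m ^ 2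
          + dt (d.be m) (oB m - (oR m : ℂ) * (I * oN m)) : ℝ) : ℂ) * oN m
      - (oR m : ℂ) * (I * d.be m)) / (oF m : ℂ) := rfl
    rw [hsx, h1, F1_dt_div_left, F1_dt_sub_left, F1_dt_add_left, F1_dt_neg_left, F1_dt_smul_left,
      F1_dt_smul_left, mul_comm (oF m), div_mul_cancel₀ _ hF0]
  have hbM : dt (d.be m) (I * M) = -(oR m * Ibx) + e1 * bb := by
    have h1 : M = (oR m : ℂ) * (x - (dt (oN m) x : ℂ) * oN m)
      - (dt (oN m) x : ℂ) * (I * oB m) := rfl
    have h2 : I * M = (oR m : ℂ) * (I * x) + ((dt (oN m) x : ℝ) : ℂ) *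
        (oB m - (oR m : ℂ) * (I * oN m)) := by
      rw [h1]
      linear_combination (-((dt (oN m) x : ℝ) : ℂ) * oB m) * I_sq
    have h3 : dt (d.be m) (I * x) = -Ibx := by
      rw [hIbx, F1_dt_I]
      ring
    rw [h2, F1_dt_add_right, F1_dt_smul_right, F1_dt_smul_right, h3]
    ring
  -- the flat side
  have hX : (d.pt m).X x η = -(dt (qy m) η + dt (d.ae m) η - dt (qy m) (oV m) - dt (d.ae m) (oV m)
      - Dv) - e1 * sx - f * (VA (d.dv m) x / osd m)
      - (dt (VAx (d.ev m) x) η - f / oF m * dt (VAx (d.ev m) x) (oV m))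
      + dt (VB (d.ev m) x) (I * M) := by
    unfold Pt.X
    rw [hPf]
    have h1 : dt (d.pt m).a (η - (d.pt m).V0 - (d.pt m).DV x) = dt (qy m) η + dt (d.ae m) η
        - dt (qy m) (oV m) - dt (d.ae m) (oV m) - Dv := by
      rw [F1_dt_sub_right, F1_dt_sub_right, F1_DV]
      have h2 : (d.pt m).a = qy m + d.ae m := rfl
      have h3 : (d.pt m).ys = oy m := rfl
      have h4 : (d.pt m).V0 = oV m := rfl
      rw [h2, h3, h4, F1_dt_add_left, F1_dt_add_left]
      ring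
    have h5 : (d.pt m).cs = VC.sm (1 / osd m) (d.dv m) := rfl
    have h6 : (d.pt m).c = d.ev m := rfl
    have h7 : (d.pt m).V0 = oV m := rfl
    have h8 : (d.pt m).fs = oF m := rfl
    have h9 : (d.pt m).ns = oN m := rfl
    rw [h1, h5, h6, h7, h8, h9, F1_VA_sm, F1_dt_sub_right, F1_dt_smul_right]
    ring
  unfold VD.E0 Pt.Eh
  rw [hPf, hX, hres, hAm, hat]
  have hbt' : dt (d.bt m x) D = ((1 + oc) * dt (ov m) M - dt (d.be m) (I * M)
      - dt (VB (d.ev m) x) (I * M)) / f := by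
    rw [← hbt]
    field_simp
  have hN' : normSq D = normSq M / f ^ 2 := by
    rw [← hN]
    field_simp
  have hvM' : dt (ov m) M = e1 / oF m := by
    rw [eq_div_iff hF0]
    exact hvM
  have hfin : (dt (qy m) (oV m) + dt (d.ae m) (oV m)) * e1 / oF m - (1 + oc) * dt (ov m) M
      + dt (d.be m) (I * M) - Dv - oF m * sx = 0 := by
    rw [hsx', hbM, hvM', hham]
    field_simp
    ring
  have hgoal : (dt (qy m) (oV m) + dt (d.ae m) (oV m)) / oF m
      + (-((1 + oc) * dt (ov m) M) + dt (d.be m) (I * M) - dt (qy m) (oV m) - dt (d.ae m) (oV m) - Dv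
        + e1 * sx) / f - sx = 0 := by
    have h1 : (dt (qy m) (oV m) + dt (d.ae m) (oV m)) / oF m
      + (-((1 + oc) * dt (ov m) M) + dt (d.be m) (I * M) - dt (qy m) (oV m) - dt (d.ae m) (oV m) - Dv
        + e1 * sx) / f - sx = ((dt (qy m) (oV m) + dt (d.ae m) (oV m)) * e1 / oF m
        - (1 + oc) * dt (ov m) M + dt (d.be m) (I * M) - Dv - oF m * sx) / f := by
      field_simp
      rw [hfF]
      ring
    rw [h1, hfin, zero_div]
  rw [hbt', hN']
  have h10 : ∀ (N A1 q1 q2 q3 VAd n1 n2 n3 vM bM BM o F s : ℝ), o ≠ 0 → F ≠ 0 →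
      (q1 + q2) / F + (-((1 + oc) * vM) + bM - q1 - q2 - Dv + e1 * s) / f - s = 0 →
      -(N / f ^ 2) / 12 - (A1 / o - (q1 + q2 + q3) / F + VAd / o) - (n1 + n2 + n3) / f
        - ((1 + oc) * vM - bM - BM) / f =
      (-N / 12 + f * (-(n1 + n2 - q1 - q2 - Dv) - e1 * s - f * (VAd / o) - (n3 - f / F * q3) + BM))
        / f ^ 2 - (A1 / o - s) := by
    intro N A1 q1 q2 q3 VAd n1 n2 n3 vM bM BM o F s ho hF h
    have h2 : -(N / f ^ 2) / 12 - (A1 / o - (q1 + q2 + q3) / F + VAd / o) - (n1 + n2 + n3) / f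
        - ((1 + oc) * vM - bM - BM) / f -
      ((-N / 12 + f * (-(n1 + n2 - q1 - q2 - Dv) - e1 * s - f * (VAd / o) - (n3 - f / F * q3) + BM))
        / f ^ 2 - (A1 / o - s)) =
        (q1 + q2) / F + (-((1 + oc) * vM) + bM - q1 - q2 - Dv + e1 * s) / f - s := by
      field_simp
      ring
    rw [h] at h2
    linarith
  exact h10 _ _ _ _ _ _ _ _ _ _ _ _ _ _ _ hosd0 hF0 hgoal

end Pool.H61.Rh
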