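import Pool.Agent.H61.Re.Z0

/-! # L3: the inequalities of the zones from approximations (level 3)

`E3, G3, C3, Q3, Y3` approximate `Eh D, Gh D, ct D, fq D, dt fp y`. -/

set_option autoImplicit false

namespace Pool.H61.Rh

open Complex

/-- approximations of the five expressions -/
structure Pt.Apx (P : Pt) (x η : ℂ) (D E3 : ℝ) (G3 : ℂ) (C3 : ℝ) (Q3 : ℂ) (Y3 dE dG dC dQ dY : ℝ) :
    Prop where
  E : |P.Eh x η * D - E3| ≤ dE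
  G : ‖P.Gh x η * (D : ℂ) - G3‖ ≤ dG
  C : |P.ct x η * D - C3| ≤ dC
  Q : ‖P.fq x η * (D : ℂ) - Q3‖ ≤ dQ
  Y : |dt (P.fp x) (P.ys + x) - Y3| ≤ dY

lemma nsq_apx {G G3 : ℂ} {d t : ℝ} (ht : 0 < t) (h : ‖G - G3‖ ≤ d) :
    normSq G ≤ (1 + t) * normSq G3 + (1 + 1 / t) * d ^ 2 := by
  have hd : normSq (G - G3) ≤ d ^ 2 := by
    rw [normSq_eq_norm_sq]
    exact pow_le_pow_left₀ (norm_nonneg _) h 2
  have h1 : 0 ≤ 1 / t * normSq ((t : ℂ) * G3 - (G - G3)) :=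
    mul_nonneg (by positivity) (normSq_nonneg _)
  have h2 : 0 ≤ (1 + 1 / t) * (d ^ 2 - normSq (G - G3)) :=
    mul_nonneg (by positivity) (by linarith)
  have e : (1 + t) * normSq G3 + (1 + 1 / t) * d ^ 2 - normSq G =
      1 / t * normSq ((t : ℂ) * G3 - (G - G3)) + (1 + 1 / t) * (d ^ 2 - normSq (G - G3)) := by
    simp only [normSq_apply, Complex.sub_re, Complex.sub_im, Complex.mul_re, Complex.mul_im,
      Complex.ofReal_re, Complex.ofReal_im]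
    field_simp
    ring
  linarith

private lemma L3_norm (a : ℝ) (z : ℂ) : normSq (z * (a : ℂ)) = normSq z * a ^ 2 := by
  rw [normSq_mul, normSq_ofReal]; ring

/-- the inequalities from the approximations -/
theorem Pt.Apx.Z {P : Pt} {x η : ℂ} {D E3 : ℝ} {G3 : ℂ} {C3 : ℝ} {Q3 : ℂ}
    {Y3 dE dG dC dQ dY : ℝ} (h : P.Apx x η D E3 G3 C3 Q3 Y3 dE dG dC dQ dY) {ν t dW : ℝ} {z : ZC}
    (hD : 0 < D) (ht : 0 < t) (hR : ν ≤ z.R) (hlam : 0 ≤ z.lam) (hΦ : 0 ≤ z.Φ)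
    (hf : 0 ≤ P.f x) (hy1 : normSq (P.ys + x) ≤ 1)
    (hb : normSq (P.ys + x) ≤ z.hb ^ 2)
    (F : 0 ≤ 4 * (z.R - ν) * P.f x ^ 4 * D * (E3 - dE - ν * normSq x * P.f x ^ 2 * D)
      - (1 + t) * normSq G3 - (1 + 1 / t) * dG ^ 2)
    (c0 : 0 ≤ C3 - dC)
    (c1 : 0 ≤ z.cb * P.f x ^ 3 * D - C3 - dC)
    (q : 0 ≤ z.Qb ^ 2 * P.f x ^ 2 * D ^ 2 - (1 + t) * normSq Q3 - (1 + 1 / t) * dQ ^ 2)
    (p0 : 0 ≤ z.pb * P.f x ^ 2 - Y3 - dY)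
    (p1 : 0 ≤ z.pb * P.f x ^ 2 + Y3 - dY)
    (hW : P.f x * dQ + 957 / 1000 * dC ≤ dW)
    (w : 0 ≤ 4 * z.lam * P.f x ^ 4 * D ^ 2 * ((6 - z.R - Kz z.hb z.Φ z.cb z.Qb z.pb) * P.f x ^ 2
        + 493 / 1000 * (Y3 - dY))
      - z.Φ * (1 + t) * normSq (((z.lam * P.f x ^ 3 * D : ℝ) : ℂ) * (P.ys + x)
          - ((P.f x : ℂ) * Q3 + ((957 / 1000 * C3 : ℝ) : ℂ) * (P.ys + x)))
      - z.Φ * (1 + 1 / t) * dW ^ 2) :
    P.Z ν z x η D := by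
  obtain ⟨hE, hG, hC, hQ, hY⟩ := h
  rw [abs_le] at hE hC hY
  have hD0 := hD.le
  refine ⟨hb, ?_, ?_, ?_, ?_, ?_, ?_, ?_⟩
  · have h1 := nsq_apx ht hG
    rw [L3_norm] at h1
    have h2 : 0 ≤ 4 * (z.R - ν) * P.f x ^ 4 * D * (P.Eh x η * D - (E3 - dE)) :=
      mul_nonneg (mul_nonneg (mul_nonneg (by linarith) (by positivity)) hD0) (by linarith)
    have e : (4 * (z.R - ν) * P.f x ^ 4 * (P.Eh x η - ν * normSq x * P.f x ^ 2)
        - normSq (P.Gh x η)) * D ^ 2 =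
        4 * (z.R - ν) * P.f x ^ 4 * D * (P.Eh x η * D - (E3 - dE)) +
        (4 * (z.R - ν) * P.f x ^ 4 * D * (E3 - dE - ν * normSq x * P.f x ^ 2 * D)) -
        normSq (P.Gh x η) * D ^ 2 := by ring
    rw [e]
    linarith
  · linarith
  · have e : (z.cb * P.f x ^ 3 - P.ct x η) * D = z.cb * P.f x ^ 3 * D - P.ct x η * D := by ring
    rw [e]; linarith
  · have h1 := nsq_apx ht hQ
    rw [L3_norm] at h1
    have e : (z.Qb ^ 2 * P.f x ^ 2 - normSq (P.fq x η)) * D ^ 2 =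
      z.Qb ^ 2 * P.f x ^ 2 * D ^ 2 - normSq (P.fq x η) * D ^ 2 := by ring
    rw [e]; linarith
  · linarith
  · linarith
  · -- the last inequality
    obtain ⟨y, hy⟩ : ∃ y, y = P.ys + x := ⟨_, rfl⟩
    rw [← hy] at hy1 hY w ⊢
    have hyn : ‖y‖ ≤ 1 := by
      rw [normSq_eq_norm_sq] at hy1
      have : ‖y‖ ^ 2 ≤ 1 ^ 2 := by linarith
      exact le_of_sq_le_sq this zero_le_one
    have hwd : ‖P.wh x η * (D : ℂ) - ((P.f x : ℂ) * Q3 + ((957 / 1000 * C3 : ℝ) : ℂ) * y)‖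
        ≤ dW := by
      have e : P.wh x η * (D : ℂ) - ((P.f x : ℂ) * Q3 + ((957 / 1000 * C3 : ℝ) : ℂ) * y) =
          (P.f x : ℂ) * (P.fq x η * (D : ℂ) - Q3) +
          ((957 / 1000 * (P.ct x η * D - C3) : ℝ) : ℂ) * y := by
        unfold Pt.wh
        rw [← hy]
        push_cast
        ring
      rw [e]
      refine (norm_add_le _ _).trans (le_trans ?_ hW)
      refine add_le_add ?_ ?_
      · rw [norm_mul, Complex.norm_real, Real.norm_eq_abs, abs_of_nonneg hf]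
        exact mul_le_mul_of_nonneg_left hQ hf
      · rw [norm_mul, Complex.norm_real, Real.norm_eq_abs, abs_mul,
          abs_of_nonneg (by norm_num : (0 : ℝ) ≤ 957 / 1000), mul_assoc]
        refine mul_le_mul_of_nonneg_left ?_ (by norm_num)
        have h1 : |P.ct x η * D - C3| ≤ dC := abs_le.mpr ⟨by linarith, by linarith⟩
        calc |P.ct x η * D - C3| * ‖y‖ ≤ dC * 1 :=
              mul_le_mul h1 hyn (norm_nonneg _) ((abs_nonneg _).trans h1)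
          _ = dC := mul_one _
    have h2 : ‖(((z.lam * P.f x ^ 3 : ℝ) : ℂ) * y - P.wh x η) * (D : ℂ) -
        (((z.lam * P.f x ^ 3 * D : ℝ) : ℂ) * y -
          ((P.f x : ℂ) * Q3 + ((957 / 1000 * C3 : ℝ) : ℂ) * y))‖ ≤ dW := by
      have e : (((z.lam * P.f x ^ 3 : ℝ) : ℂ) * y - P.wh x η) * (D : ℂ) -
          (((z.lam * P.f x ^ 3 * D : ℝ) : ℂ) * y -
            ((P.f x : ℂ) * Q3 + ((957 / 1000 * C3 : ℝ) : ℂ) * y)) =
          -(P.wh x η * (D : ℂ) - ((P.f x : ℂ) * Q3 + ((957 / 1000 * C3 : ℝ) : ℂ) * y)) := by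
        push_cast
        ring
      rw [e, norm_neg]
      exact hwd
    have h3 := nsq_apx ht h2
    rw [L3_norm] at h3
    have h4 := mul_le_mul_of_nonneg_left h3 hΦ
    have h5 : 0 ≤ 4 * z.lam * P.f x ^ 4 * D ^ 2 * (493 / 1000) *
        (dt (P.fp x) y - (Y3 - dY)) := by
      have : 0 ≤ dt (P.fp x) y - (Y3 - dY) := by linarith
      positivity
    have e5 : (4 * z.lam * (6 - z.R - Kz z.hb z.Φ z.cb z.Qb z.pb) * P.f x ^ 6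
        + 4 * z.lam * (493 / 1000) * P.f x ^ 4 * dt (P.fp x) y
        - z.Φ * normSq (((z.lam * P.f x ^ 3 : ℝ) : ℂ) * y - P.wh x η)) * D ^ 2 =
        4 * z.lam * P.f x ^ 4 * D ^ 2 * ((6 - z.R - Kz z.hb z.Φ z.cb z.Qb z.pb) * P.f x ^ 2
        + 493 / 1000 * (Y3 - dY)) +
        4 * z.lam * P.f x ^ 4 * D ^ 2 * (493 / 1000) * (dt (P.fp x) y - (Y3 - dY)) -
        z.Φ * (normSq (((z.lam * P.f x ^ 3 : ℝ) : ℂ) * y - P.wh x η) * D ^ 2) := by ring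
    rw [e5]
    linarith

/-- blow-up form of the main inequality at `x = r xh` -/
theorem L3_blow {R ν f D E3h dEh dGh r t : ℝ} {G3h x xh : ℂ} (hx : x = (r : ℂ) * xh)
    (F : 0 ≤ 4 * (R - ν) * f ^ 4 * D * (E3h - dEh * normSq xh - ν * normSq xh * f ^ 2 * D)
      - (1 + t) * normSq G3h - (1 + 1 / t) * (dGh ^ 2 * normSq xh)) :
    0 ≤ 4 * (R - ν) * f ^ 4 * D * (r ^ 2 * E3h - dEh * normSq x - ν * normSq x * f ^ 2 * D)
      - (1 + t) * normSq ((r : ℂ) * G3h) - (1 + 1 / t) * (dGh * ‖x‖) ^ 2 := by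
  have h0 : (dGh * ‖x‖) ^ 2 = dGh ^ 2 * normSq x := by rw [mul_pow, normSq_eq_norm_sq]
  have h1 : normSq x = r ^ 2 * normSq xh := by rw [hx, normSq_mul, normSq_ofReal]; ring
  have h2 : normSq ((r : ℂ) * G3h) = r ^ 2 * normSq G3h := by
    rw [normSq_mul, normSq_ofReal]; ring
  have h3 := mul_nonneg (sq_nonneg r) F
  rw [h0, h1, h2]
  have e : 4 * (R - ν) * f ^ 4 * D * (r ^ 2 * E3h - dEh * (r ^ 2 * normSq xh)
      - ν * (r ^ 2 * normSq xh) * f ^ 2 * D) - (1 + t) * (r ^ 2 * normSq G3h)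
      - (1 + 1 / t) * (dGh ^ 2 * (r ^ 2 * normSq xh)) =
      r ^ 2 * (4 * (R - ν) * f ^ 4 * D * (E3h - dEh * normSq xh - ν * normSq xh * f ^ 2 * D)
      - (1 + t) * normSq G3h - (1 + 1 / t) * (dGh ^ 2 * normSq xh)) := by ring
  rw [e]
  exact h3

/-- the inequalities from the approximations, blow-up form (`j = 0`) -/
theorem Pt.Apx.Z0 {P : Pt} {x xh η : ℂ} {D r E3h : ℝ} {G3h : ℂ} {C3 : ℝ} {Q3 : ℂ}
    {Y3 dEh dGh dC dQ dY : ℝ} (hx : x = (r : ℂ) * xh)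
    (h : P.Apx x η D (r ^ 2 * E3h) ((r : ℂ) * G3h) C3 Q3 Y3 (dEh * normSq x) (dGh * ‖x‖) dC dQ dY)
    {ν t dW : ℝ} {z : ZC}
    (hD : 0 < D) (ht : 0 < t) (hR : ν ≤ z.R) (hlam : 0 ≤ z.lam) (hΦ : 0 ≤ z.Φ)
    (hf : 0 ≤ P.f x) (hy1 : normSq (P.ys + x) ≤ 1)
    (hb : normSq (P.ys + x) ≤ z.hb ^ 2)
    (F : 0 ≤ 4 * (z.R - ν) * P.f x ^ 4 * D *
        (E3h - dEh * normSq xh - ν * normSq xh * P.f x ^ 2 * D)
      - (1 + t) * normSq G3h - (1 + 1 / t) * (dGh ^ 2 * normSq xh))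
    (c0 : 0 ≤ C3 - dC)
    (c1 : 0 ≤ z.cb * P.f x ^ 3 * D - C3 - dC)
    (q : 0 ≤ z.Qb ^ 2 * P.f x ^ 2 * D ^ 2 - (1 + t) * normSq Q3 - (1 + 1 / t) * dQ ^ 2)
    (p0 : 0 ≤ z.pb * P.f x ^ 2 - Y3 - dY)
    (p1 : 0 ≤ z.pb * P.f x ^ 2 + Y3 - dY)
    (hW : P.f x * dQ + 957 / 1000 * dC ≤ dW)
    (w : 0 ≤ 4 * z.lam * P.f x ^ 4 * D ^ 2 * ((6 - z.R - Kz z.hb z.Φ z.cb z.Qb z.pb) * P.f x ^ 2
        + 493 / 1000 * (Y3 - dY))
      - z.Φ * (1 + t) * normSq (((z.lam * P.f x ^ 3 * D : ℝ) : ℂ) * (P.ys + x)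
          - ((P.f x : ℂ) * Q3 + ((957 / 1000 * C3 : ℝ) : ℂ) * (P.ys + x)))
      - z.Φ * (1 + 1 / t) * dW ^ 2) :
    P.Z ν z x η D :=
  h.Z hD ht hR hlam hΦ hf hy1 hb (L3_blow hx F) c0 c1 q p0 p1 hW w

end Pool.H61.Rh
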